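import Mathlib

/-!
# Blichfeldt's theorem for three points in dimension 16
-/

namespace Pool.Agent.Q5U

open Matrix MeasureTheory

/-- The unit cube with integer corner `v`. -/
def bliCube {ι : Type} (v : ι → ℤ) : Set (ι → ℝ) := {x | ∀ i, ⌊x i⌋ = v i}

theorem bliCube_meas {ι : Type} [Fintype ι] (v : ι → ℤ) : MeasurableSet (bliCube v) := by
  have e : bliCube v = ⋂ i, (fun x : ι → ℝ => ⌊x i⌋) ⁻¹' {v i} := by
    ext x
    simp [bliCube]
  rw [e]
  refine MeasurableSet.iInter (fun i => ?_)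
  exact (Int.measurable_floor.comp (measurable_pi_apply i)) (measurableSet_singleton _)

theorem bliCube_zero {ι : Type} [Fintype ι] : volume (bliCube (0 : ι → ℤ)) = 1 := by
  have e : bliCube (0 : ι → ℤ) = Set.pi Set.univ (fun _ : ι => Set.Ico (0 : ℝ) 1) := by
    ext x
    simp only [bliCube, Set.mem_ofPred_eq, Pi.zero_apply, Set.mem_pi, Set.mem_univ, forall_const,
      Set.mem_Ico]
    refine forall_congr' (fun i => ?_)
    rw [Int.floor_eq_zero_iff, Set.mem_Ico]
  rw [e, Real.volume_pi_Ico]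
  simp

/-- Blichfeldt's averaging argument: a measurable set of volume larger than `M` contains
`M + 1` translates of a point by integer vectors. -/
theorem bli_count {ι : Type} [Fintype ι] {t : Set (ι → ℝ)} (ht : MeasurableSet t) {M : ℕ}
    (hM : (M : ENNReal) < volume t) :
    ∃ (x : ι → ℝ) (T : Finset (ι → ℤ)), M < T.card ∧
      ∀ v ∈ T, (fun i => x i + (v i : ℝ)) ∈ t := by
  by_contra hc
  push Not at hc
  -- the part of `t` in the cube `v`, moved to the cube `0`
  let A : (ι → ℤ) → Set (ι → ℝ) := fun v => (fun x : ι → ℝ => x + (fun i => (v i : ℝ))) ⁻¹' t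
  have hA : ∀ v, MeasurableSet (A v) := fun v => (measurable_add_const _) ht
  have h1 : t = ⋃ v : ι → ℤ, t ∩ bliCube v := by
    ext x
    simp only [Set.mem_iUnion, Set.mem_inter_iff]
    constructor
    · intro hx
      exact ⟨fun i => ⌊x i⌋, hx, fun i => rfl⟩
    · rintro ⟨v, hx, -⟩
      exact hx
  have h2 : volume t = ∑' v : ι → ℤ, volume (t ∩ bliCube v) := by
    conv_lhs => rw [h1]
    apply measure_iUnion
    · intro v w hvw
      rw [Function.onFun, Set.disjoint_left]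
      rintro x ⟨-, hx1⟩ ⟨-, hx2⟩
      exact hvw (funext fun i => (hx1 i).symm.trans (hx2 i))
    · intro v
      exact ht.inter (bliCube_meas v)
  have h3 : ∀ v : ι → ℤ, volume (t ∩ bliCube v) = volume (A v ∩ bliCube 0) := by
    intro v
    rw [← measure_preimage_add_right volume (fun i => (v i : ℝ)) (t ∩ bliCube v)]
    congr 1
    ext x
    simp only [Set.mem_preimage, Set.mem_inter_iff, A, bliCube, Set.mem_ofPred_eq, Pi.add_apply,
      Pi.zero_apply]
    refine and_congr_right (fun _ => forall_congr' (fun i => ?_))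
    rw [Int.floor_add_intCast]
    constructor <;> intro h <;> linarith
  have h4 : ∀ v : ι → ℤ, volume (A v ∩ bliCube 0) =
      ∫⁻ x in bliCube (0 : ι → ℤ), (A v).indicator 1 x := by
    intro v
    rw [lintegral_indicator_one (hA v), Measure.restrict_apply (hA v)]
  have h5 : volume t = ∫⁻ x in bliCube (0 : ι → ℤ), ∑' v : ι → ℤ, (A v).indicator 1 x := by
    rw [h2, lintegral_tsum]
    · exact tsum_congr (fun v => by rw [h3, h4])
    · intro v
      exact (measurable_one.indicator (hA v)).aemeasurable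
  have h6 : volume t ≤ ∫⁻ _ in bliCube (0 : ι → ℤ), (M : ENNReal) := by
    rw [h5]
    refine lintegral_mono (fun x => ?_)
    rw [ENNReal.tsum_eq_iSup_sum]
    refine iSup_le (fun T => ?_)
    classical
    have e : ∑ v ∈ T, (A v).indicator (1 : (ι → ℝ) → ENNReal) x =
        ((T.filter (fun v => x ∈ A v)).card : ENNReal) := by
      rw [Finset.card_filter]
      push_cast
      refine Finset.sum_congr rfl (fun v _ => ?_)
      simp [Set.indicator_apply]
    rw [e]
    have hle : (T.filter (fun v => x ∈ A v)).card ≤ M := by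
      by_contra hlt
      push Not at hlt
      obtain ⟨v, hv, hv2⟩ := hc x (T.filter (fun v => x ∈ A v)) hlt
      exact hv2 (Finset.mem_filter.1 hv).2
    exact_mod_cast hle
  rw [lintegral_const, Measure.restrict_apply MeasurableSet.univ, Set.univ_inter, bliCube_zero,
    mul_one] at h6
  exact absurd h6 (not_le.2 hM)

/-- The ball of radius `√(4/3)`. -/
def bliBall (ι : Type) [Fintype ι] : Set (ι → ℝ) := {y | ∑ i, y i ^ 2 < 4 / 3}

theorem bliBall_meas (ι : Type) [Fintype ι] : MeasurableSet (bliBall ι) := by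
  refine measurableSet_lt ?_ measurable_const
  exact Finset.measurable_fun_sum _ (fun i _ => (measurable_pi_apply i).pow_const 2)

theorem bli_num : (2 : ℝ) < (4 / 3) ^ 8 * (Real.pi ^ 8 / 40320) := by
  have h : (3.1415 : ℝ) < Real.pi := Real.pi_gt_d4
  have h1 : (3.1415 : ℝ) ^ 8 ≤ Real.pi ^ 8 := pow_le_pow_left₀ (by norm_num) h.le 8
  have h2 : (2 : ℝ) < (4 / 3) ^ 8 * (3.1415 ^ 8 / 40320) := by norm_num
  refine lt_of_lt_of_le h2 ?_
  gcongr

theorem bliBall_vol {ι : Type} [Fintype ι] (hι : Fintype.card ι = 16) :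
    volume (bliBall ι) = ENNReal.ofReal ((4 / 3) ^ 8 * (Real.pi ^ 8 / 40320)) := by
  haveI : Nonempty ι := Fintype.card_pos_iff.1 (by omega)
  have e : bliBall ι = (WithLp.toLp 2) ⁻¹'
      (Metric.ball (0 : EuclideanSpace ℝ ι) (√(4 / 3))) := by
    ext y
    simp only [bliBall, Set.mem_ofPred_eq, Set.mem_preimage, mem_ball_zero_iff,
      EuclideanSpace.norm_eq, Real.norm_eq_abs, sq_abs]
    rw [Real.sqrt_lt_sqrt_iff (Finset.sum_nonneg fun i _ => sq_nonneg _)]
  rw [e, (PiLp.volume_preserving_toLp ι).measure_preimage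
    Metric.isOpen_ball.measurableSet.nullMeasurableSet, EuclideanSpace.volume_ball, hι]
  rw [← ENNReal.ofReal_pow (Real.sqrt_nonneg _), ← ENNReal.ofReal_mul (by positivity)]
  congr 1
  have g1 : Real.Gamma (((16 : ℕ) : ℝ) / 2 + 1) = 40320 := by
    have : (((16 : ℕ) : ℝ) / 2 + 1) = ((8 : ℕ) : ℝ) + 1 := by norm_num
    rw [this, Real.Gamma_nat_eq_factorial]
    norm_num [Nat.factorial]
  have g2 : (√(4 / 3 : ℝ)) ^ 16 = (4 / 3) ^ 8 := by
    rw [show (16 : ℕ) = 2 * 8 by norm_num, pow_mul, Real.sq_sqrt (by norm_num)]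
  have g3 : (√Real.pi) ^ 16 = Real.pi ^ 8 := by
    rw [show (16 : ℕ) = 2 * 8 by norm_num, pow_mul, Real.sq_sqrt Real.pi_pos.le]
  rw [g1, g2, g3]

/-- Among three vectors of square norm less than `4 / 3` two are close. -/
theorem bli_three {ι : Type} [Fintype ι] {a b c : ι → ℝ} (ha : ∑ i, a i ^ 2 < 4 / 3)
    (hb : ∑ i, b i ^ 2 < 4 / 3) (hc : ∑ i, c i ^ 2 < 4 / 3) :
    ∑ i, (a i - b i) ^ 2 < 4 ∨ ∑ i, (a i - c i) ^ 2 < 4 ∨ ∑ i, (b i - c i) ^ 2 < 4 := by
  by_contra h
  push Not at h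
  obtain ⟨h1, h2, h3⟩ := h
  have e : ∑ i, (a i - b i) ^ 2 + ∑ i, (a i - c i) ^ 2 + ∑ i, (b i - c i) ^ 2 +
      ∑ i, (a i + b i + c i) ^ 2 =
      3 * ∑ i, a i ^ 2 + 3 * ∑ i, b i ^ 2 + 3 * ∑ i, c i ^ 2 := by
    rw [Finset.mul_sum, Finset.mul_sum, Finset.mul_sum, ← Finset.sum_add_distrib,
      ← Finset.sum_add_distrib, ← Finset.sum_add_distrib, ← Finset.sum_add_distrib,
      ← Finset.sum_add_distrib]
    refine Finset.sum_congr rfl (fun i _ => ?_)
    ring
  have h4 : 0 ≤ ∑ i, (a i + b i + c i) ^ 2 := Finset.sum_nonneg fun i _ => sq_nonneg _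
  linarith

theorem blichfeldt16 {ι : Type} [Fintype ι] [DecidableEq ι] (hι : Fintype.card ι = 16)
    (Φ : Matrix ι ι ℝ) (hΦ : Φ.det ≠ 0) {S : Type} [Finite S] (H : (ι → ℤ) → S)
    (hS : (Nat.card S : ℝ) * |Φ.det| ≤ 1) :
    ∃ x y : ι → ℤ, x ≠ y ∧ H x = H y ∧
      ∑ i, (Φ.mulVec (fun k => ((x k - y k : ℤ) : ℝ)) i) ^ 2 < 4 := by
  classical
  haveI := Fintype.ofFinite S
  haveI : Nonempty S := ⟨H 0⟩
  have hcard : Nat.card S = Fintype.card S := Nat.card_eq_fintype_card
  have hN : 0 < Fintype.card S := Fintype.card_pos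
  have hN' : (0 : ℝ) < Fintype.card S := by exact_mod_cast hN
  rw [hcard] at hS
  have hdet : 0 < |Φ.det| := abs_pos.2 hΦ
  -- the preimage of the ball
  set t : Set (ι → ℝ) := (Matrix.toLin' Φ) ⁻¹' (bliBall ι) with ht
  have hcont : Continuous (Matrix.toLin' Φ) := LinearMap.continuous_of_finiteDimensional _
  have htm : MeasurableSet t := hcont.measurable (bliBall_meas ι)
  have hvol : volume t = ENNReal.ofReal (|Φ.det|⁻¹ * ((4 / 3) ^ 8 * (Real.pi ^ 8 / 40320))) := by
    have h1 := congrArg (fun μ => μ (bliBall ι)) (Real.map_matrix_volume_pi_eq_smul_volume_pi hΦ)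
    simp only [Measure.smul_apply, smul_eq_mul] at h1
    rw [Measure.map_apply hcont.measurable (bliBall_meas ι)] at h1
    rw [ht, h1, bliBall_vol hι, ← ENNReal.ofReal_mul (abs_nonneg _), abs_inv]
  have hbig : ((Fintype.card S * 2 : ℕ) : ENNReal) < volume t := by
    rw [hvol, ← ENNReal.ofReal_natCast, ENNReal.ofReal_lt_ofReal_iff_of_nonneg (by positivity)]
    push_cast
    have h1 : (Fintype.card S : ℝ) ≤ |Φ.det|⁻¹ := by
      rw [le_inv_comm₀ hN' hdet, inv_eq_one_div, le_div_iff₀ hN']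
      linarith
    have h2 := bli_num
    calc (Fintype.card S : ℝ) * 2 < Fintype.card S * ((4 / 3) ^ 8 * (Real.pi ^ 8 / 40320)) :=
          mul_lt_mul_of_pos_left h2 hN'
      _ ≤ |Φ.det|⁻¹ * ((4 / 3) ^ 8 * (Real.pi ^ 8 / 40320)) :=
          mul_le_mul_of_nonneg_right h1 (by positivity)
  obtain ⟨x, T, hT, hxT⟩ := bli_count htm hbig
  obtain ⟨c, -, hc⟩ := Finset.exists_lt_card_fiber_of_mul_lt_card_of_maps_to
    (s := T) (t := Finset.univ) (f := H) (fun _ _ => Finset.mem_univ _) (n := 2)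
    (by rw [Finset.card_univ]; exact hT)
  obtain ⟨v1, h1, v2, h2, v3, h3, n12, n13, n23⟩ := Finset.two_lt_card.1 hc
  rw [Finset.mem_filter] at h1 h2 h3
  have b1 : ∑ i, (Φ.mulVec (fun k => x k + (v1 k : ℝ)) i) ^ 2 < 4 / 3 := hxT v1 h1.1
  have b2 : ∑ i, (Φ.mulVec (fun k => x k + (v2 k : ℝ)) i) ^ 2 < 4 / 3 := hxT v2 h2.1
  have b3 : ∑ i, (Φ.mulVec (fun k => x k + (v3 k : ℝ)) i) ^ 2 < 4 / 3 := hxT v3 h3.1
  have hsub : ∀ v w : ι → ℤ, ∀ i, (Φ.mulVec (fun k => ((v k - w k : ℤ) : ℝ)) i) =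
      Φ.mulVec (fun k => x k + (v k : ℝ)) i - Φ.mulVec (fun k => x k + (w k : ℝ)) i := by
    intro v w i
    have : (fun k => ((v k - w k : ℤ) : ℝ)) =
        (fun k => x k + (v k : ℝ)) - (fun k => x k + (w k : ℝ)) := by
      funext k
      simp only [Pi.sub_apply]
      push_cast
      ring
    rw [this, Matrix.mulVec_sub]
    rfl
  rcases bli_three b1 b2 b3 with h | h | h
  · refine ⟨v1, v2, n12, h1.2.trans h2.2.symm, ?_⟩
    simp only [hsub]
    exact h
  · refine ⟨v1, v3, n13, h1.2.trans h3.2.symm, ?_⟩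
    simp only [hsub]
    exact h
  · refine ⟨v2, v3, n23, h2.2.trans h3.2.symm, ?_⟩
    simp only [hsub]
    exact h

end Pool.Agent.Q5U
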