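import Pool.Agent.Q5U.WalkData

/-!
# Data for the final step
-/

namespace Pool.Agent.Q5U

/-- Units `u ≡ 1 mod π` whose squares are used for the reduction, with inverses. -/
def redUnits : List (OK × OK) := [
  (o (-2) 0 (-1) 0, o (-2) 0 1 0),
  (o (-2) 0 1 0, o (-2) 0 (-1) 0),
  (o (-1) (-1) 0 (-1), o 1 1 0 (-1)),
  (o (-1) (-1) 0 1, o 1 1 0 1),
  (o (-2) 1 (-1) 1, o 2 (-1) (-1) 1),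
  (o (-2) 1 1 (-1), o 2 (-1) 1 (-1)),
  (o (-1) (-2) 0 0, o 3 (-2) 0 0),
  (o (-3) 2 0 0, o 1 2 0 0),
  (o (-2) (-4) (-1) (-2), o 6 (-4) (-3) 2),
  (o (-2) (-4) 1 2, o 6 (-4) 3 (-2)),
  (o (-6) 4 (-3) 2, o 2 4 (-1) (-2)),
  (o (-6) 4 3 (-2), o 2 4 1 2)]
/-- Elements `t ≡ 1 mod π` whose squares are subtracted. -/
def subT : List OK := [
  1,
  o 0 (-1) (-1) 1,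
  o 0 (-1) 1 (-1),
  o (-1) 1 0 (-1),
  o (-1) 1 0 1,
  o (-2) 0 1 0,
  o (-2) 0 (-1) 0,
  o (-2) 1 (-1) 1,
  o (-2) 1 1 (-1),
  o (-1) (-1) 0 (-1),
  o (-1) (-1) 0 1,
  o (-3) 2 0 0,
  o (-1) (-2) 0 0,
  o 2 (-2) 1 0,
  o 2 (-2) (-1) 0,
  o 0 2 1 0,
  o 0 2 (-1) 0,
  o (-1) 1 (-2) 1,
  o (-1) 1 2 (-1),
  o 0 (-1) (-1) (-1),
  o 0 (-1) 1 1,
  o (-4) 2 1 0,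
  o (-4) 2 (-1) 0,
  o (-2) (-2) 1 0,
  o (-2) (-2) (-1) 0,
  o 3 (-1) (-2) 1,
  o 3 (-1) 2 (-1),
  o 2 1 (-1) (-1),
  o 2 1 1 1]
/-- The exceptional elements with a representation `α = t² + qf G0 z`. -/
def exc : List (OK × OK × V) := [
  (o 3 0 (-1) 1, 0, ![0, 0, o (-1) 1 0 0, o 0 (-1) 0 0]),
  (o 3 0 0 (-1), 0, ![0, 0, o (-1) (-1) 0 1, o 1 1 0 (-1)]),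
  (o 3 0 0 1, 0, ![0, 0, o (-1) 0 0 0, 1]),
  (o 3 0 1 (-1), 0, ![0, 0, o (-3) 2 (-2) 1, o 1 (-1) 1 0]),
  (o 3 2 (-1) 0, 0, ![0, 0, o (-1) (-2) 1 1, o 1 1 (-1) (-1)]),
  (o 3 2 0 (-1), o 0 (-1) 0 0, ![0, 0, o (-4) 0 (-1) 2, o 2 1 0 (-1)]),
  (o 3 2 0 1, o 0 (-1) 0 0, ![0, 0, o (-1) 0 0 0, 0]),
  (o 3 2 1 0, 0, ![0, 0, o (-1) 1 (-1) 0, 0]),
  (o 5 (-2) (-1) 0, 0, ![0, 0, o (-1) 0 (-1) 1, 0]),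
  (o 5 (-2) (-1) 1, o (-1) 1 0 0, ![0, 0, o (-1) 1 0 0, 0]),
  (o 5 (-2) 1 (-1), o (-1) 1 0 0, ![0, 0, o (-4) 4 (-3) 1, o 1 (-2) 1 0]),
  (o 5 (-2) 1 0, 0, ![0, 0, o (-5) 3 (-3) 2, o 1 (-1) 1 (-1)]),
  (o 3 4 0 0, 0, ![0, 0, 0, o (-1) (-1) 0 0]),
  (o 5 0 (-2) 1, 0, ![0, o (-2) 0 1 0, o (-1) 1 0 0, o 0 (-1) 0 0]),
  (o 5 0 (-1) (-1), 0, ![0, o (-2) 0 1 0, o (-1) (-1) 0 1, o 1 1 0 (-1)]),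
  (o 5 0 1 1, 0, ![0, o (-1) 0 0 0, o (-1) 0 0 0, 1]),
  (o 5 0 2 (-1), 0, ![0, o (-1) 0 0 0, o (-3) 2 (-2) 1, o 1 (-1) 1 0]),
  (o 7 (-4) 0 0, 0, ![0, 0, 0, o (-1) 1 0 0]),
  (o 5 2 (-1) (-2), 0, ![0, 0, o (-4) (-1) 0 2, o 2 1 0 (-1)]),
  (o 5 2 (-1) 1, 0, ![0, o 0 (-1) 0 1, o (-1) 1 0 0, o 0 (-1) 0 0]),
  (o 5 2 1 (-1), 0, ![0, o 0 (-1) 0 1, o (-3) 2 (-2) 1, o 1 (-1) 1 0]),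
  (o 5 2 1 2, 0, ![0, 0, o (-2) 2 (-2) 1, o 1 0 1 0]),
  (o 7 (-2) (-3) 2, 0, ![0, 0, o (-2) 0 0 1, o 0 1 0 (-1)]),
  (o 7 (-2) 0 (-1), 0, ![0, o (-1) 1 1 (-1), o (-1) (-1) 0 1, o 1 1 0 (-1)]),
  (o 7 (-2) 0 1, 0, ![0, o (-1) 1 1 (-1), o (-1) 0 0 0, 1]),
  (o 7 (-2) 3 (-2), 0, ![0, 0, o (-2) 3 (-2) 0, o 1 (-2) 1 0]),
  (o 5 4 (-2) (-1), 0, ![0, o 0 (-2) 0 1, o (-1) (-2) 1 1, o 1 1 (-1) (-1)]),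
  (o 5 4 (-1) 0, 0, ![0, o (-2) 0 1 0, 0, o (-1) (-1) 0 0]),
  (o 5 4 0 (-2), 0, ![0, o (-1) 0 0 0, o 0 (-4) 2 1, o 1 3 (-1) (-1)]),
  (o 5 4 0 2, 0, ![0, o (-2) 0 1 0, o 0 (-1) 0 0, 0]),
  (o 5 4 1 0, 0, ![0, o (-1) 0 0 0, 0, o (-1) (-1) 0 0]),
  (o 5 4 2 1, 0, ![0, o 0 (-1) 0 0, o (-1) 1 (-1) 0, 0]),
  (o 7 0 (-3) 1, 0, ![0, o (-2) 2 1 (-1), o (-1) (-2) 1 1, o 1 1 (-1) (-1)]),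
  (o 7 0 (-2) (-1), 0, ![0, o 0 (-2) 0 1, o (-1) 0 (-1) 1, 0]),
  (o 7 0 2 1, 0, ![0, o 0 (-1) 0 0, o (-5) 3 (-3) 2, o 1 (-1) 1 (-1)]),
  (o 7 0 3 (-1), 0, ![0, o (-1) 1 0 0, o (-1) 1 (-1) 0, 0]),
  (o 9 (-4) (-3) 1, 0, ![0, o (-2) 2 1 (-1), o (-1) 0 (-1) 1, 0]),
  (o 9 (-4) (-2) 2, 0, ![0, o (-1) 0 0 0, o (-2) 1 0 0, 0]),
  (o 9 (-4) (-1) 0, 0, ![0, o (-2) 0 1 0, 0, o (-1) 1 0 0]),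
  (o 9 (-4) 1 0, 0, ![0, o (-1) 0 0 0, 0, o (-1) 1 0 0]),
  (o 9 (-4) 2 (-2), 0, ![0, o (-2) 0 1 0, o (-8) 4 (-4) 3, o 3 (-1) 1 (-1)]),
  (o 9 (-4) 3 (-1), 0, ![0, o (-1) 1 0 0, o (-5) 3 (-3) 2, o 1 (-1) 1 (-1)]),
  (o 5 6 (-1) (-2), 0, ![0, o 0 (-1) 0 1, o 0 (-4) 2 1, o 1 3 (-1) (-1)]),
  (o 5 6 (-1) (-1), 0, ![0, 0, o 0 (-2) 1 1, o 1 2 (-1) (-1)]),
  (o 5 6 0 (-1), 0, ![0, o 0 (-1) 0 0, o 0 (-4) 2 1, o 1 3 (-1) (-1)]),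
  (o 5 6 0 1, 0, ![0, o 0 (-2) 0 1, o 0 (-1) 0 0, 0]),
  (o 5 6 1 1, 0, ![0, 0, o (-3) (-1) 0 2, o 2 2 0 (-1)]),
  (o 5 6 1 2, 0, ![0, o 0 (-1) 0 1, o 0 (-1) 0 0, 0]),
  (o 7 2 (-1) 3, 0, ![0, 0, o (-3) 0 0 1, o 2 1 0 0]),
  (o 7 2 1 (-3), 0, ![0, 0, o (-1) 3 (-2) 0, o 1 (-1) 1 0]),
  (o 9 (-2) (-2) 3, 0, ![0, 0, o (-2) 2 (-1) 0, o 1 (-2) 0 0]),
  (o 9 (-2) 2 (-3), 0, ![0, 0, o 0 (-3) 1 1, o 1 1 0 (-1)]),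
  (o 11 (-6) (-3) 2, 0, ![0, o (-1) 1 1 (-1), o (-2) 1 0 0, 0]),
  (o 11 (-6) (-2) 1, 0, ![0, 0, o (-6) 5 (-3) 1, o 2 (-2) 1 0]),
  (o 11 (-6) (-1) 1, 0, ![0, o (-1) 1 0 0, o (-2) 1 0 0, 0]),
  (o 11 (-6) 1 (-1), 0, ![0, o (-2) 2 1 (-1), o (-8) 4 (-4) 3, o 3 (-1) 1 (-1)]),
  (o 11 (-6) 2 (-1), 0, ![0, 0, o (-4) 2 (-3) 2, o 2 (-1) 1 (-1)]),
  (o 11 (-6) 3 (-2), 0, ![0, o (-1) 1 1 (-1), o (-8) 4 (-4) 3, o 3 (-1) 1 (-1)]),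
  (o 7 4 (-1) 2, 0, ![0, o (-2) 1 1 (-1), 0, o (-1) (-1) 0 0]),
  (o 7 4 1 (-2), 0, ![0, o (-1) (-1) 0 1, 0, o (-1) (-1) 0 0]),
  (o 9 0 (-3) 3, 0, ![0, 0, o 0 0 (-1) 1, o 0 0 0 (-1)]),
  (o 9 0 0 (-3), 0, ![0, 0, o 0 (-3) 1 1, o 0 3 (-1) (-1)]),
  (o 9 0 0 3, 0, ![0, 0, o 0 0 (-1) 0, o 0 0 1 0]),
  (o 9 0 3 (-3), 0, ![0, 0, o (-3) (-1) 0 2, o 1 2 (-1) (-1)]),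
  (o 11 (-4) (-1) 2, 0, ![0, o (-2) 1 1 (-1), 0, o (-1) 1 0 0]),
  (o 11 (-4) 1 (-2), 0, ![0, o (-1) (-1) 0 1, 0, o (-1) 1 0 0]),
  (o 7 6 (-3) (-2), o 0 (-1) 0 1, ![0, 0, o (-1) (-2) 1 1, o 1 1 (-1) (-1)]),
  (o 7 6 (-2) (-1), 0, ![0, 0, o (-2) 2 (-1) 0, o 0 (-1) 1 1]),
  (o 7 6 (-1) 1, 0, ![0, o (-2) (-1) 1 0, o (-1) (-2) 1 1, o 1 1 (-1) (-1)]),
  (o 7 6 1 (-1), 0, ![0, o (-1) (-2) 0 1, o (-1) 1 (-1) 0, 0]),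
  (o 7 6 2 1, 0, ![0, 0, o (-1) 4 (-2) 0, o 0 (-2) 1 0]),
  (o 7 6 3 2, 0, ![0, o (-1) (-1) 0 0, o (-3) 2 (-2) 1, o 1 (-1) 1 0]),
  (o 13 (-6) (-5) 2, o (-1) 1 1 (-1), ![0, 0, o (-1) 0 (-1) 1, 0]),
  (o 13 (-6) (-3) 1, 0, ![0, 0, o (-2) (-1) (-1) 2, o 0 2 0 (-1)]),
  (o 13 (-6) 0 (-1), 0, ![0, o (-3) 1 1 0, o (-1) 0 (-1) 1, 0]),
  (o 13 (-6) 0 1, 0, ![0, o (-3) 2 1 (-1), o (-5) 3 (-3) 2, o 1 (-1) 1 (-1)]),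
  (o 13 (-6) 3 (-1), 0, ![0, 0, o (-2) 0 (-1) 1, o 1 0 1 (-1)]),
  (o 13 (-6) 5 (-2), 0, ![0, o (-2) 1 0 0, o (-1) 0 0 0, 1]),
  (o 7 8 (-2) (-2), 0, ![0, o 0 (-2) 0 1, o 0 (-2) 1 1, o 1 2 (-1) (-1)]),
  (o 7 8 0 (-1), 0, ![0, 0, o (-4) 0 (-1) 2, o 1 (-1) 0 (-1)]),
  (o 7 8 0 1, 0, ![0, 0, o (-1) 0 0 0, o 1 2 0 0]),
  (o 7 8 2 2, 0, ![0, o 0 (-1) 0 0, o (-3) (-1) 0 2, o 2 2 0 (-1)]),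
  (o 9 4 (-3) 1, o (-1) 1 1 0, ![o (-1) (-1) 0 0, o 0 (-2) 0 1, 0, 0]),
  (o 9 4 3 (-1), o (-1) 1 (-1) 0, ![o (-1) (-1) 0 0, o 0 (-1) 0 0, 0, 0]),
  (o 11 0 (-4) 3, 0, ![0, 0, o (-3) 1 0 1, o 1 1 0 (-1)]),
  (o 11 0 (-1) (-3), 0, ![0, 0, o (-9) 1 (-2) 4, o 4 1 0 (-2)]),
  (o 11 0 1 3, 0, ![0, 0, o (-1) 2 (-2) 1, o 1 (-1) 1 0]),
  (o 11 0 4 (-3), 0, ![0, 0, o (-6) 7 (-5) 1, o 1 (-4) 2 0]),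
  (o 13 (-4) (-2) (-1), o 0 (-1) 1 0, ![o (-2) 1 0 0, o (-2) 2 1 (-1), 0, 0]),
  (o 13 (-4) 2 1, o 0 (-1) (-1) 0, ![o (-2) 1 0 0, o (-1) 1 0 0, 0, 0]),
  (o 15 (-8) (-4) 2, 0, ![0, o (-2) 2 1 (-1), o (-6) 5 (-3) 1, o 2 (-2) 1 0]),
  (o 15 (-8) (-1) 1, 0, ![0, 0, o (-1) 1 0 0, o 2 (-1) 0 0]),
  (o 15 (-8) 1 (-1), 0, ![0, 0, o (-3) 0 0 1, o 1 1 (-1) 0]),
  (o 15 (-8) 4 (-2), 0, ![0, o (-1) 1 0 0, o (-4) 2 (-3) 2, o 2 (-1) 1 (-1)]),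
  (o 9 6 (-3) 0, 0, ![0, 0, o (-1) (-1) 1 0, o 1 1 (-1) (-1)]),
  (o 9 6 3 0, 0, ![0, 0, o (-3) 0 (-1) 1, 0]),
  (o 15 (-6) (-3) 0, 0, ![0, 0, o (-3) 3 (-1) 0, 0]),
  (o 15 (-6) 3 0, 0, ![0, 0, o (-3) 2 (-1) 1, o 1 (-1) 1 (-1)]),
  (o 9 10 (-4) (-4), 0, ![0, 0, o (-3) (-2) 1 2, o 2 3 (-1) (-2)]),
  (o 9 10 (-3) (-3), 0, ![0, 0, o 0 (-1) 1 0, o 0 0 0 1]),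
  (o 9 10 3 3, 0, ![0, 0, o 0 (-2) 1 1, o (-1) 0 (-1) (-1)]),
  (o 9 10 4 4, 0, ![0, 0, o (-3) 4 (-3) 0, o 0 (-3) 1 0]),
  (o 19 (-10) (-8) 4, 0, ![0, 0, o (-7) 2 (-1) 2, o 3 0 0 (-1)]),
  (o 19 (-10) (-6) 3, 0, ![0, 0, o (-1) (-1) 0 1, o 0 1 1 (-1)]),
  (o 19 (-10) 6 (-3), 0, ![0, 0, o (-2) 1 (-1) 1, o 0 0 (-1) 0]),
  (o 19 (-10) 8 (-4), 0, ![0, 0, o (-7) 5 (-5) 3, o 3 (-2) 2 (-1)]),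
  (o 9 12 (-3) (-4), 0, ![0, 0, o (-1) (-2) 1 1, o 1 2 (-1) (-2)]),
  (o 9 12 3 4, 0, ![0, 0, o (-1) 1 (-1) 0, o 0 (-1) 0 (-1)]),
  (o 11 8 (-4) (-1), 0, ![0, 0, o (-1) (-1) 0 1, o 1 3 0 (-1)]),
  (o 11 8 4 1, 0, ![0, 0, o (-2) 1 (-1) 1, o 1 2 0 0]),
  (o 15 0 (-5) 5, 0, ![0, 0, o (-3) 1 0 0, o 0 (-1) 0 0]),
  (o 15 0 0 (-5), 0, ![0, 0, o (-1) (-3) 2 1, o 1 1 0 (-1)]),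
  (o 15 0 0 5, 0, ![0, 0, o (-1) 2 0 0, o (-1) 0 0 0]),
  (o 15 0 5 (-5), 0, ![0, 0, o 0 (-2) 1 1, o (-1) 1 (-1) 0]),
  (o 19 (-8) (-5) 1, 0, ![0, 0, o 0 (-1) 1 0, o (-2) 1 0 0]),
  (o 19 (-8) 5 (-1), 0, ![0, 0, o (-3) 2 (-2) 1, o 3 (-1) 1 0]),
  (o 21 (-12) (-7) 4, 0, ![0, 0, o (-1) 0 (-1) 1, o 1 0 (-1) 0]),
  (o 21 (-12) 7 (-4), 0, ![0, 0, o (-5) 3 (-3) 2, o 2 (-1) 2 (-1)]),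
  (o 11 12 (-5) (-5), 0, ![0, o (-2) 0 1 0, o (-2) (-4) 1 2, o 2 4 (-1) (-2)]),
  (o 11 12 5 5, 0, ![0, o (-1) 0 0 0, o 0 (-1) 1 1, o 0 1 (-1) (-1)]),
  (o 23 (-12) (-10) 5, 0, ![0, o (-2) 0 1 0, o (-2) 1 (-3) 2, o 1 0 1 (-1)]),
  (o 23 (-12) 10 (-5), 0, ![0, o (-1) 1 0 0, o (-7) 5 (-5) 3, o 3 (-2) 2 (-1)]),
  (o 11 14 (-4) (-5), 0, ![0, o 0 (-2) 0 1, o (-1) (-2) 1 1, o 1 2 (-1) (-2)]),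
  (o 11 14 4 5, 0, ![0, o 0 (-1) 0 0, o (-1) 1 (-1) 0, o 0 (-1) 0 (-1)]),
  (o 25 (-14) (-9) 5, 0, ![0, o (-2) 2 1 (-1), o (-1) 0 (-1) 1, o 1 0 (-1) 0]),
  (o 25 (-14) 9 (-5), 0, ![0, o (-1) 1 0 0, o (-5) 3 (-3) 2, o 2 (-1) 2 (-1)]),
  (o 13 16 (-5) (-6), 0, ![0, 0, o (-2) 0 0 1, o 0 (-2) 0 0]),
  (o 13 16 5 6, 0, ![0, 0, o 0 (-1) 0 0, o 1 1 1 1]),
  (o 29 (-16) (-11) 6, 0, ![0, 0, o (-2) 1 0 0, o 1 (-1) (-1) 1]),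
  (o 29 (-16) 11 (-6), 0, ![0, 0, o (-2) 2 (-2) 1, o (-2) 0 0 0]),
  (o 15 14 (-6) (-4), 0, ![0, o 0 (-2) 0 1, o (-1) 1 0 0, o 1 0 (-1) (-1)]),
  (o 15 14 6 4, 0, ![0, 0, o (-2) 2 (-2) 0, o 0 (-3) 1 0]),
  (o 29 (-14) (-10) 4, 0, ![0, 0, o (-2) 0 (-2) 2, o 3 0 0 (-1)]),
  (o 29 (-14) 10 (-4), 0, ![0, o (-1) 1 0 0, o (-1) 0 0 0, o 0 1 (-1) 1])]

/-- The linear forms `x ↦ Tr (u² x) - Tr x` for `u` in `redUnits`. -/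
def redForms : List (ℤ × ℤ × ℤ × ℤ) := [
  (24, 12, 48, 24),
  (24, 12, -48, -24),
  (28, 44, 48, 84),
  (28, 44, -48, -84),
  (28, -16, 48, -36),
  (28, -16, -48, 36),
  (32, 56, 0, 0),
  (32, -24, 0, 0),
  (248, 404, 432, 696),
  (248, 404, -432, -696),
  (248, -156, 432, -264),
  (248, -156, -432, 264)]

/-- The squares of the elements of `subT`. -/
def subSq : List OK := [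
  1,
  o 7 (-2) (-2) 0,
  o 7 (-2) 2 0,
  o 5 2 (-2) 0,
  o 5 2 2 0,
  o 7 0 (-4) 0,
  o 7 0 4 0,
  o 11 (-6) 6 (-4),
  o 11 (-6) (-6) 4,
  o 5 6 2 4,
  o 5 6 (-2) (-4),
  o 13 (-8) 0 0,
  o 5 8 0 0,
  o 11 (-4) 4 (-4),
  o 11 (-4) (-4) 4,
  o 7 4 0 4,
  o 7 4 0 (-4),
  o 17 (-10) 6 (-4),
  o 17 (-10) (-6) 4,
  o 7 10 2 4,
  o 7 10 (-2) (-4),
  o 23 (-12) (-8) 4,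
  o 23 (-12) 8 (-4),
  o 11 12 (-4) (-4),
  o 11 12 4 4,
  o 25 (-14) (-14) 8,
  o 25 (-14) 14 (-8),
  o 11 14 (-6) (-8),
  o 11 14 6 8]

end Pool.Agent.Q5U
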