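import Pool.Agent.Q5U.Emb
import Pool.Agent.Q5U.FinData

/-!
# Covering: a totally positive vector of large reduced trace dominates the square of a unit-like element
-/

namespace Pool.Agent.Q5U

open Matrix

theorem cover_s_lo : (1.7320508 : ℝ) < √3 := by
  rw [Real.lt_sqrt (by norm_num)]; norm_num
theorem cover_s_hi : √3 < (1.7320509 : ℝ) := by
  rw [Real.sqrt_lt' (by norm_num)]; norm_num
theorem cover_w_lo : (2.2360679 : ℝ) < √5 := by
  rw [Real.lt_sqrt (by norm_num)]; norm_num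
theorem cover_w_hi : √5 < (2.2360680 : ℝ) := by
  rw [Real.sqrt_lt' (by norm_num)]; norm_num
theorem cover_y_eq : √3 * √5 = √(15 : ℝ) := by
  rw [← Real.sqrt_mul (by norm_num)]; norm_num
theorem cover_y_lo : (3.8729833 : ℝ) < √15 := by
  rw [Real.lt_sqrt (by norm_num)]; norm_num
theorem cover_y_hi : √15 < (3.8729834 : ℝ) := by
  rw [Real.sqrt_lt' (by norm_num)]; norm_num

theorem cover_sg0 (a b c d : ℤ) : sg 0 (o a b c d) =
    a + b / 2 + b / 2 * √5 + (c + d / 2) * √3 + d / 2 * √15 := by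
  simp only [sg_apply, fi0, r30, o]
  rw [← cover_y_eq]; ring
theorem cover_sg1 (a b c d : ℤ) : sg 1 (o a b c d) =
    a + b / 2 + b / 2 * √5 - (c + d / 2) * √3 - d / 2 * √15 := by
  simp only [sg_apply, fi1, r31, o]
  rw [← cover_y_eq]; ring
theorem cover_sg2 (a b c d : ℤ) : sg 2 (o a b c d) =
    a + b / 2 - b / 2 * √5 + (c + d / 2) * √3 - d / 2 * √15 := by
  simp only [sg_apply, fi2, r32, o]
  rw [← cover_y_eq]; ring
theorem cover_sg3 (a b c d : ℤ) : sg 3 (o a b c d) =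
    a + b / 2 - b / 2 * √5 - (c + d / 2) * √3 + d / 2 * √15 := by
  simp only [sg_apply, fi3, r33, o]
  rw [← cover_y_eq]; ring

theorem cover_ineq {x : Fin 4 → ℝ} (hx : ∀ i, 0 < x i)
    (hred : ∀ u ∈ redUnits, ∑ i, x i ≤ ∑ i, sg i u.1 ^ 2 * x i) (v : OK)
    (hv : ∃ u ∈ redUnits, u.1 * u.1 = v) {A B C D : ℝ} (h0 : sg 0 v ≤ A) (h1 : sg 1 v ≤ B)
    (h2 : sg 2 v ≤ C) (h3 : sg 3 v ≤ D) :
    x 0 + x 1 + x 2 + x 3 ≤ A * x 0 + B * x 1 + C * x 2 + D * x 3 := by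
  obtain ⟨u, hu, rfl⟩ := hv
  have h := hred u hu
  simp only [Fin.sum_univ_four] at h
  simp only [map_mul] at h0 h1 h2 h3
  have e0 := mul_le_mul_of_nonneg_right h0 (hx 0).le
  have e1 := mul_le_mul_of_nonneg_right h1 (hx 1).le
  have e2 := mul_le_mul_of_nonneg_right h2 (hx 2).le
  have e3 := mul_le_mul_of_nonneg_right h3 (hx 3).le
  nlinarith [h, e0, e1, e2, e3]

theorem cover_wit {x : Fin 4 → ℝ} (t v : OK) (hv : t * t = v) {A B C D : ℝ}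
    (h0 : sg 0 v ≤ A) (h1 : sg 1 v ≤ B) (h2 : sg 2 v ≤ C) (h3 : sg 3 v ≤ D)
    (k0 : A < x 0) (k1 : B < x 1) (k2 : C < x 2) (k3 : D < x 3) :
    ∀ i, sg i t ^ 2 < x i := by
  subst hv
  simp only [map_mul] at h0 h1 h2 h3
  intro i
  fin_cases i <;> simp only [Fin.zero_eta, Fin.mk_one, Fin.reduceFinMk] <;> nlinarith

theorem cover_v0 : sg 0 (o 7 0 4 0) ≤ 13.9283 ∧ sg 1 (o 7 0 4 0) ≤ 0.0719 ∧
    sg 2 (o 7 0 4 0) ≤ 13.9283 ∧ sg 3 (o 7 0 4 0) ≤ 0.0719 := by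
  rw [cover_sg0, cover_sg1, cover_sg2, cover_sg3]
  have h1 := cover_s_lo
  have h2 := cover_s_hi
  have h3 := cover_w_lo
  have h4 := cover_w_hi
  have h5 := cover_y_lo
  have h6 := cover_y_hi
  push_cast
  refine ⟨by linarith, by linarith, by linarith, by linarith⟩

theorem cover_v1 : sg 0 (o 7 0 (-4) 0) ≤ 0.0719 ∧ sg 1 (o 7 0 (-4) 0) ≤ 13.9283 ∧
    sg 2 (o 7 0 (-4) 0) ≤ 0.0719 ∧ sg 3 (o 7 0 (-4) 0) ≤ 13.9283 := by
  rw [cover_sg0, cover_sg1, cover_sg2, cover_sg3]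
  have h1 := cover_s_lo
  have h2 := cover_s_hi
  have h3 := cover_w_lo
  have h4 := cover_w_hi
  have h5 := cover_y_lo
  have h6 := cover_y_hi
  push_cast
  refine ⟨by linarith, by linarith, by linarith, by linarith⟩

theorem cover_v2 : sg 0 (o 5 6 2 4) ≤ 29.3825 ∧ sg 1 (o 5 6 2 4) ≤ 0.0341 ∧
    sg 2 (o 5 6 2 4) ≤ 0.4741 ∧ sg 3 (o 5 6 2 4) ≤ 2.1096 := by
  rw [cover_sg0, cover_sg1, cover_sg2, cover_sg3]
  have h1 := cover_s_lo
  have h2 := cover_s_hi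
  have h3 := cover_w_lo
  have h4 := cover_w_hi
  have h5 := cover_y_lo
  have h6 := cover_y_hi
  push_cast
  refine ⟨by linarith, by linarith, by linarith, by linarith⟩

theorem cover_v3 : sg 0 (o 5 6 (-2) (-4)) ≤ 0.0341 ∧ sg 1 (o 5 6 (-2) (-4)) ≤ 29.3825 ∧
    sg 2 (o 5 6 (-2) (-4)) ≤ 2.1096 ∧ sg 3 (o 5 6 (-2) (-4)) ≤ 0.4741 := by
  rw [cover_sg0, cover_sg1, cover_sg2, cover_sg3]
  have h1 := cover_s_lo
  have h2 := cover_s_hi
  have h3 := cover_w_lo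
  have h4 := cover_w_hi
  have h5 := cover_y_lo
  have h6 := cover_y_hi
  push_cast
  refine ⟨by linarith, by linarith, by linarith, by linarith⟩

theorem cover_v4 : sg 0 (o 11 (-6) 6 (-4)) ≤ 0.4741 ∧ sg 1 (o 11 (-6) 6 (-4)) ≤ 2.1096 ∧
    sg 2 (o 11 (-6) 6 (-4)) ≤ 29.3825 ∧ sg 3 (o 11 (-6) 6 (-4)) ≤ 0.0341 := by
  rw [cover_sg0, cover_sg1, cover_sg2, cover_sg3]
  have h1 := cover_s_lo
  have h2 := cover_s_hi
  have h3 := cover_w_lo
  have h4 := cover_w_hi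
  have h5 := cover_y_lo
  have h6 := cover_y_hi
  push_cast
  refine ⟨by linarith, by linarith, by linarith, by linarith⟩

theorem cover_v5 : sg 0 (o 11 (-6) (-6) 4) ≤ 2.1096 ∧ sg 1 (o 11 (-6) (-6) 4) ≤ 0.4741 ∧
    sg 2 (o 11 (-6) (-6) 4) ≤ 0.0341 ∧ sg 3 (o 11 (-6) (-6) 4) ≤ 29.3825 := by
  rw [cover_sg0, cover_sg1, cover_sg2, cover_sg3]
  have h1 := cover_s_lo
  have h2 := cover_s_hi
  have h3 := cover_w_lo
  have h4 := cover_w_hi
  have h5 := cover_y_lo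
  have h6 := cover_y_hi
  push_cast
  refine ⟨by linarith, by linarith, by linarith, by linarith⟩

theorem cover_v6 : sg 0 (o 5 8 0 0) ≤ 17.9444 ∧ sg 1 (o 5 8 0 0) ≤ 17.9444 ∧
    sg 2 (o 5 8 0 0) ≤ 0.0558 ∧ sg 3 (o 5 8 0 0) ≤ 0.0558 := by
  rw [cover_sg0, cover_sg1, cover_sg2, cover_sg3]
  have h1 := cover_s_lo
  have h2 := cover_s_hi
  have h3 := cover_w_lo
  have h4 := cover_w_hi
  have h5 := cover_y_lo
  have h6 := cover_y_hi
  push_cast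
  refine ⟨by linarith, by linarith, by linarith, by linarith⟩

theorem cover_v7 : sg 0 (o 13 (-8) 0 0) ≤ 0.0558 ∧ sg 1 (o 13 (-8) 0 0) ≤ 0.0558 ∧
    sg 2 (o 13 (-8) 0 0) ≤ 17.9444 ∧ sg 3 (o 13 (-8) 0 0) ≤ 17.9444 := by
  rw [cover_sg0, cover_sg1, cover_sg2, cover_sg3]
  have h1 := cover_s_lo
  have h2 := cover_s_hi
  have h3 := cover_w_lo
  have h4 := cover_w_hi
  have h5 := cover_y_lo
  have h6 := cover_y_hi
  push_cast
  refine ⟨by linarith, by linarith, by linarith, by linarith⟩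

theorem cover_v8 : sg 0 (o 35 56 20 32) ≤ 249.9315 ∧ sg 1 (o 35 56 20 32) ≤ 1.2884 ∧
    sg 2 (o 35 56 20 32) ≤ 0.7763 ∧ sg 3 (o 35 56 20 32) ≤ 0.0041 := by
  rw [cover_sg0, cover_sg1, cover_sg2, cover_sg3]
  have h1 := cover_s_lo
  have h2 := cover_s_hi
  have h3 := cover_w_lo
  have h4 := cover_w_hi
  have h5 := cover_y_lo
  have h6 := cover_y_hi
  push_cast
  refine ⟨by linarith, by linarith, by linarith, by linarith⟩

theorem cover_v9 : sg 0 (o 35 56 (-20) (-32)) ≤ 1.2884 ∧ sg 1 (o 35 56 (-20) (-32)) ≤ 249.9315 ∧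
    sg 2 (o 35 56 (-20) (-32)) ≤ 0.0041 ∧ sg 3 (o 35 56 (-20) (-32)) ≤ 0.7763 := by
  rw [cover_sg0, cover_sg1, cover_sg2, cover_sg3]
  have h1 := cover_s_lo
  have h2 := cover_s_hi
  have h3 := cover_w_lo
  have h4 := cover_w_hi
  have h5 := cover_y_lo
  have h6 := cover_y_hi
  push_cast
  refine ⟨by linarith, by linarith, by linarith, by linarith⟩

theorem cover_v10 : sg 0 (o 91 (-56) 52 (-32)) ≤ 0.7763 ∧ sg 1 (o 91 (-56) 52 (-32)) ≤ 0.0041 ∧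
    sg 2 (o 91 (-56) 52 (-32)) ≤ 249.9315 ∧ sg 3 (o 91 (-56) 52 (-32)) ≤ 1.2884 := by
  rw [cover_sg0, cover_sg1, cover_sg2, cover_sg3]
  have h1 := cover_s_lo
  have h2 := cover_s_hi
  have h3 := cover_w_lo
  have h4 := cover_w_hi
  have h5 := cover_y_lo
  have h6 := cover_y_hi
  push_cast
  refine ⟨by linarith, by linarith, by linarith, by linarith⟩

theorem cover_v11 : sg 0 (o 91 (-56) (-52) 32) ≤ 0.0041 ∧ sg 1 (o 91 (-56) (-52) 32) ≤ 0.7763 ∧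
    sg 2 (o 91 (-56) (-52) 32) ≤ 1.2884 ∧ sg 3 (o 91 (-56) (-52) 32) ≤ 249.9315 := by
  rw [cover_sg0, cover_sg1, cover_sg2, cover_sg3]
  have h1 := cover_s_lo
  have h2 := cover_s_hi
  have h3 := cover_w_lo
  have h4 := cover_w_hi
  have h5 := cover_y_lo
  have h6 := cover_y_hi
  push_cast
  refine ⟨by linarith, by linarith, by linarith, by linarith⟩

theorem cover_v12 : sg 0 (o 25 (-14) (-14) 8) ≤ 0.5190 ∧ sg 1 (o 25 (-14) (-14) 8) ≤ 4.1762 ∧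
    sg 2 (o 25 (-14) (-14) 8) ≤ 0.8401 ∧ sg 3 (o 25 (-14) (-14) 8) ≤ 66.4650 := by
  rw [cover_sg0, cover_sg1, cover_sg2, cover_sg3]
  have h1 := cover_s_lo
  have h2 := cover_s_hi
  have h3 := cover_w_lo
  have h4 := cover_w_hi
  have h5 := cover_y_lo
  have h6 := cover_y_hi
  push_cast
  refine ⟨by linarith, by linarith, by linarith, by linarith⟩

theorem cover_v13 : sg 0 (o 31 (-18) (-14) 8) ≤ 0.0469 ∧ sg 1 (o 31 (-18) (-14) 8) ≤ 3.7040 ∧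
    sg 2 (o 31 (-18) (-14) 8) ≤ 9.3123 ∧ sg 3 (o 31 (-18) (-14) 8) ≤ 74.9371 := by
  rw [cover_sg0, cover_sg1, cover_sg2, cover_sg3]
  have h1 := cover_s_lo
  have h2 := cover_s_hi
  have h3 := cover_w_lo
  have h4 := cover_w_hi
  have h5 := cover_y_lo
  have h6 := cover_y_hi
  push_cast
  refine ⟨by linarith, by linarith, by linarith, by linarith⟩

theorem cover_lp {p q r s : ℝ} (hp : 0 < p) (hq : 0 < q) (hr : 0 < r) (hs : 0 < s) (h0 : p ≤ 1)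
    (H0 : p + q + r + s ≤ 13.9283 * p + 0.0719 * q + 13.9283 * r + 0.0719 * s)
    (H1 : p + q + r + s ≤ 0.0719 * p + 13.9283 * q + 0.0719 * r + 13.9283 * s)
    (H2 : p + q + r + s ≤ 29.3825 * p + 0.0341 * q + 0.4741 * r + 2.1096 * s)
    (H3 : p + q + r + s ≤ 0.0341 * p + 29.3825 * q + 2.1096 * r + 0.4741 * s)
    (H4 : p + q + r + s ≤ 0.4741 * p + 2.1096 * q + 29.3825 * r + 0.0341 * s)
    (H5 : p + q + r + s ≤ 2.1096 * p + 0.4741 * q + 0.0341 * r + 29.3825 * s)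
    (H6 : p + q + r + s ≤ 17.9444 * p + 17.9444 * q + 0.0558 * r + 0.0558 * s)
    (H7 : p + q + r + s ≤ 0.0558 * p + 0.0558 * q + 17.9444 * r + 17.9444 * s)
    (H8 : p + q + r + s ≤ 249.9315 * p + 1.2884 * q + 0.7763 * r + 0.0041 * s)
    (H9 : p + q + r + s ≤ 1.2884 * p + 249.9315 * q + 0.0041 * r + 0.7763 * s)
    (H10 : p + q + r + s ≤ 0.7763 * p + 0.0041 * q + 249.9315 * r + 1.2884 * s)
    (H11 : p + q + r + s ≤ 0.0041 * p + 0.7763 * q + 1.2884 * r + 249.9315 * s)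
    (hbig : 150 < p + q + r + s) :
    (0.0341 < p ∧ 29.3825 < q ∧ 2.1096 < r ∧ 0.4741 < s) ∨
    (0.0558 < p ∧ 0.0558 < q ∧ 17.9444 < r ∧ 17.9444 < s) ∨
    (0.5190 < p ∧ 4.1762 < q ∧ 0.8401 < r ∧ 66.4650 < s) ∨
    (0.0719 < p ∧ 13.9283 < q ∧ 0.0719 < r ∧ 13.9283 < s) ∨
    (0.0469 < p ∧ 3.7040 < q ∧ 9.3123 < r ∧ 74.9371 < s) := by
  rcases le_or_gt p (0.0341 : ℝ) with g1 | g1
  · exfalso; linarith
  rcases le_or_gt q (29.3825 : ℝ) with g2 | g2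
  ·
    rcases le_or_gt p (0.0558 : ℝ) with g3 | g3
    · exfalso; linarith
    rcases le_or_gt q (0.0558 : ℝ) with g4 | g4
    · exfalso; linarith
    rcases le_or_gt r (17.9444 : ℝ) with g5 | g5
    ·
      rcases le_or_gt p (0.5190 : ℝ) with g6 | g6
      ·
        rcases le_or_gt p (0.0719 : ℝ) with g7 | g7
        · exfalso; linarith
        rcases le_or_gt q (13.9283 : ℝ) with g8 | g8
        ·
          rcases le_or_gt p (0.0469 : ℝ) with g9 | g9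
          · exfalso; linarith
          rcases le_or_gt q (3.7040 : ℝ) with g10 | g10
          · exfalso; linarith
          rcases le_or_gt r (9.3123 : ℝ) with g11 | g11
          · exfalso; linarith
          rcases le_or_gt s (74.9371 : ℝ) with g12 | g12
          · exfalso; linarith
          exact Or.inr (Or.inr (Or.inr (Or.inr (⟨g9, g10, g11, g12⟩))))
        rcases le_or_gt r (0.0719 : ℝ) with g13 | g13
        · exfalso; linarith
        rcases le_or_gt s (13.9283 : ℝ) with g14 | g14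
        · exfalso; linarith
        exact Or.inr (Or.inr (Or.inr (Or.inl ⟨g7, g8, g13, g14⟩)))
      rcases le_or_gt q (4.1762 : ℝ) with g15 | g15
      · exfalso; linarith
      rcases le_or_gt r (0.8401 : ℝ) with g16 | g16
      · exfalso; linarith
      rcases le_or_gt s (66.4650 : ℝ) with g17 | g17
      · exfalso; linarith
      exact Or.inr (Or.inr (Or.inl ⟨g6, g15, g16, g17⟩))
    rcases le_or_gt s (17.9444 : ℝ) with g18 | g18
    · exfalso; linarith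
    exact Or.inr (Or.inl ⟨g3, g4, g5, g18⟩)
  rcases le_or_gt r (2.1096 : ℝ) with g19 | g19
  · exfalso; linarith
  rcases le_or_gt s (0.4741 : ℝ) with g20 | g20
  · exfalso; linarith
  exact Or.inl ⟨g1, g2, g19, g20⟩

theorem cover {x : Fin 4 → ℝ} (hx : ∀ i, 0 < x i) (h0 : x 0 ≤ 1)
    (hred : ∀ u ∈ redUnits, ∑ i, x i ≤ ∑ i, sg i u.1 ^ 2 * x i) (hbig : 150 < ∑ i, x i) :
    ∃ t : OK, cl t = 1 ∧ ∀ i, sg i t ^ 2 < x i := by
  rw [Fin.sum_univ_four] at hbig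
  have H0 := cover_ineq hx hred (o 7 0 4 0) (by decide) cover_v0.1 cover_v0.2.1 cover_v0.2.2.1 cover_v0.2.2.2
  have H1 := cover_ineq hx hred (o 7 0 (-4) 0) (by decide) cover_v1.1 cover_v1.2.1 cover_v1.2.2.1 cover_v1.2.2.2
  have H2 := cover_ineq hx hred (o 5 6 2 4) (by decide) cover_v2.1 cover_v2.2.1 cover_v2.2.2.1 cover_v2.2.2.2
  have H3 := cover_ineq hx hred (o 5 6 (-2) (-4)) (by decide) cover_v3.1 cover_v3.2.1 cover_v3.2.2.1 cover_v3.2.2.2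
  have H4 := cover_ineq hx hred (o 11 (-6) 6 (-4)) (by decide) cover_v4.1 cover_v4.2.1 cover_v4.2.2.1 cover_v4.2.2.2
  have H5 := cover_ineq hx hred (o 11 (-6) (-6) 4) (by decide) cover_v5.1 cover_v5.2.1 cover_v5.2.2.1 cover_v5.2.2.2
  have H6 := cover_ineq hx hred (o 5 8 0 0) (by decide) cover_v6.1 cover_v6.2.1 cover_v6.2.2.1 cover_v6.2.2.2
  have H7 := cover_ineq hx hred (o 13 (-8) 0 0) (by decide) cover_v7.1 cover_v7.2.1 cover_v7.2.2.1 cover_v7.2.2.2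
  have H8 := cover_ineq hx hred (o 35 56 20 32) (by decide) cover_v8.1 cover_v8.2.1 cover_v8.2.2.1 cover_v8.2.2.2
  have H9 := cover_ineq hx hred (o 35 56 (-20) (-32)) (by decide) cover_v9.1 cover_v9.2.1 cover_v9.2.2.1 cover_v9.2.2.2
  have H10 := cover_ineq hx hred (o 91 (-56) 52 (-32)) (by decide) cover_v10.1 cover_v10.2.1 cover_v10.2.2.1 cover_v10.2.2.2
  have H11 := cover_ineq hx hred (o 91 (-56) (-52) 32) (by decide) cover_v11.1 cover_v11.2.1 cover_v11.2.2.1 cover_v11.2.2.2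
  rcases cover_lp (hx 0) (hx 1) (hx 2) (hx 3) h0 H0 H1 H2 H3 H4 H5 H6 H7 H8 H9 H10 H11 hbig with
    ⟨a, b, c, d⟩ | ⟨a, b, c, d⟩ | ⟨a, b, c, d⟩ | ⟨a, b, c, d⟩ | ⟨a, b, c, d⟩
  · exact ⟨(o (-1) (-1) 0 1), by decide, cover_wit _ (o 5 6 (-2) (-4)) (by decide) cover_v3.1 cover_v3.2.1 cover_v3.2.2.1 cover_v3.2.2.2 a b c d⟩
  · exact ⟨(o (-3) 2 0 0), by decide, cover_wit _ (o 13 (-8) 0 0) (by decide) cover_v7.1 cover_v7.2.1 cover_v7.2.2.1 cover_v7.2.2.2 a b c d⟩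
  · exact ⟨(o 3 (-1) (-2) 1), by decide, cover_wit _ (o 25 (-14) (-14) 8) (by decide) cover_v12.1 cover_v12.2.1 cover_v12.2.2.1 cover_v12.2.2.2 a b c d⟩
  · exact ⟨(o (-2) 0 1 0), by decide, cover_wit _ (o 7 0 (-4) 0) (by decide) cover_v1.1 cover_v1.2.1 cover_v1.2.2.1 cover_v1.2.2.2 a b c d⟩
  · exact ⟨(o 4 (-3) (-1) 1), by decide, cover_wit _ (o 31 (-18) (-14) 8) (by decide) cover_v13.1 cover_v13.2.1 cover_v13.2.2.1 cover_v13.2.2.2 a b c d⟩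

end Pool.Agent.Q5U
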