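import Pool.Agent.Q5U.Ring

/-!
# Basic definitions: vectors, matrices, quadratic forms and the residue field modulo `π = 1 + √3`
-/

namespace Pool.Agent.Q5U

open Matrix

/-- The element with the given coordinates. -/
def o (a b c d : ℤ) : OK := ⟨a, b, c, d⟩

abbrev V := Fin 4 → OK
abbrev M4 := Matrix (Fin 4) (Fin 4) OK

/-- The value of the quadratic form with Gram matrix `G` (classical convention). -/
def qf (G : M4) (x : V) : OK := x ⬝ᵥ G *ᵥ x

/-- `π = 1 + √3`, a generator of the prime above `2`. -/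
def ppi : OK := o 1 0 1 0
/-- `π² = 4 + 2 √3`. -/
def ppi2 : OK := o 4 0 2 0
/-- `ε = 2 - √3`, a totally positive unit which is not a square. -/
def eps : OK := o 2 0 (-1) 0
/-- `φ = (1 + √5) / 2`. -/
def phi : OK := o 0 1 0 0

/-- Residue class modulo `π`, coded as `0, 1, 2, 3` (`2` is the class of `φ`). -/
def cl (x : OK) : ℕ := ((x.a + x.c) % 2).toNat + 2 * ((x.b + x.d) % 2).toNat

/-- Multiplication table of the residue field with four elements. -/
def m4 (s t : ℕ) : ℕ :=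
  match s, t with
  | 1, t => t
  | 2, 1 => 2
  | 2, 2 => 3
  | 2, 3 => 1
  | 3, 1 => 3
  | 3, 2 => 1
  | 3, 3 => 2
  | _, _ => 0

/-- Canonical lift of a residue class modulo `π`. -/
def lift (r : ℕ) : OK := ⟨(r % 2 : ℕ), (r / 2 % 2 : ℕ), 0, 0⟩

/-- Residue class of a vector modulo `π`, two bits per coordinate. -/
def clv (x : V) : ℕ := cl (x 0) + 4 * cl (x 1) + 16 * cl (x 2) + 64 * cl (x 3)

/-- The `k`-th two-bit digit. -/
def dig (r k : ℕ) : ℕ := r / 4 ^ k % 4

/-- Canonical lift of a residue class of vectors. -/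
def liftv (r : ℕ) : V := fun k => lift (dig r k)

/-- Scalar times vector on codes. -/
def scv (s w : ℕ) : ℕ :=
  m4 s (dig w 0) + 4 * m4 s (dig w 1) + 16 * m4 s (dig w 2) + 64 * m4 s (dig w 3)

/-- Dot product on codes. -/
def dotv (b z : ℕ) : ℕ :=
  m4 (dig b 0) (dig z 0) ^^^ m4 (dig b 1) (dig z 1) ^^^ m4 (dig b 2) (dig z 2)
    ^^^ m4 (dig b 3) (dig z 3)

/-- Division by `π` (correct when `π` divides `x`): multiplication by `(√3 - 1) / 2`. -/
def divpi (x : OK) : OK :=
  ⟨(3 * x.c - x.a) / 2, (3 * x.d - x.b) / 2, (x.a - x.c) / 2, (x.b - x.d) / 2⟩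

/-- Positivity test for `m + n φ` at both embeddings. -/
def zpos (m n : ℤ) : Bool := decide (0 < 2 * m + n) && decide (0 < m * m + m * n - n * n)

/-- Relative norm to `ℤ[φ]`: the element `r₁ + r₂ φ` with `r = (a + b φ)² - 3 (c + d φ)²`. -/
def rel1 (x : OK) : ℤ := x.a * x.a + x.b * x.b - 3 * (x.c * x.c + x.d * x.d)
def rel2 (x : OK) : ℤ := 2 * (x.a * x.b) + x.b * x.b - 3 * (2 * (x.c * x.d) + x.d * x.d)

/-- Test for total positivity. -/
def tpb (x : OK) : Bool := zpos x.a x.b && zpos (rel1 x) (rel2 x)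

/-- Norm to `ℤ`. -/
def nm (x : OK) : ℤ := rel1 x * rel1 x + rel1 x * rel2 x - rel2 x * rel2 x

/-- Trace to `ℤ`. -/
def trc (x : OK) : ℤ := 4 * x.a + 2 * x.b

end Pool.Agent.Q5U
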