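import Pool.Agent.Q5U.WalkData

/-!
# Data: orthogonal frame, trace form and similitudes of the lattice `E`
-/

namespace Pool.Agent.Q5U

/-- `ε⁻¹ = 2 + √3`. -/
def eps1 : OK := o 2 0 1 0
/-- A totally positive generator of the prime above `2` (norm `4`). -/
def rho : OK := o 2 1 0 1
/-- A totally positive generator of the prime above `3` (norm `9`). -/
def theta : OK := o 3 0 0 1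
/-- Norm `4` element of the frame. -/
def nn : OK := o 3 (-1) (-1) 1
/-- Totally positive generator of the different. -/
def gg : OK := o 12 6 2 6
/-- The trace form `x ↦ Tr (x / gg)`. -/
def ell (x : OK) : ℤ := 1 * x.a + 1 * x.b + (-1) * x.c + (-2) * x.d
/-- Frame coordinates: `CC * diag(2, 2 ε⁻¹, 2 n, 2 ε⁻¹ n) * CCᵀ = (2 π)² GE`. -/
def CC : M4 :=
  !![o (-2) 0 (-2) 0, 0, 0, 0; o 0 (-1) 0 (-1), 0, o (-2) 1 (-1) 1, 1; 0, o (-2) 0 (-2) 0, 0, 0; o (-1) 0 (-1) 0, o (-1) (-1) (-1) 1, o (-2) 0 (-1) 0, 1]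
def frameDiag : M4 := Matrix.diagonal ![o 2 0 0 0, o 2 0 0 0 * eps1, o 2 0 0 0 * nn, o 2 0 0 0 * (eps1 * nn)]
/-- Similitude with factor `ε⁻¹`. -/
def simEps : M4 :=
  !![o (-5) 3 (-3) 2, o (-5) 3 (-3) 2, o (-3) 3 (-3) 1, o 7 (-4) 4 (-3); 0, 0, o (-1) 0 0 0, 0; 0, o 2 0 1 0, 0, 0; o (-3) 3 (-2) 2, o (-3) 1 (-2) 1, o (-3) 2 (-2) 1, o 5 (-3) 3 (-2)]
/-- Similitudes with factor `rho`. -/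
def simRho : List M4 := [
  !![o 0 (-1) 0 0, 0, o 2 0 (-1) 0, o 0 1 0 0; o (-2) 0 0 0, o (-1) 1 0 0, o (-1) 2 0 (-1), o 2 0 0 0; o 0 (-2) 0 (-1), o 1 0 1 0, o 1 1 0 (-1), o (-1) 1 (-1) 0; 0, o (-1) 0 0 (-1), o (-2) (-2) 1 1, o 0 (-1) 0 1],
  !![o (-1) 0 0 0, o 0 1 0 0, o (-1) 0 0 0, o 1 (-1) 0 0; o 0 (-1) 0 0, 1, o 2 (-1) (-1) 0, o (-1) 1 0 0; o 1 0 1 0, o 0 (-2) 0 (-1), o 1 1 0 (-1), o (-1) 1 (-1) 0; o 0 (-1) 0 (-1), o 2 0 0 0, o (-1) (-4) 1 2, o (-2) (-1) 0 1],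
  !![o (-1) 0 0 0, o (-1) 1 0 0, o (-1) 0 0 0, o 1 (-1) 0 0; 0, 0, o (-2) 0 1 0, o 0 (-1) 0 0; o 1 0 1 0, o 1 0 1 0, o 1 1 0 (-1), o (-1) 1 (-1) 0; o 0 2 1 0, o (-1) 0 0 (-1), o (-4) (-2) 2 1, o 0 (-2) 0 1],
  !![o 0 (-1) 0 0, 0, o 0 1 0 (-1), o 0 1 0 0; o (-1) 0 0 0, o (-1) 0 0 0, o (-1) 2 0 (-1), o 2 0 0 0; o 1 0 1 0, o 0 (-2) 0 (-1), o 1 1 0 (-1), o (-1) 1 (-1) 0; o 0 (-1) 0 (-1), 1, o (-3) (-2) 2 1, o (-1) (-1) 0 1],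
  !![o 0 (-1) 0 0, 0, o 0 1 0 (-1), o 0 1 0 0; o 0 (-1) 0 0, 1, o 2 (-1) (-1) 0, o (-1) 1 0 0; o 1 0 1 0, o 0 (-2) 0 (-1), o 1 1 0 (-1), o (-1) 1 (-1) 0; o 1 1 1 0, o 0 (-1) 0 (-1), o (-1) (-3) 1 1, o (-2) 0 0 1]]
/-- Similitudes with factor `theta`. -/
def simTheta : List M4 := [
  !![o (-1) 0 (-1) 0, o 0 1 (-1) 1, o (-2) (-1) 0 1, o 1 (-1) 1 0; o 3 (-2) 1 (-1), o 3 (-1) 2 (-1), o 1 (-3) 2 0, o (-4) 2 (-2) 2; o (-2) 0 (-1) 0, o 0 2 0 1, o (-1) 1 (-1) 1, o 2 (-2) 1 (-1); o 0 (-1) 0 (-1), o 1 0 1 0, o (-1) 0 1 0, o 0 0 (-1) 1],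
  !![o (-3) 1 (-1) 0, o (-2) 2 (-1) 1, o (-2) 1 (-1) 1, o 3 (-2) 2 (-1); o 2 (-2) 1 (-1), o 2 (-1) 2 (-1), o 2 0 1 (-1), o (-3) 2 (-2) 1; o 2 0 1 0, o 0 (-2) 0 (-1), o 2 (-1) 0 0, o (-2) 2 (-1) 1; o 0 (-1) 1 (-1), o 0 0 1 (-1), o 1 (-1) 0 0, o (-1) 1 (-1) 1],
  !![o (-3) 1 (-1) 0, o (-2) 2 (-1) 1, o (-2) 0 (-1) 1, o 3 (-2) 2 (-1); o (-1) 0 (-1) 0, o (-1) 1 0 0, o (-2) (-1) 0 1, o 1 (-1) 1 0; o 2 0 1 0, o 2 (-2) 1 (-1), o 1 (-1) 1 (-1), o (-2) 2 (-1) 1; o (-1) 1 (-1) 1, o (-1) 0 (-1) 0, o (-1) (-1) (-1) 1, o 1 (-1) 2 (-1)],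
  !![o (-1) 1 0 0, o (-1) 1 0 0, o (-2) (-1) 0 1, o 1 (-1) 1 0; o 3 (-2) 1 (-1), o 3 (-1) 2 (-1), o 1 (-3) 2 0, o (-4) 2 (-2) 2; o (-2) 0 (-1) 0, o 0 2 0 1, o (-2) 1 0 0, o 2 (-2) 1 (-1); 1, o 1 0 1 0, o (-1) 0 1 0, o (-1) 0 0 0],
  !![o (-3) 1 (-1) 0, o (-2) 2 (-1) 1, o (-2) 0 (-1) 1, o 3 (-2) 2 (-1); o (-1) 0 (-1) 0, o (-1) 1 0 0, o (-2) (-1) 0 1, o 1 (-1) 1 0; o 2 (-2) 1 (-1), o 2 0 1 0, o 2 (-1) 0 0, o (-2) 2 (-1) 1; o (-1) 1 0 0, o (-2) 1 0 0, o (-1) (-1) (-1) 1, o 2 (-1) 1 0],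
  !![o (-1) 1 0 0, 0, o (-2) 1 1 0, o 1 (-1) 0 0; 0, 0, 1, o (-1) 1 0 0; o (-2) 2 (-1) 1, o (-3) 0 (-2) 0, o (-1) 0 (-1) 1, o 3 (-2) 2 (-1); o (-2) 0 (-1) 0, o 0 0 (-1) 1, o 1 1 (-1) 0, o 1 0 1 (-1)],
  !![o (-1) 0 0 0, 0, o 0 1 0 (-1), o 0 1 0 0; o 1 (-1) 0 0, 0, o 2 (-1) (-1) 0, o (-1) 1 0 0; o (-2) 2 (-1) 1, o (-3) 0 (-2) 0, o (-1) 0 (-1) 1, o 3 (-2) 2 (-1); o (-1) (-1) (-1) 0, o 0 0 (-1) 1, o 3 0 (-2) 0, o 0 1 1 (-1)],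
  !![o (-1) 0 0 0, 0, o (-1) 2 0 (-1), o 2 0 0 0; o (-1) 0 0 0, 0, o 2 0 (-1) 0, o 0 1 0 0; o 2 (-2) 1 (-1), o 3 0 2 0, o 3 (-1) 1 (-1), o (-3) 2 (-2) 1; o 0 1 1 0, o 0 0 1 (-1), o 0 (-1) 1 0, o 0 0 (-1) 1],
  !![0, 0, o (-1) 0 0 0, o 1 (-1) 0 0; o (-1) 1 0 0, 0, o (-2) 0 1 0, o 0 (-1) 0 0; o (-2) 2 (-1) 1, o (-3) 0 (-2) 0, o (-1) 0 (-1) 1, o 3 (-2) 2 (-1); o (-2) 0 (-1) 0, o 0 0 (-1) 1, o 0 1 (-1) 0, o 2 (-1) 1 (-1)],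
  !![o (-1) 1 0 0, 0, o (-2) 0 1 0, o 0 (-1) 0 0; 0, 0, o (-1) 0 0 0, o 1 (-1) 0 0; o 2 (-2) 1 (-1), o 3 0 2 0, o 1 0 1 (-1), o (-3) 2 (-2) 1; o 1 (-2) 0 (-1), o 3 0 1 0, o (-2) (-1) 2 0, o (-2) 0 (-1) 1]]
/-- The fourteen totally positive `δ` with `ell δ = 1`: entries `(δ, N, c, u, v)` with
`δ = base * ε⁻ᶜ * u²`, `base = 1, rho, theta` for `N = 1, 4, 9`, and `u * v = 1`. -/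
def deltas : List (OK × ℕ × ℕ × OK × OK) := [
  (o 2 (-1) 0 0, 1, 0, o (-1) 1 0 0, o 0 1 0 0),
  (1, 1, 0, o (-1) 0 0 0, o (-1) 0 0 0),
  (o 2 0 1 0, 1, 1, o (-1) 0 0 0, o (-1) 0 0 0),
  (o 2 2 1 1, 1, 1, o 0 (-1) 0 0, o 1 (-1) 0 0),
  (o 4 0 (-1) 2, 1, 1, o (-2) 1 1 (-1), o 2 (-1) 1 (-1)),
  (o 4 1 0 2, 1, 0, o 0 (-1) (-1) 0, o 1 2 (-1) (-1)),
  (o 4 4 1 3, 1, 1, o (-1) 1 1 0, o 3 (-2) 2 (-1)),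
  (o 5 6 2 4, 1, 0, o (-1) (-1) 0 (-1), o 1 1 0 (-1)),
  (o 3 (-1) (-1) 1, 4, 0, o (-1) 1 0 0, o 0 1 0 0),
  (o 2 1 0 1, 4, 0, o (-1) 0 0 0, o (-1) 0 0 0),
  (o 3 1 1 1, 4, 1, o (-1) 1 0 0, o 0 1 0 0),
  (o 4 5 2 3, 4, 1, o (-1) 0 0 0, o (-1) 0 0 0),
  (o 3 0 0 1, 9, 0, o (-1) 0 0 0, o (-1) 0 0 0),
  (o 3 3 1 2, 9, 0, o 0 (-1) 0 0, o 1 (-1) 0 0)]

end Pool.Agent.Q5U
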