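import Pool.Agent.Q5U.Emb
import Pool.Agent.Q5U.EData

/-!
# The trace form `ell` and the totally positive elements with `ell δ = 1`
-/

namespace Pool.Agent.Q5U

open Matrix

/-- `gg * delta_h = 30`. -/
def delta_h : OK := o 6 3 (-1) (-3)

theorem delta_gg_h : gg * delta_h = 30 := by decide

theorem delta_gg_TP : TP gg := (tpb_iff gg).1 (by decide)

theorem delta_sg_h (i : Fin 4) : sg i gg * sg i delta_h = 30 := by
  rw [← map_mul, delta_gg_h]
  exact map_ofNat (sg i) 30

theorem delta_trc (x : OK) : trc (x * delta_h) = 30 * ell x := by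
  simp only [trc, ell, delta_h, o, OK.mul_a, OK.mul_b]
  ring

theorem ell_eq (x : OK) : (ell x : ℝ) = ∑ i, sg i x / sg i gg := by
  have h1 : ∀ i, sg i x / sg i gg = sg i (x * delta_h) / 30 := by
    intro i
    have hg : sg i gg ≠ 0 := (delta_gg_TP i).ne'
    rw [map_mul, div_eq_div_iff hg (by norm_num)]
    have := delta_sg_h i
    linear_combination (-(sg i x)) * this
  simp only [h1]
  rw [← Finset.sum_div, ← trc_eq, delta_trc]
  push_cast
  ring

/-- Finite check. -/
def deltaRow (b c d : ℤ) : Bool :=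
  let x := o (1 - b + c + 2 * d) b c d
  (!tpb x) || deltas.any (fun e => decide (e.1 = x))

theorem delta_check : ∀ b : Fin 15, ∀ c : Fin 15, ∀ d : Fin 9,
    deltaRow ((b : ℕ) - 4) ((c : ℕ) - 6) ((d : ℕ) - 1) = true := by
  decide +kernel

theorem delta_mem {δ : OK} (h : TP δ) (h1 : ell δ = 1) : ∃ e ∈ deltas, e.1 = δ := by
  have hsum : ∑ i, sg i δ / sg i gg = 1 := by
    rw [← ell_eq, h1]; norm_num
  have hpos : ∀ i, 0 < sg i δ / sg i gg := fun i => div_pos (h i) (delta_gg_TP i)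
  have hlt : ∀ i, sg i δ < sg i gg := by
    intro i
    have h2 : sg i δ / sg i gg < 1 := by
      rw [← hsum]
      rw [Fin.sum_univ_four]
      have p0 := hpos 0
      have p1 := hpos 1
      have p2 := hpos 2
      have p3 := hpos 3
      fin_cases i <;> simp only [Fin.zero_eta, Fin.mk_one, Fin.reduceFinMk] <;> linarith
    rwa [div_lt_one (delta_gg_TP i)] at h2
  have q0 := h 0
  have q1 := h 1
  have q2 := h 2
  have q3 := h 3
  have l0 := hlt 0
  have l1 := hlt 1
  have l2 := hlt 2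
  have l3 := hlt 3
  obtain ⟨a, b, c, d⟩ := δ
  simp only [ell] at h1
  simp only [sg_apply, fi0, fi1, fi2, fi3, r30, r31, r32, r33, gg, o] at q0 q1 q2 q3 l0 l1 l2 l3
  push_cast at q0 q1 q2 q3 l0 l1 l2 l3
  have hs := sqrt3_sq
  have hw := sqrt5_sq
  have s1 : (1.732 : ℝ) < √3 := by
    rw [Real.lt_sqrt (by norm_num)]; norm_num
  have s2 : √3 < (1.7321 : ℝ) := by
    rw [Real.sqrt_lt' (by norm_num)]; norm_num
  have w1 : (2.236 : ℝ) < √5 := by
    rw [Real.lt_sqrt (by norm_num)]; norm_num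
  have w2 : √5 < (2.2361 : ℝ) := by
    rw [Real.sqrt_lt' (by norm_num)]; norm_num
  set s : ℝ := √3 with hsdef
  set w : ℝ := √5 with hwdef
  have y1 : (3.872 : ℝ) < s * w := by nlinarith
  have y2 : s * w < (3.874 : ℝ) := by nlinarith
  set y : ℝ := s * w with hy
  have b1 : (b : ℝ) * w < 22 := by
    have e1 : 2 * ((b : ℝ) * w) = ((a + b * ((1 + w) / 2) + (c + d * ((1 + w) / 2)) * s) +
      (a + b * ((1 + w) / 2) + (c + d * ((1 + w) / 2)) * -s)) -
      ((a + b * ((1 - w) / 2) + (c + d * ((1 - w) / 2)) * s) +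
      (a + b * ((1 - w) / 2) + (c + d * ((1 - w) / 2)) * -s)) := by ring
    linarith
  have b2 : -10 < (b : ℝ) * w := by
    have e1 : 2 * ((b : ℝ) * w) = ((a + b * ((1 + w) / 2) + (c + d * ((1 + w) / 2)) * s) +
      (a + b * ((1 + w) / 2) + (c + d * ((1 + w) / 2)) * -s)) -
      ((a + b * ((1 - w) / 2) + (c + d * ((1 - w) / 2)) * s) +
      (a + b * ((1 - w) / 2) + (c + d * ((1 - w) / 2)) * -s)) := by ring
    linarith
  have d1 : (d : ℝ) * y < 27 := by
    have e1 : 2 * ((d : ℝ) * y) = ((a + b * ((1 + w) / 2) + (c + d * ((1 + w) / 2)) * s) -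
      (a + b * ((1 + w) / 2) + (c + d * ((1 + w) / 2)) * -s)) -
      ((a + b * ((1 - w) / 2) + (c + d * ((1 - w) / 2)) * s) -
      (a + b * ((1 - w) / 2) + (c + d * ((1 - w) / 2)) * -s)) := by rw [hy]; ring
    have e2 : s * w = y := hy.symm
    nlinarith
  have d2 : -3.6 < (d : ℝ) * y := by
    have e1 : 2 * ((d : ℝ) * y) = ((a + b * ((1 + w) / 2) + (c + d * ((1 + w) / 2)) * s) -
      (a + b * ((1 + w) / 2) + (c + d * ((1 + w) / 2)) * -s)) -
      ((a + b * ((1 - w) / 2) + (c + d * ((1 - w) / 2)) * s) -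
      (a + b * ((1 - w) / 2) + (c + d * ((1 - w) / 2)) * -s)) := by rw [hy]; ring
    have e2 : s * w = y := hy.symm
    nlinarith
  have c1 : (2 * (c : ℝ) + d) * s < 24 := by
    have e1 : 2 * ((2 * (c : ℝ) + d) * s) = ((a + b * ((1 + w) / 2) + (c + d * ((1 + w) / 2)) * s) -
      (a + b * ((1 + w) / 2) + (c + d * ((1 + w) / 2)) * -s)) +
      ((a + b * ((1 - w) / 2) + (c + d * ((1 - w) / 2)) * s) -
      (a + b * ((1 - w) / 2) + (c + d * ((1 - w) / 2)) * -s)) := by ring
    have e2 : s * w = y := hy.symm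
    nlinarith
  have c2 : -6.6 < (2 * (c : ℝ) + d) * s := by
    have e1 : 2 * ((2 * (c : ℝ) + d) * s) = ((a + b * ((1 + w) / 2) + (c + d * ((1 + w) / 2)) * s) -
      (a + b * ((1 + w) / 2) + (c + d * ((1 + w) / 2)) * -s)) +
      ((a + b * ((1 - w) / 2) + (c + d * ((1 - w) / 2)) * s) -
      (a + b * ((1 - w) / 2) + (c + d * ((1 - w) / 2)) * -s)) := by ring
    have e2 : s * w = y := hy.symm
    nlinarith
  have B1 : b < 10 := by
    have : (b : ℝ) < 10 := by
      by_contra hc
      push Not at hc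
      nlinarith
    exact_mod_cast this
  have B2 : -5 < b := by
    have : (-5 : ℝ) < b := by
      by_contra hc
      push Not at hc
      nlinarith
    exact_mod_cast this
  have D1 : d < 7 := by
    have : (d : ℝ) < 7 := by
      by_contra hc
      push Not at hc
      nlinarith
    exact_mod_cast this
  have D2 : -1 < d := by
    have : (-1 : ℝ) < d := by
      by_contra hc
      push Not at hc
      nlinarith
    exact_mod_cast this
  have C1 : 2 * c + d < 14 := by
    have : (2 * (c : ℝ) + d) < 14 := by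
      by_contra hc
      push Not at hc
      nlinarith
    exact_mod_cast this
  have C2 : -4 < 2 * c + d := by
    have : (-4 : ℝ) < (2 * (c : ℝ) + d) := by
      by_contra hc
      push Not at hc
      nlinarith
    exact_mod_cast this
  obtain ⟨b', hb'⟩ : ∃ b' : ℕ, (b' : ℤ) = b + 4 := ⟨(b + 4).toNat, by omega⟩
  obtain ⟨c', hc'⟩ : ∃ c' : ℕ, (c' : ℤ) = c + 6 := ⟨(c + 6).toNat, by omega⟩
  obtain ⟨d', hd'⟩ : ∃ d' : ℕ, (d' : ℤ) = d + 1 := ⟨(d + 1).toNat, by omega⟩
  have key := delta_check ⟨b', by omega⟩ ⟨c', by omega⟩ ⟨d', by omega⟩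
  have eb : ((b' : ℕ) : ℤ) - 4 = b := by omega
  have ec : ((c' : ℕ) : ℤ) - 6 = c := by omega
  have ed : ((d' : ℕ) : ℤ) - 1 = d := by omega
  simp only [eb, ec, ed] at key
  have ea : 1 - b + c + 2 * d = a := by omega
  unfold deltaRow at key
  rw [ea] at key
  have htp : tpb (o a b c d) = true := (tpb_iff _).2 h
  simp only [htp, Bool.not_true, Bool.false_or, List.any_eq_true, decide_eq_true_eq] at key
  obtain ⟨e, he, hee⟩ := key
  exact ⟨e, he, hee⟩

end Pool.Agent.Q5U
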