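import Pool.Agent.Q5U.WalkCheck

/-!
# General facts on `qf`
-/

namespace Pool.Agent.Q5U

open Matrix

theorem rowmul_eq (x : V) (A : M4) : rowmul x A = x ᵥ* A := by
  funext j
  simp [rowmul, Matrix.vecMul, dotProduct, Fin.sum_univ_four]

/-- similitudes -/
theorem qf_vecMul {A G G' : M4} {c : OK} (h : A * G * Aᵀ = Matrix.of (fun i j => c * G' i j))
    (x : V) : qf G (x ᵥ* A) = c * qf G' x := by
  have h2 : Matrix.of (fun i j => c * G' i j) = c • G' := by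
    ext1 i j
    simp [Matrix.smul_apply]
  have h3 : G *ᵥ (x ᵥ* A) = (G * Aᵀ) *ᵥ x := by
    rw [← Matrix.mulVec_transpose, Matrix.mulVec_mulVec]
  have h4 : (x ᵥ* A) ⬝ᵥ ((G * Aᵀ) *ᵥ x) = x ⬝ᵥ ((A * (G * Aᵀ)) *ᵥ x) := by
    rw [← Matrix.dotProduct_mulVec, Matrix.mulVec_mulVec]
  unfold qf
  rw [h3, h4, ← Matrix.mul_assoc, h, h2, Matrix.smul_mulVec, dotProduct_smul, smul_eq_mul]

theorem qf_smul (G : M4) (c : OK) (x : V) : qf G (c • x) = c * c * qf G x := by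
  unfold qf
  rw [Matrix.mulVec_smul, dotProduct_smul, smul_dotProduct, smul_eq_mul, smul_eq_mul, mul_assoc]

theorem qf_add {G : M4} (hG : Gᵀ = G) (x y : V) :
    qf G (x + y) = qf G x + 2 * (x ⬝ᵥ G *ᵥ y) + qf G y := by
  have h1 : y ⬝ᵥ G *ᵥ x = x ⬝ᵥ G *ᵥ y := by
    rw [Matrix.dotProduct_mulVec, ← Matrix.mulVec_transpose, hG, dotProduct_comm]
  unfold qf
  rw [Matrix.mulVec_add, dotProduct_add, add_dotProduct, add_dotProduct, h1]
  ring

end Pool.Agent.Q5U
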