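import Pool.Agent.Q5U.Emb
import Pool.Agent.Q5U.EData

/-!
# Positivity and evenness of the lattices `E` and `G0`
-/

namespace Pool.Agent.Q5U

open Matrix

theorem pos_vecMul (A G : M4) (x : V) :
    qf G (x ᵥ* A) = x ⬝ᵥ (A * G * Aᵀ) *ᵥ x := by
  unfold qf
  rw [← Matrix.dotProduct_mulVec, ← Matrix.mulVec_transpose, Matrix.mulVec_mulVec,
    Matrix.mulVec_mulVec, Matrix.mul_assoc]

theorem pos_frame_matrix : CC * frameDiag * CCᵀ
    = Matrix.of (fun i j => (o 2 0 0 0 * ppi) * (o 2 0 0 0 * ppi) * GE i j) := by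
  decide +kernel

theorem pos_qf_diag (y : V) : qf frameDiag y
    = 2 * (y 0 ^ 2 + eps1 * y 1 ^ 2 + nn * y 2 ^ 2 + eps1 * nn * y 3 ^ 2) := by
  have h2 : (o 2 0 0 0 : OK) = 2 := by decide
  simp only [qf, frameDiag, Matrix.mulVec_diagonal, dotProduct, Fin.sum_univ_four, h2]
  simp
  ring

theorem frame (x : V) :
    (o 2 0 0 0 * ppi) * (o 2 0 0 0 * ppi) * qf GE x
      = 2 * ((x ᵥ* CC) 0 ^ 2 + eps1 * (x ᵥ* CC) 1 ^ 2 + nn * (x ᵥ* CC) 2 ^ 2
        + eps1 * nn * (x ᵥ* CC) 3 ^ 2) := by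
  rw [← pos_qf_diag, pos_vecMul, pos_frame_matrix]
  unfold qf
  have : (Matrix.of (fun i j => (o 2 0 0 0 * ppi) * (o 2 0 0 0 * ppi) * GE i j) : M4)
      = ((o 2 0 0 0 * ppi) * (o 2 0 0 0 * ppi)) • GE := by
    funext i j; rfl
  rw [this, Matrix.smul_mulVec, dotProduct_smul, smul_eq_mul]

theorem GE_even (x : V) : ∃ q : OK, qf GE x = 2 * q := by
  refine ⟨x 0 ^ 2 + x 1 ^ 2 + o 2 0 1 0 * x 2 ^ 2 + 2 * x 3 ^ 2 + o 0 1 0 0 * x 0 * x 1
    + x 0 * x 3 + x 1 * x 3 + o 2 (-1) 1 0 * x 2 * x 3, ?_⟩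
  have h2 : (o 2 0 0 0 : OK) = 2 := by decide
  have h4 : (o 4 0 0 0 : OK) = 4 := by decide
  have h42 : (o 4 0 2 0 : OK) = 2 * o 2 0 1 0 := by decide
  simp only [qf, GE, Matrix.mulVec, dotProduct, Fin.sum_univ_four, h2, h4, h42]
  simp
  ring

theorem pos_det : CC.det ≠ 0 := by
  have h : nm CC.det = 16384 := by decide +kernel
  intro h0
  rw [h0] at h
  exact absurd h (by decide)

theorem pos_eps1 : TP eps1 := (tpb_iff _).1 (by decide)
theorem pos_nn : TP nn := (tpb_iff _).1 (by decide)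

theorem GE_pos {x : V} (hx : x ≠ 0) : TP (qf GE x) := by
  intro i
  have hy : x ᵥ* CC ≠ 0 := fun h => hx (Matrix.eq_zero_of_vecMul_eq_zero pos_det h)
  obtain ⟨l, hl⟩ : ∃ l, (x ᵥ* CC) l ≠ 0 := by
    by_contra h
    push Not at h
    exact hy (funext h)
  have h := congrArg (sg i) (frame x)
  simp only [map_mul, map_add, map_pow, map_ofNat] at h
  set y := x ᵥ* CC
  have hpi : sg i (o 2 0 0 0) * sg i ppi ≠ 0 := by
    rw [← map_mul]; exact sg_ne_zero (by decide) i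
  have he := pos_eps1 i
  have hn := pos_nn i
  have hsq : 0 < (sg i (y l)) ^ 2 := by
    have := sg_ne_zero hl i
    positivity
  have hS : 0 < sg i (y 0) ^ 2 + sg i eps1 * sg i (y 1) ^ 2 + sg i nn * sg i (y 2) ^ 2
      + sg i eps1 * sg i nn * sg i (y 3) ^ 2 := by
    have h0 : 0 ≤ sg i (y 0) ^ 2 := by positivity
    have h1 : 0 ≤ sg i eps1 * sg i (y 1) ^ 2 := by positivity
    have h2 : 0 ≤ sg i nn * sg i (y 2) ^ 2 := by positivity
    have h3 : 0 ≤ sg i eps1 * sg i nn * sg i (y 3) ^ 2 := by positivity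
    fin_cases l
    · have : 0 < sg i (y 0) ^ 2 := hsq
      linarith
    · have : 0 < sg i eps1 * sg i (y 1) ^ 2 := mul_pos he hsq
      linarith
    · have : 0 < sg i nn * sg i (y 2) ^ 2 := mul_pos hn hsq
      linarith
    · have : 0 < sg i eps1 * sg i nn * sg i (y 3) ^ 2 := mul_pos (mul_pos he hn) hsq
      linarith
  have hsq2 : 0 < sg i (o 2 0 0 0) * sg i ppi * (sg i (o 2 0 0 0) * sg i ppi) :=
    mul_self_pos.2 hpi
  have hfin : 0 < sg i (o 2 0 0 0) * sg i ppi * (sg i (o 2 0 0 0) * sg i ppi)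
      * sg i (qf GE x) := by
    rw [h]; linarith
  exact pos_of_mul_pos_right hfin hsq2.le

theorem pos_G0 (x : V) : qf G0 x = x 0 ^ 2 + eps1 * x 1 ^ 2 + (o 2 1 0 1 * x 2 ^ 2
    + 2 * x 2 * x 3 + o 3 (-1) 0 0 * x 3 ^ 2) := by
  have h2 : (o 2 0 1 0 : OK) = eps1 := rfl
  simp only [qf, G0, Matrix.mulVec, dotProduct, Fin.sum_univ_four, h2]
  simp
  ring

theorem G0_pos {x : V} (hx : x ≠ 0) : TP (qf G0 x) := by
  intro i
  obtain ⟨l, hl⟩ : ∃ l, x l ≠ 0 := by
    by_contra h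
    push Not at h
    exact hx (funext h)
  have h := congrArg (sg i) (pos_G0 x)
  simp only [map_mul, map_add, map_pow, map_ofNat] at h
  have he := pos_eps1 i
  have hA : 0 < sg i (o 2 1 0 1) := ((tpb_iff _).1 (by decide : tpb (o 2 1 0 1) = true)) i
  have hC : 0 < sg i (o 3 (-1) 0 0) := ((tpb_iff _).1 (by decide : tpb (o 3 (-1) 0 0) = true)) i
  have hD : 0 < sg i (o 2 1 0 1) * sg i (o 3 (-1) 0 0) - 1 := by
    have := ((tpb_iff _).1 (by decide : tpb (o 2 1 0 1 * o 3 (-1) 0 0 - 1) = true)) i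
    simpa using this
  have hsq : 0 < (sg i (x l)) ^ 2 := by
    have := sg_ne_zero hl i
    positivity
  rw [h]
  set A := sg i (o 2 1 0 1)
  set C := sg i (o 3 (-1) 0 0)
  set a := sg i (x 2) with ha
  set b := sg i (x 3) with hb
  have hid : A * (A * a ^ 2 + 2 * a * b + C * b ^ 2) = (A * a + b) ^ 2 + (A * C - 1) * b ^ 2 := by
    ring
  have hbin : 0 ≤ A * a ^ 2 + 2 * a * b + C * b ^ 2 := by
    have : 0 ≤ A * (A * a ^ 2 + 2 * a * b + C * b ^ 2) := by
      rw [hid]; positivity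
    exact nonneg_of_mul_nonneg_right this hA
  have hbin2 : 0 < a ^ 2 ∨ 0 < b ^ 2 → 0 < A * a ^ 2 + 2 * a * b + C * b ^ 2 := by
    intro hh
    have : 0 < A * (A * a ^ 2 + 2 * a * b + C * b ^ 2) := by
      rw [hid]
      by_cases hb0 : b = 0
      · have ha0 : 0 < a ^ 2 := by
          rcases hh with hh | hh
          · exact hh
          · rw [hb0] at hh; norm_num at hh
        rw [hb0]
        have : 0 < (A * a) ^ 2 := by
          rw [mul_pow]; positivity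
        linarith
      · have : 0 < (A * C - 1) * b ^ 2 := by positivity
        have : 0 ≤ (A * a + b) ^ 2 := by positivity
        linarith
    exact pos_of_mul_pos_right this hA.le
  have h0 : 0 ≤ sg i (x 0) ^ 2 := by positivity
  have h1 : 0 ≤ sg i eps1 * sg i (x 1) ^ 2 := by positivity
  fin_cases l
  · have : 0 < sg i (x 0) ^ 2 := hsq
    linarith
  · have : 0 < sg i eps1 * sg i (x 1) ^ 2 := mul_pos he hsq
    linarith
  · have := hbin2 (Or.inl hsq)
    linarith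
  · have := hbin2 (Or.inr hsq)
    linarith

end Pool.Agent.Q5U
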