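import Pool.Agent.Q5U.Defs

/-!
# The residue map modulo `π`
-/

namespace Pool.Agent.Q5U

open Matrix

theorem ppi_a : ppi.a = 1 := rfl
theorem ppi_b : ppi.b = 0 := rfl
theorem ppi_c : ppi.c = 1 := rfl
theorem ppi_d : ppi.d = 0 := rfl

theorem cl_lt (x : OK) : cl x < 4 := by
  unfold cl
  omega

theorem cl_add (x y : OK) : cl (x + y) = cl x ^^^ cl y := by
  unfold cl
  simp only [OK.add_a, OK.add_b, OK.add_c, OK.add_d]
  have e1 : (x.a + y.a + (x.c + y.c)) % 2 = ((x.a + x.c) % 2 + (y.a + y.c) % 2) % 2 := by omega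
  have e2 : (x.b + y.b + (x.d + y.d)) % 2 = ((x.b + x.d) % 2 + (y.b + y.d) % 2) % 2 := by omega
  rw [e1, e2]
  rcases Int.emod_two_eq_zero_or_one (x.a + x.c) with h1 | h1 <;>
  rcases Int.emod_two_eq_zero_or_one (x.b + x.d) with h2 | h2 <;>
  rcases Int.emod_two_eq_zero_or_one (y.a + y.c) with h3 | h3 <;>
  rcases Int.emod_two_eq_zero_or_one (y.b + y.d) with h4 | h4 <;>
  rw [h1, h2, h3, h4] <;> decide

theorem cl_mul (x y : OK) : cl (x * y) = m4 (cl x) (cl y) := by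
  unfold cl
  have e1 : ((x * y).a + (x * y).c) % 2
      = (((x.a + x.c) % 2) * ((y.a + y.c) % 2) + ((x.b + x.d) % 2) * ((y.b + y.d) % 2)) % 2 := by
    have : (x * y).a + (x * y).c = ((x.a + x.c) * (y.a + y.c) + (x.b + x.d) * (y.b + y.d))
        + 2 * (x.c * y.c + x.d * y.d) := by
      simp only [OK.mul_a, OK.mul_c]; ring
    rw [this, Int.add_mul_emod_self_left, Int.add_emod, Int.mul_emod (x.a + x.c),
      Int.mul_emod (x.b + x.d), ← Int.add_emod]
  have e2 : ((x * y).b + (x * y).d) % 2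
      = (((x.a + x.c) % 2) * ((y.b + y.d) % 2) + ((x.b + x.d) % 2) * ((y.a + y.c) % 2)
        + ((x.b + x.d) % 2) * ((y.b + y.d) % 2)) % 2 := by
    have : (x * y).b + (x * y).d = ((x.a + x.c) * (y.b + y.d) + (x.b + x.d) * (y.a + y.c)
        + (x.b + x.d) * (y.b + y.d))
        + 2 * (x.c * y.d + x.d * y.c + x.d * y.d) := by
      simp only [OK.mul_b, OK.mul_d]; ring
    rw [this, Int.add_mul_emod_self_left]
    have h1 : ((x.a + x.c) * (y.b + y.d)) ≡ (((x.a + x.c) % 2) * ((y.b + y.d) % 2)) [ZMOD 2] :=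
      Int.ModEq.mul (Int.mod_modEq _ _).symm (Int.mod_modEq _ _).symm
    have h2 : ((x.b + x.d) * (y.a + y.c)) ≡ (((x.b + x.d) % 2) * ((y.a + y.c) % 2)) [ZMOD 2] :=
      Int.ModEq.mul (Int.mod_modEq _ _).symm (Int.mod_modEq _ _).symm
    have h3 : ((x.b + x.d) * (y.b + y.d)) ≡ (((x.b + x.d) % 2) * ((y.b + y.d) % 2)) [ZMOD 2] :=
      Int.ModEq.mul (Int.mod_modEq _ _).symm (Int.mod_modEq _ _).symm
    exact (h1.add h2).add h3
  rw [e1, e2]
  rcases Int.emod_two_eq_zero_or_one (x.a + x.c) with h1 | h1 <;>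
  rcases Int.emod_two_eq_zero_or_one (x.b + x.d) with h2 | h2 <;>
  rcases Int.emod_two_eq_zero_or_one (y.a + y.c) with h3 | h3 <;>
  rcases Int.emod_two_eq_zero_or_one (y.b + y.d) with h4 | h4 <;>
  rw [h1, h2, h3, h4] <;> decide

theorem cl_eq_iff (x y : OK) : cl x = cl y ↔ ppi ∣ x - y := by
  have h0 : cl x = cl y ↔ (x.a + x.c) % 2 = (y.a + y.c) % 2 ∧ (x.b + x.d) % 2 = (y.b + y.d) % 2 := by
    unfold cl
    omega
  rw [h0]
  constructor
  · rintro ⟨h1, h2⟩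
    refine ⟨divpi (x - y), ?_⟩
    ext <;> simp only [divpi, OK.mul_a, OK.mul_b, OK.mul_c, OK.mul_d, OK.sub_a, OK.sub_b, OK.sub_c,
      OK.sub_d, ppi_a, ppi_b, ppi_c, ppi_d] <;> omega
  · rintro ⟨z, hz⟩
    have ha := congrArg OK.a hz
    have hb := congrArg OK.b hz
    have hc := congrArg OK.c hz
    have hd := congrArg OK.d hz
    simp only [OK.mul_a, OK.mul_b, OK.mul_c, OK.mul_d, OK.sub_a, OK.sub_b, OK.sub_c,
      OK.sub_d, ppi_a, ppi_b, ppi_c, ppi_d] at ha hb hc hd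
    constructor <;> omega

theorem cl_lift {r : ℕ} (hr : r < 4) : cl (lift r) = r := by
  interval_cases r <;> decide

theorem clv_lt (x : V) : clv x < 256 := by
  unfold clv
  have h0 := cl_lt (x 0)
  have h1 := cl_lt (x 1)
  have h2 := cl_lt (x 2)
  have h3 := cl_lt (x 3)
  omega

theorem dig_clv_aux {a b c d : ℕ} (ha : a < 4) (hb : b < 4) (hc : c < 4) (hd : d < 4) :
    dig (a + 4 * b + 16 * c + 64 * d) 0 = a ∧ dig (a + 4 * b + 16 * c + 64 * d) 1 = b ∧
    dig (a + 4 * b + 16 * c + 64 * d) 2 = c ∧ dig (a + 4 * b + 16 * c + 64 * d) 3 = d := by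
  unfold dig
  norm_num
  omega

theorem dig_clv (x : V) : dig (clv x) 0 = cl (x 0) ∧ dig (clv x) 1 = cl (x 1) ∧
    dig (clv x) 2 = cl (x 2) ∧ dig (clv x) 3 = cl (x 3) := by
  unfold clv
  exact dig_clv_aux (cl_lt _) (cl_lt _) (cl_lt _) (cl_lt _)

theorem xor_aux1 {s t A B : ℕ} (hs : s < 4) (ht : t < 4) :
    (s + 4 * A) ^^^ (t + 4 * B) = (s ^^^ t) + 4 * (A ^^^ B) := by
  have hst : s ^^^ t < 4 := by
    have : s ^^^ t < 2 ^ 2 := Nat.xor_lt_two_pow (by omega) (by omega)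
    omega
  apply Nat.eq_of_testBit_eq
  intro i
  rw [Nat.testBit_xor]
  have key : ∀ {u C : ℕ}, u < 4 → ∀ i, (u + 4 * C).testBit i
      = if i < 2 then u.testBit i else C.testBit (i - 2) := by
    intro u C hu i
    have := Nat.testBit_two_pow_mul_add (i := 2) C (b := u) (by omega) i
    rw [← this]
    congr 1
    ring
  rw [key hs, key ht, key hst]
  split_ifs
  · rw [Nat.testBit_xor]
  · rw [Nat.testBit_xor]

theorem xor_aux {a b c d a' b' c' d' : ℕ} (ha : a < 4) (hb : b < 4) (hc : c < 4)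
    (ha' : a' < 4) (hb' : b' < 4) (hc' : c' < 4) :
    (a + 4 * b + 16 * c + 64 * d) ^^^ (a' + 4 * b' + 16 * c' + 64 * d')
      = (a ^^^ a') + 4 * (b ^^^ b') + 16 * (c ^^^ c') + 64 * (d ^^^ d') := by
  have e : ∀ a b c d : ℕ, a + 4 * b + 16 * c + 64 * d = a + 4 * (b + 4 * (c + 4 * d)) := by
    intros; ring
  rw [e, e, e, xor_aux1 ha ha', xor_aux1 hb hb', xor_aux1 hc hc']

theorem clv_add (x y : V) : clv (x + y) = clv x ^^^ clv y := by
  unfold clv
  simp only [Pi.add_apply, cl_add]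
  rw [xor_aux (cl_lt _) (cl_lt _) (cl_lt _) (cl_lt _) (cl_lt _) (cl_lt _)]

theorem clv_smul (s : OK) (x : V) : clv (s • x) = scv (cl s) (clv x) := by
  unfold scv
  obtain ⟨h0, h1, h2, h3⟩ := dig_clv x
  rw [h0, h1, h2, h3]
  unfold clv
  simp only [Pi.smul_apply, smul_eq_mul, cl_mul]

theorem cl_dot (x y : V) : cl (x ⬝ᵥ y) = dotv (clv x) (clv y) := by
  unfold dotv
  obtain ⟨h0, h1, h2, h3⟩ := dig_clv x
  obtain ⟨k0, k1, k2, k3⟩ := dig_clv y
  rw [h0, h1, h2, h3, k0, k1, k2, k3]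
  simp only [dotProduct, Fin.sum_univ_four, cl_add, cl_mul]

theorem clv_eq_iff' (x y : V) : clv x = clv y ↔ ∀ i, cl (x i) = cl (y i) := by
  constructor
  · intro h
    obtain ⟨h0, h1, h2, h3⟩ := dig_clv x
    obtain ⟨k0, k1, k2, k3⟩ := dig_clv y
    rw [h] at h0 h1 h2 h3
    intro i
    fin_cases i
    · exact h0.symm.trans k0
    · exact h1.symm.trans k1
    · exact h2.symm.trans k2
    · exact h3.symm.trans k3
  · intro h
    unfold clv
    rw [h 0, h 1, h 2, h 3]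

theorem clv_eq_iff (x y : V) : clv x = clv y ↔ ∃ z : V, x = y + ppi • z := by
  rw [clv_eq_iff']
  constructor
  · intro h
    have h' : ∀ i, ∃ z : OK, x i - y i = ppi * z := fun i => (cl_eq_iff _ _).1 (h i)
    choose z hz using h'
    refine ⟨z, ?_⟩
    funext i
    rw [Pi.add_apply, Pi.smul_apply, smul_eq_mul, ← hz i]
    ring
  · rintro ⟨z, rfl⟩ i
    rw [cl_eq_iff, Pi.add_apply, Pi.smul_apply, smul_eq_mul]
    exact ⟨z i, by ring⟩

theorem clv_liftv {r : ℕ} (hr : r < 256) : clv (liftv r) = r := by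
  unfold clv liftv
  have hd : ∀ k, dig r k < 4 := fun k => Nat.mod_lt _ (by norm_num)
  rw [cl_lift (hd _), cl_lift (hd _), cl_lift (hd _), cl_lift (hd _)]
  unfold dig
  norm_num
  omega

theorem exists_lift (x : V) : ∃ y : V, x = liftv (clv x) + ppi • y := by
  rw [← clv_eq_iff, clv_liftv (clv_lt x)]

end Pool.Agent.Q5U
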