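import Pool.Agent.Q5U.WalkData

/-!
# Kernel checks of the walk data
-/

namespace Pool.Agent.Q5U

open Matrix

/-- Row vector times matrix, written out. -/
def rowmul (x : V) (A : M4) : V :=
  fun j => x 0 * A 0 j + x 1 * A 1 j + x 2 * A 2 j + x 3 * A 3 j

/-- Rank of the state (class `i`, residue vector `r`); `31` means: not covered. -/
def rk (i r : ℕ) : ℕ := if i = 0 then 0 else rkTab i >>> (5 * r) % 32

def strat (i r : ℕ) : List ℕ := choices.getD (stTab i >>> (8 * r) % 256) []

def dflt : Move := ⟨0, 0, 0, 0, 0⟩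

def mv (m : ℕ) : Move := moves.getD m dflt

/-- Bit `s` of `mask m r ρ` is set iff the neighbour step `m` applies to the residue vector `r`
and leads for the next digit `s` to a state of rank `< ρ`. -/
def mask (m : Move) (r ρ : ℕ) : ℕ :=
  let v := rowmul (liftv r) m.A
  let x : V := fun j => divpi (v j)
  if ppi * x 0 = v 0 ∧ ppi * x 1 = v 1 ∧ ppi * x 2 = v 2 ∧ ppi * x 3 = v 3 then
    let c := clv x
    ((if rk m.tgt (c ^^^ scv 0 m.w) < ρ then 1 else 0)
      + (if rk m.tgt (c ^^^ scv 1 m.w) < ρ then 2 else 0)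
      + (if rk m.tgt (c ^^^ scv 2 m.w) < ρ then 4 else 0)
      + (if rk m.tgt (c ^^^ scv 3 m.w) < ρ then 8 else 0))
  else 0

def stepOK (i r : ℕ) : Bool :=
  rk i r == 31 ||
    (let ms := (strat i r).map mv
     ms.all (fun m => m.src == i) &&
      (ms.any (fun m => mask m r (rk i r) == 15) ||
        (List.range 256).all (fun z => ms.any (fun m =>
          Nat.testBit (mask m r (rk i r)) (dotv m.b z)))))

def moveOK (m : Move) : Bool :=
  decide (m.A * gram m.tgt * m.Aᵀ = Matrix.of (fun i j => ppi2 * gram m.src i j)) &&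
  decide (∀ i j, cl (m.A i j) = m4 (dig m.b i) (dig m.w j))

end Pool.Agent.Q5U
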