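import Pool.Agent.Q5U.Emb
import Pool.Agent.Q5U.WalkCheck
import Pool.Agent.Q5U.EData
import Pool.Agent.Q5U.Res
import Pool.Agent.Q5U.Form
import Pool.Agent.Q5U.Pos

/-!
# Similitudes: multiplication and division of represented numbers by `rho`, `theta`, `eps1`
-/

namespace Pool.Agent.Q5U

open Matrix

/-! ### Scaling -/

theorem div_scale {z : V} {c c' g : OK} (hc : c * c' = 1) (h : qf GE z = c * c * (2 * g)) :
    ∃ y : V, qf GE y = 2 * g := by
  refine ⟨c' • z, ?_⟩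
  rw [qf_smul, h]
  calc c' * c' * (c * c * (2 * g)) = (c * c') * (c * c') * (2 * g) := by ring
    _ = 2 * g := by rw [hc]; ring

/-- Division by a prime element `π'` times a unit `w`: if `x A` is divisible by `π'`. -/
theorem div_gen {A : M4} {f pr w w' g : OK}
    (hA : A * GE * Aᵀ = Matrix.of (fun i j => f * GE i j)) (hf : f = pr * w) (hw : w * w' = 1)
    (hpr : pr ≠ 0) {x z : V} (hx : qf GE x = 2 * (f * g)) (hz : x ᵥ* A = pr • z) :
    ∃ y : V, qf GE y = 2 * g := by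
  have h1 := qf_vecMul hA x
  rw [hz, qf_smul, hx] at h1
  have h2 : qf GE z = w * w * (2 * g) := by
    have h3 : pr * pr * qf GE z = pr * pr * (w * w * (2 * g)) := by
      rw [h1, hf]; ring
    exact mul_left_cancel₀ (mul_ne_zero hpr hpr) h3
  exact div_scale hw h2

/-! ### The similitude with factor `eps1` -/

theorem div_simEps : simEps * GE * simEpsᵀ = Matrix.of (fun i j => eps1 * GE i j) := by
  decide +kernel

theorem div_eps1 {x : V} {g : OK} (h : qf GE x = 2 * (eps1 * g)) :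
    ∃ y : V, qf GE y = 2 * g := by
  have h1 := qf_vecMul div_simEps x
  have h2 : qf GE (x ᵥ* simEps) = eps1 * eps1 * (2 * g) := by
    rw [h1, h]; ring
  exact div_scale (c' := eps) (by decide) h2

/-! ### The similitudes with factor `rho` -/

theorem div_simRho : ∀ A ∈ simRho, A * GE * Aᵀ = Matrix.of (fun i j => rho * GE i j) := by
  decide +kernel

theorem mul_rho {x : V} {g : OK} (h : qf GE x = 2 * g) :
    ∃ y : V, qf GE y = 2 * (rho * g) := by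
  obtain ⟨A, hA⟩ : ∃ A, A ∈ simRho := ⟨simRho.head (by decide), List.head_mem _⟩
  refine ⟨x ᵥ* A, ?_⟩
  rw [qf_vecMul (div_simRho A hA) x, h]
  ring

/-- Half of an element. -/
def divHalf (z : OK) : OK := ⟨z.a / 2, z.b / 2, z.c / 2, z.d / 2⟩

theorem divHalf_two (z : OK) : divHalf (2 * z) = z := by
  have two_a : (2 : OK).a = 2 := rfl
  have two_b : (2 : OK).b = 0 := rfl
  have two_c : (2 : OK).c = 0 := rfl
  have two_d : (2 : OK).d = 0 := rfl
  ext <;> simp only [divHalf, OK.mul_a, OK.mul_b, OK.mul_c, OK.mul_d, two_a, two_b, two_c, two_d]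
    <;> omega

def rhoChk (r : ℕ) : Bool :=
  cl (divHalf (qf GE (liftv r))) != 0 || simRho.any (fun A => clv (rowmul (liftv r) A) == 0)

set_option maxRecDepth 100000 in
theorem rhoChk_all : ∀ r < 256, rhoChk r = true := by decide +kernel

theorem div_rho {x : V} {g : OK} (h : qf GE x = 2 * (rho * g)) :
    ∃ y : V, qf GE y = 2 * g := by
  obtain ⟨y, hy⟩ := exists_lift x
  have hr := clv_lt x
  generalize clv x = r at hy hr
  have hchk := rhoChk_all r hr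
  have hrho : rho = ppi * o (-1) 1 1 0 := by decide
  have hGT : GEᵀ = GE := by decide +kernel
  obtain ⟨q0, hq0⟩ := GE_even (liftv r)
  obtain ⟨q1, hq1⟩ := GE_even y
  have e1 : qf GE x = qf GE (liftv r) + 2 * (liftv r ⬝ᵥ GE *ᵥ (ppi • y)) + qf GE (ppi • y) := by
    rw [hy]
    exact qf_add hGT _ _
  have e2 : liftv r ⬝ᵥ GE *ᵥ (ppi • y) = ppi * (liftv r ⬝ᵥ GE *ᵥ y) := by
    rw [Matrix.mulVec_smul, dotProduct_smul, smul_eq_mul]
  rw [e2, qf_smul, hq0, hq1, h] at e1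
  have h2 : (2 : OK) ≠ 0 := by decide
  have e3 : q0 = ppi * (o (-1) 1 1 0 * g - liftv r ⬝ᵥ GE *ᵥ y - ppi * q1) := by
    have : (2 : OK) * q0 = 2 * (ppi * (o (-1) 1 1 0 * g - liftv r ⬝ᵥ GE *ᵥ y - ppi * q1)) := by
      have e4 : (2 : OK) * q0 = 2 * (rho * g) - 2 * (ppi * (liftv r ⬝ᵥ GE *ᵥ y))
          - ppi * ppi * (2 * q1) := by
        rw [e1]; ring
      rw [e4, hrho]
      ring
    exact mul_left_cancel₀ h2 this
  have e5 : cl q0 = 0 := by
    have h0 : cl (0 : OK) = 0 := by decide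
    rw [← h0, cl_eq_iff, sub_zero, e3]
    exact dvd_mul_right _ _
  unfold rhoChk at hchk
  rw [hq0, divHalf_two, e5] at hchk
  simp only [bne_self_eq_false, Bool.false_or] at hchk
  obtain ⟨A, hA, hA2⟩ := List.any_eq_true.1 hchk
  rw [beq_iff_eq, rowmul_eq] at hA2
  have h0 : clv (0 : V) = 0 := by decide
  rw [← h0, clv_eq_iff] at hA2
  obtain ⟨z, hz⟩ := hA2
  rw [zero_add] at hz
  have hxA : x ᵥ* A = ppi • (z + y ᵥ* A) := by
    rw [hy, Matrix.add_vecMul, hz, Matrix.smul_vecMul, smul_add]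
  exact div_gen (w' := o 3 (-2) 2 (-1)) (div_simRho A hA) hrho (by decide) (by decide) h hxA

/-! ### The similitudes with factor `theta` -/

set_option maxRecDepth 100000 in
theorem div_simTheta : ∀ A ∈ simTheta, A * GE * Aᵀ = Matrix.of (fun i j => theta * GE i j) := by
  decide +kernel

/-- The matrices of `simTheta` modulo `√3`, by columns. -/
def thData : List (List (List (ℕ × ℕ))) :=
  [[[(2, 0), (0, 1), (1, 0), (0, 2)], [(0, 1), (0, 2), (0, 2), (1, 0)], [(1, 2), (1, 0), (2, 1), (2, 0)],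
      [(1, 2), (2, 2), (2, 1), (0, 0)]],
    [[(0, 1), (2, 1), (2, 0), (0, 2)], [(1, 2), (2, 2), (0, 1), (0, 0)], [(1, 1), (2, 0), (2, 2), (1, 2)],
      [(0, 1), (0, 2), (1, 2), (2, 1)]],
    [[(0, 1), (2, 0), (2, 0), (2, 1)], [(1, 2), (2, 1), (2, 1), (2, 0)], [(1, 0), (1, 2), (1, 2), (2, 2)],
      [(0, 1), (1, 2), (1, 2), (1, 2)]],
    [[(2, 1), (0, 1), (1, 0), (1, 0)], [(2, 1), (0, 2), (0, 2), (1, 0)], [(1, 2), (1, 0), (1, 1), (2, 0)],
      [(1, 2), (2, 2), (2, 1), (2, 0)]],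
    [[(0, 1), (2, 0), (2, 1), (2, 1)], [(1, 2), (2, 1), (2, 0), (1, 1)], [(1, 0), (1, 2), (2, 2), (2, 2)],
      [(0, 1), (1, 2), (1, 2), (2, 2)]],
    [[(2, 1), (0, 0), (1, 2), (1, 0)], [(0, 0), (0, 0), (0, 0), (0, 0)], [(1, 1), (1, 0), (2, 0), (1, 1)],
      [(1, 2), (2, 1), (0, 1), (1, 0)]],
    [[(2, 0), (1, 2), (1, 2), (2, 2)], [(0, 0), (0, 0), (0, 0), (0, 0)], [(0, 1), (2, 2), (2, 0), (0, 0)],
      [(0, 1), (2, 1), (0, 1), (0, 1)]],
    [[(2, 0), (2, 0), (2, 1), (0, 1)], [(0, 0), (0, 0), (0, 0), (0, 0)], [(2, 2), (2, 0), (0, 2), (0, 2)],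
      [(2, 0), (0, 1), (0, 2), (0, 0)]],
    [[(0, 0), (2, 1), (1, 2), (1, 0)], [(0, 0), (0, 0), (0, 0), (0, 0)], [(2, 0), (1, 0), (2, 0), (0, 1)],
      [(1, 2), (0, 2), (0, 1), (2, 2)]],
    [[(2, 1), (0, 0), (2, 1), (1, 1)], [(0, 0), (0, 0), (0, 0), (0, 0)], [(1, 0), (2, 0), (1, 0), (1, 2)],
      [(0, 2), (1, 2), (0, 2), (1, 0)]]]

theorem thData_eq : thData = simTheta.map (fun A => ([0, 1, 2, 3] : List (Fin 4)).map (fun j =>
    ([0, 1, 2, 3] : List (Fin 4)).map (fun i =>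
      (((A i j).a % 3).toNat, ((A i j).b % 3).toNat)))) := by decide +kernel

def thCol (p0 q0 p1 q1 p2 q2 p3 q3 : ℕ) (F : List (ℕ × ℕ)) : Bool :=
  match F with
  | [f0, f1, f2, f3] =>
    (p0 * f0.1 + q0 * f0.2 + (p1 * f1.1 + q1 * f1.2) + (p2 * f2.1 + q2 * f2.2)
      + (p3 * f3.1 + q3 * f3.2)) % 3 == 0 &&
    (p0 * f0.2 + q0 * f0.1 + q0 * f0.2 + (p1 * f1.2 + q1 * f1.1 + q1 * f1.2)
      + (p2 * f2.2 + q2 * f2.1 + q2 * f2.2) + (p3 * f3.2 + q3 * f3.1 + q3 * f3.2)) % 3 == 0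
  | _ => false

def thA (p0 q0 p1 q1 p2 q2 p3 q3 : ℕ) : ℕ :=
  2 * (p0 * p0 + q0 * q0) + 2 * (p1 * p1 + q1 * q1) + 4 * (p2 * p2 + q2 * q2)
    + 4 * (p3 * p3 + q3 * q3) + 2 * (p0 * q1 + q0 * p1 + q0 * q1) + 2 * (p0 * p3 + q0 * q3)
    + 2 * (p1 * p3 + q1 * q3) + 4 * (p2 * p3 + q2 * q3) + (p2 * q3 + q2 * p3 + q2 * q3)

def thB (p0 q0 p1 q1 p2 q2 p3 q3 : ℕ) : ℕ :=
  2 * (2 * (p0 * q0) + q0 * q0) + 2 * (2 * (p1 * q1) + q1 * q1) + 4 * (2 * (p2 * q2) + q2 * q2)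
    + 4 * (2 * (p3 * q3) + q3 * q3)
    + 2 * (p0 * p1 + q0 * q1 + (p0 * q1 + q0 * p1 + q0 * q1))
    + 2 * (p0 * q3 + q0 * p3 + q0 * q3) + 2 * (p1 * q3 + q1 * p3 + q1 * q3)
    + 4 * (p2 * q3 + q2 * p3 + q2 * q3)
    + (p2 * p3 + q2 * q3 + (p2 * q3 + q2 * p3 + q2 * q3))

def thChk (p0 q0 p1 q1 p2 q2 p3 q3 : ℕ) : Bool :=
  thA p0 q0 p1 q1 p2 q2 p3 q3 % 3 != 0 || thB p0 q0 p1 q1 p2 q2 p3 q3 % 3 != 0 ||
    thData.any (fun F => F.all (thCol p0 q0 p1 q1 p2 q2 p3 q3))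

def thAll : Bool :=
  [0, 1, 2].all fun p0 => [0, 1, 2].all fun q0 => [0, 1, 2].all fun p1 => [0, 1, 2].all fun q1 =>
  [0, 1, 2].all fun p2 => [0, 1, 2].all fun q2 => [0, 1, 2].all fun p3 => [0, 1, 2].all fun q3 =>
    thChk p0 q0 p1 q1 p2 q2 p3 q3

set_option maxRecDepth 100000 in
theorem thAll_true : thAll = true := by decide +kernel

theorem th_mem {p : ℕ} (h : p < 3) : p ∈ [0, 1, 2] := by
  interval_cases p <;> decide

theorem thChk_true {p0 q0 p1 q1 p2 q2 p3 q3 : ℕ} (h0 : p0 < 3) (h1 : q0 < 3) (h2 : p1 < 3)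
    (h3 : q1 < 3) (h4 : p2 < 3) (h5 : q2 < 3) (h6 : p3 < 3) (h7 : q3 < 3) :
    thChk p0 q0 p1 q1 p2 q2 p3 q3 = true := by
  have h := thAll_true
  unfold thAll at h
  have a0 := List.all_eq_true.1 h p0 (th_mem h0)
  have a1 := List.all_eq_true.1 a0 q0 (th_mem h1)
  have a2 := List.all_eq_true.1 a1 p1 (th_mem h2)
  have a3 := List.all_eq_true.1 a2 q1 (th_mem h3)
  have a4 := List.all_eq_true.1 a3 p2 (th_mem h4)
  have a5 := List.all_eq_true.1 a4 q2 (th_mem h5)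
  have a6 := List.all_eq_true.1 a5 p3 (th_mem h6)
  exact List.all_eq_true.1 a6 q3 (th_mem h7)

/-- Coordinates modulo `√3`. -/
def ra (z : OK) : ZMod 3 := (z.a : ZMod 3)
def rb (z : OK) : ZMod 3 := (z.b : ZMod 3)

theorem th_three : (3 : ZMod 3) = 0 := by decide

theorem ra_add (z w : OK) : ra (z + w) = ra z + ra w := by
  simp [ra]
theorem rb_add (z w : OK) : rb (z + w) = rb z + rb w := by
  simp [rb]
theorem ra_mul (z w : OK) : ra (z * w) = ra z * ra w + rb z * rb w := by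
  unfold ra rb
  rw [OK.mul_a]
  push_cast
  linear_combination ((z.c : ZMod 3) * w.c + z.d * w.d) * th_three
theorem rb_mul (z w : OK) : rb (z * w) = ra z * rb w + rb z * ra w + rb z * rb w := by
  unfold ra rb
  rw [OK.mul_b]
  push_cast
  linear_combination ((z.c : ZMod 3) * w.d + z.d * w.c + z.d * w.d) * th_three

/-- Digits modulo `√3`. -/
def dp (z : OK) : ℕ := (z.a % 3).toNat
def dq (z : OK) : ℕ := (z.b % 3).toNat

theorem dp_lt (z : OK) : dp z < 3 := by unfold dp; omega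
theorem dq_lt (z : OK) : dq z < 3 := by unfold dq; omega

theorem th_cast (n : ℤ) : (((n % 3).toNat : ℕ) : ZMod 3) = (n : ZMod 3) := by
  have h : (((n % 3).toNat : ℕ) : ℤ) = n % 3 := Int.toNat_of_nonneg (by omega)
  have h2 : (((n % 3).toNat : ℕ) : ZMod 3) = ((((n % 3).toNat : ℕ) : ℤ) : ZMod 3) := by
    push_cast; rfl
  rw [h2, h, ZMod.intCast_eq_intCast_iff]
  exact Int.mod_modEq n 3

theorem dp_cast (z : OK) : (dp z : ZMod 3) = ra z := th_cast z.a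
theorem dq_cast (z : OK) : (dq z : ZMod 3) = rb z := th_cast z.b

theorem th_zero {n : ℕ} : n % 3 = 0 ↔ (n : ZMod 3) = 0 := by
  rw [ZMod.natCast_eq_zero_iff, Nat.dvd_iff_mod_eq_zero]

theorem th_qf (x : V) : qf GE x = x 0 * (o 2 0 0 0 * x 0 + o 0 1 0 0 * x 1 + x 3)
    + x 1 * (o 0 1 0 0 * x 0 + o 2 0 0 0 * x 1 + x 3)
    + x 2 * (o 4 0 2 0 * x 2 + o 2 (-1) 1 0 * x 3)
    + x 3 * (x 0 + x 1 + o 2 (-1) 1 0 * x 2 + o 4 0 0 0 * x 3) := by
  simp only [qf, GE, dotProduct, Matrix.mulVec, Fin.sum_univ_four, Matrix.of_apply,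
    Matrix.cons_val', Matrix.cons_val_zero, Matrix.cons_val_one, Matrix.cons_val]
  ring

theorem th_ra_qf (x : V) : ra (qf GE x) =
    (thA (dp (x 0)) (dq (x 0)) (dp (x 1)) (dq (x 1)) (dp (x 2)) (dq (x 2)) (dp (x 3))
      (dq (x 3)) : ℕ) := by
  have c1 : ra (o 2 0 0 0) = 2 := by simp [ra, o]
  have c2 : rb (o 2 0 0 0) = 0 := by simp [rb, o]
  have c3 : ra (o 0 1 0 0) = 0 := by simp [ra, o]
  have c4 : rb (o 0 1 0 0) = 1 := by simp [rb, o]
  have c5 : ra (o 4 0 2 0) = 4 := by simp [ra, o]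
  have c6 : rb (o 4 0 2 0) = 0 := by simp [rb, o]
  have c7 : ra (o 2 (-1) 1 0) = 2 := by simp [ra, o]
  have c8 : rb (o 2 (-1) 1 0) = -1 := by simp [rb, o]
  have c9 : ra (o 4 0 0 0) = 4 := by simp [ra, o]
  have c10 : rb (o 4 0 0 0) = 0 := by simp [rb, o]
  rw [th_qf]
  unfold thA
  push_cast
  simp only [ra_add, rb_add, ra_mul, rb_mul, dp_cast, dq_cast, c1, c2, c3, c4, c5, c6, c7, c8, c9,
    c10]
  linear_combination (-(ra (x 2) * rb (x 3) + rb (x 2) * ra (x 3) + rb (x 2) * rb (x 3)))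
    * th_three

theorem th_rb_qf (x : V) : rb (qf GE x) =
    (thB (dp (x 0)) (dq (x 0)) (dp (x 1)) (dq (x 1)) (dp (x 2)) (dq (x 2)) (dp (x 3))
      (dq (x 3)) : ℕ) := by
  have c1 : ra (o 2 0 0 0) = 2 := by simp [ra, o]
  have c2 : rb (o 2 0 0 0) = 0 := by simp [rb, o]
  have c3 : ra (o 0 1 0 0) = 0 := by simp [ra, o]
  have c4 : rb (o 0 1 0 0) = 1 := by simp [rb, o]
  have c5 : ra (o 4 0 2 0) = 4 := by simp [ra, o]
  have c6 : rb (o 4 0 2 0) = 0 := by simp [rb, o]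
  have c7 : ra (o 2 (-1) 1 0) = 2 := by simp [ra, o]
  have c8 : rb (o 2 (-1) 1 0) = -1 := by simp [rb, o]
  have c9 : ra (o 4 0 0 0) = 4 := by simp [ra, o]
  have c10 : rb (o 4 0 0 0) = 0 := by simp [rb, o]
  rw [th_qf]
  unfold thB
  push_cast
  simp only [ra_add, rb_add, ra_mul, rb_mul, dp_cast, dq_cast, c1, c2, c3, c4, c5, c6, c7, c8, c9,
    c10]
  linear_combination (-(ra (x 2) * ra (x 3) + rb (x 2) * rb (x 3)
    + (ra (x 2) * rb (x 3) + rb (x 2) * ra (x 3) + rb (x 2) * rb (x 3)))) * th_three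

/-- An element with vanishing residue is divisible by `√3`. -/
theorem th_dvd {z : OK} (ha : ra z = 0) (hb : rb z = 0) :
    z = o 0 0 1 0 * ⟨z.c, z.d, z.a / 3, z.b / 3⟩ := by
  have h1 : z.a % 3 = 0 := by
    unfold ra at ha
    have := (ZMod.intCast_zmod_eq_zero_iff_dvd z.a 3).1 ha
    omega
  have h2 : z.b % 3 = 0 := by
    unfold rb at hb
    have := (ZMod.intCast_zmod_eq_zero_iff_dvd z.b 3).1 hb
    omega
  ext <;> simp only [o, OK.mul_a, OK.mul_b, OK.mul_c, OK.mul_d] <;> omega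

theorem th_col {x : V} {A : M4} {j : Fin 4}
    (h : thCol (dp (x 0)) (dq (x 0)) (dp (x 1)) (dq (x 1)) (dp (x 2)) (dq (x 2)) (dp (x 3))
      (dq (x 3)) (([0, 1, 2, 3] : List (Fin 4)).map (fun i =>
      (((A i j).a % 3).toNat, ((A i j).b % 3).toNat))) = true) :
    ra ((x ᵥ* A) j) = 0 ∧ rb ((x ᵥ* A) j) = 0 := by
  rw [← rowmul_eq]
  simp only [List.map_cons, List.map_nil, thCol, Bool.and_eq_true, beq_iff_eq] at h
  obtain ⟨h1, h2⟩ := h
  rw [th_zero] at h1 h2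
  push_cast at h1 h2
  simp only [dp_cast, dq_cast, th_cast] at h1 h2
  unfold rowmul
  constructor
  · simp only [ra_add, ra_mul]
    exact h1
  · simp only [rb_add, rb_mul]
    exact h2

theorem div_theta {x : V} {g : OK} (h : qf GE x = 2 * (theta * g)) :
    ∃ y : V, qf GE y = 2 * g := by
  have hchk := thChk_true (dp_lt (x 0)) (dq_lt (x 0)) (dp_lt (x 1)) (dq_lt (x 1)) (dp_lt (x 2))
    (dq_lt (x 2)) (dp_lt (x 3)) (dq_lt (x 3))
  have t1 : ra theta = 0 := by decide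
  have t2 : rb theta = 0 := by decide
  have ha : ra (qf GE x) = 0 := by
    rw [h, ra_mul, ra_mul, rb_mul, t1, t2]; ring
  have hb : rb (qf GE x) = 0 := by
    rw [h, rb_mul, ra_mul, rb_mul, t1, t2]; ring
  rw [th_ra_qf, ← th_zero] at ha
  rw [th_rb_qf, ← th_zero] at hb
  unfold thChk at hchk
  rw [ha, hb] at hchk
  simp only [bne_self_eq_false, Bool.false_or] at hchk
  rw [thData_eq] at hchk
  obtain ⟨F, hF, hF2⟩ := List.any_eq_true.1 hchk
  obtain ⟨A, hA, rfl⟩ := List.mem_map.1 hF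
  have hcol : ∀ j : Fin 4, ra ((x ᵥ* A) j) = 0 ∧ rb ((x ᵥ* A) j) = 0 := by
    intro j
    apply th_col
    exact List.all_eq_true.1 hF2 _ (List.mem_map.2 ⟨j, by fin_cases j <;> simp, rfl⟩)
  have hz : x ᵥ* A = o 0 0 1 0 • (fun j => (⟨((x ᵥ* A) j).c, ((x ᵥ* A) j).d,
      ((x ᵥ* A) j).a / 3, ((x ᵥ* A) j).b / 3⟩ : OK)) := by
    funext j
    rw [Pi.smul_apply, smul_eq_mul]
    exact th_dvd (hcol j).1 (hcol j).2
  exact div_gen (w := o 0 1 1 0) (w' := o (-1) (-2) 1 1) (div_simTheta A hA) (by decide)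
    (by decide) (by decide) h hz

/-! ### Division by the elements of `deltas` -/

def divBase (N : ℕ) : OK := if N = 1 then 1 else if N = 4 then rho else theta
def divEp (c : ℕ) : OK := if c = 0 then 1 else eps1

theorem div_deltas : ∀ e ∈ deltas, e.1 = divBase e.2.1 * (divEp e.2.2.1 *
    (e.2.2.2.1 * e.2.2.2.1)) ∧ e.2.2.2.1 * e.2.2.2.2 = 1 := by decide +kernel

theorem div_delta {δ g : OK} {x : V} (hδ : ∃ e ∈ deltas, e.1 = δ)
    (h : qf GE x = 2 * (g * δ)) : ∃ y : V, qf GE y = 2 * g := by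
  obtain ⟨e, he, rfl⟩ := hδ
  obtain ⟨h1, h2⟩ := div_deltas e he
  have s1 : ∃ y : V, qf GE y = 2 * (divEp e.2.2.1 * (e.2.2.2.1 * e.2.2.2.1 * g)) := by
    have h3 : qf GE x = 2 * (divBase e.2.1 * (divEp e.2.2.1 * (e.2.2.2.1 * e.2.2.2.1 * g))) := by
      rw [h, h1]; ring
    unfold divBase at h3
    split_ifs at h3 with c1 c2
    · exact ⟨x, by rw [h3]; ring⟩
    · exact div_rho h3
    · exact div_theta h3
  obtain ⟨y1, hy1⟩ := s1
  have s2 : ∃ y : V, qf GE y = 2 * (e.2.2.2.1 * e.2.2.2.1 * g) := by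
    unfold divEp at hy1
    split_ifs at hy1 with c1
    · exact ⟨y1, by rw [hy1]; ring⟩
    · exact div_eps1 hy1
  obtain ⟨y2, hy2⟩ := s2
  exact div_scale h2 (z := y2) (by rw [hy2]; ring)

end Pool.Agent.Q5U
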