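import Pool.Agent.Q5U.Defs

/-!
# The four real embeddings, total positivity, norm and trace
-/

namespace Pool.Agent.Q5U

/-- `√3` at the `i`-th embedding (`i = 0, 1, 2, 3` : signs of `√3, √5` are `++, -+, +-, --`). -/
noncomputable def r3 (i : Fin 4) : ℝ := if i = 0 ∨ i = 2 then √3 else -√3

/-- `φ` at the `i`-th embedding. -/
noncomputable def fi (i : Fin 4) : ℝ := if i = 0 ∨ i = 1 then (1 + √5) / 2 else (1 - √5) / 2

theorem sqrt3_sq : √(3 : ℝ) * √3 = 3 := Real.mul_self_sqrt (by norm_num)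
theorem sqrt5_sq : √(5 : ℝ) * √5 = 5 := Real.mul_self_sqrt (by norm_num)

theorem r3_sq (i : Fin 4) : r3 i * r3 i = 3 := by
  unfold r3; split_ifs
  · exact sqrt3_sq
  · rw [neg_mul_neg]; exact sqrt3_sq

theorem fi_sq (i : Fin 4) : fi i * fi i = fi i + 1 := by
  unfold fi; split_ifs
  · linarith [sqrt5_sq]
  · linarith [sqrt5_sq]

/-- The `i`-th real embedding. -/
noncomputable def sg (i : Fin 4) : OK →+* ℝ where
  toFun x := x.a + x.b * fi i + (x.c + x.d * fi i) * r3 i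
  map_one' := by simp
  map_mul' x y := by
    simp only [OK.mul_a, OK.mul_b, OK.mul_c, OK.mul_d]
    push_cast
    have h1 := r3_sq i
    have h2 := fi_sq i
    linear_combination (-(x.b * y.b : ℝ) - (x.b * y.d + x.d * y.b : ℝ) * r3 i
      - 3 * (x.d * y.d : ℝ)) * h2
      - ((x.c + x.d * fi i) * (y.c + y.d * fi i) : ℝ) * h1
  map_zero' := by simp
  map_add' x y := by
    simp only [OK.add_a, OK.add_b, OK.add_c, OK.add_d]
    push_cast
    ring

theorem sg_apply (i : Fin 4) (x : OK) :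
    sg i x = x.a + x.b * fi i + (x.c + x.d * fi i) * r3 i := rfl

/-- Total positivity. -/
def TP (x : OK) : Prop := ∀ i, 0 < sg i x

theorem fi0 : fi 0 = (1 + √5) / 2 := by simp [fi]
theorem fi1 : fi 1 = (1 + √5) / 2 := by simp [fi]
theorem fi2 : fi 2 = (1 - √5) / 2 := by simp [fi]
theorem fi3 : fi 3 = (1 - √5) / 2 := by simp [fi]
theorem r30 : r3 0 = √3 := by simp [r3]
theorem r31 : r3 1 = -√3 := by simp [r3]
theorem r32 : r3 2 = √3 := by simp [r3]
theorem r33 : r3 3 = -√3 := by simp [r3]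

theorem forall_fin4 {P : Fin 4 → Prop} : (∀ i, P i) ↔ P 0 ∧ P 1 ∧ P 2 ∧ P 3 := by
  constructor
  · intro h; exact ⟨h 0, h 1, h 2, h 3⟩
  · rintro ⟨h0, h1, h2, h3⟩ i
    fin_cases i <;> assumption

theorem trc_eq (x : OK) : (trc x : ℝ) = ∑ i, sg i x := by
  simp only [Fin.sum_univ_four, sg_apply, fi0, fi1, fi2, fi3, r30, r31, r32, r33, trc]
  push_cast
  ring

theorem nm_eq (x : OK) : (nm x : ℝ) = ∏ i, sg i x := by
  simp only [Fin.prod_univ_four, sg_apply, fi0, fi1, fi2, fi3, r30, r31, r32, r33, nm, rel1, rel2]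
  push_cast
  have h3 := sqrt3_sq
  have h5 := sqrt5_sq
  set s := √(3 : ℝ)
  set t := √(5 : ℝ)
  have e1 : ((x.a : ℝ) + x.b * ((1 + t) / 2) + (x.c + x.d * ((1 + t) / 2)) * s)
      * (x.a + x.b * ((1 + t) / 2) + (x.c + x.d * ((1 + t) / 2)) * -s)
      = (x.a + x.b * ((1 + t) / 2)) ^ 2 - 3 * (x.c + x.d * ((1 + t) / 2)) ^ 2 := by
    linear_combination (-(x.c + x.d * ((1 + t) / 2)) ^ 2 : ℝ) * h3
  have e2 : ((x.a : ℝ) + x.b * ((1 - t) / 2) + (x.c + x.d * ((1 - t) / 2)) * s)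
      * (x.a + x.b * ((1 - t) / 2) + (x.c + x.d * ((1 - t) / 2)) * -s)
      = (x.a + x.b * ((1 - t) / 2)) ^ 2 - 3 * (x.c + x.d * ((1 - t) / 2)) ^ 2 := by
    linear_combination (-(x.c + x.d * ((1 - t) / 2)) ^ 2 : ℝ) * h3
  have e3 : ((x.a : ℝ) + x.b * ((1 + t) / 2)) ^ 2 - 3 * (x.c + x.d * ((1 + t) / 2)) ^ 2
      = (x.a * x.a + x.b * x.b - 3 * (x.c * x.c + x.d * x.d))
        + (2 * (x.a * x.b) + x.b * x.b - 3 * (2 * (x.c * x.d) + x.d * x.d)) * ((1 + t) / 2) := by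
    linear_combination ((x.b ^ 2 - 3 * x.d ^ 2) / 4 : ℝ) * h5
  have e4 : ((x.a : ℝ) + x.b * ((1 - t) / 2)) ^ 2 - 3 * (x.c + x.d * ((1 - t) / 2)) ^ 2
      = (x.a * x.a + x.b * x.b - 3 * (x.c * x.c + x.d * x.d))
        + (2 * (x.a * x.b) + x.b * x.b - 3 * (2 * (x.c * x.d) + x.d * x.d)) * ((1 - t) / 2) := by
    linear_combination ((x.b ^ 2 - 3 * x.d ^ 2) / 4 : ℝ) * h5
  rw [mul_assoc (_ * _), e1, e2, e3, e4]
  generalize (x.a * x.a + x.b * x.b - 3 * (x.c * x.c + x.d * x.d) : ℝ) = A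
  generalize (2 * (x.a * x.b) + x.b * x.b - 3 * (2 * (x.c * x.d) + x.d * x.d) : ℝ) = B
  linear_combination ((B ^ 2) / 4 : ℝ) * h5

/-- Positivity at both embeddings of `ℤ[φ]`. -/
theorem zpos_iff (m n : ℤ) :
    zpos m n = true ↔ 0 < (m : ℝ) + n * ((1 + √5) / 2) ∧ 0 < (m : ℝ) + n * ((1 - √5) / 2) := by
  have h5 := sqrt5_sq
  unfold zpos
  rw [Bool.and_eq_true, decide_eq_true_eq, decide_eq_true_eq]
  have hs : ((m : ℝ) + n * ((1 + √5) / 2)) + (m + n * ((1 - √5) / 2)) = ((2 * m + n : ℤ) : ℝ) := by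
    push_cast; ring
  have hp : ((m : ℝ) + n * ((1 + √5) / 2)) * (m + n * ((1 - √5) / 2))
      = ((m * m + m * n - n * n : ℤ) : ℝ) := by
    push_cast
    linear_combination (-(n : ℝ) ^ 2 / 4) * h5
  generalize (m : ℝ) + n * ((1 + √5) / 2) = u at *
  generalize (m : ℝ) + n * ((1 - √5) / 2) = v at *
  constructor
  · rintro ⟨h1, h2⟩
    have h1' : 0 < u + v := by rw [hs]; exact_mod_cast h1
    have h2' : 0 < u * v := by rw [hp]; exact_mod_cast h2
    rcases pos_and_pos_or_neg_and_neg_of_mul_pos h2' with h | h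
    · exact h
    · linarith [h.1, h.2]
  · rintro ⟨h1, h2⟩
    have h1' : 0 < u + v := by linarith
    have h2' : 0 < u * v := mul_pos h1 h2
    rw [hs] at h1'; rw [hp] at h2'
    exact ⟨by exact_mod_cast h1', by exact_mod_cast h2'⟩

theorem tpb_iff (x : OK) : tpb x = true ↔ TP x := by
  have h3 := sqrt3_sq
  have h5 := sqrt5_sq
  unfold tpb TP
  rw [Bool.and_eq_true, zpos_iff, zpos_iff, forall_fin4]
  simp only [sg_apply, fi0, fi1, fi2, fi3, r30, r31, r32, r33, rel1, rel2]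
  push_cast
  have e3 : (x.a * x.a + x.b * x.b - 3 * (x.c * x.c + x.d * x.d))
        + (2 * (x.a * x.b) + x.b * x.b - 3 * (2 * (x.c * x.d) + x.d * x.d)) * ((1 + √5) / 2)
      = ((x.a : ℝ) + x.b * ((1 + √5) / 2) + (x.c + x.d * ((1 + √5) / 2)) * √3)
      * (x.a + x.b * ((1 + √5) / 2) + (x.c + x.d * ((1 + √5) / 2)) * -√3) := by
    linear_combination (-((x.b ^ 2 - 3 * x.d ^ 2) / 4) : ℝ) * h5
      + ((x.c + x.d * ((1 + √5) / 2)) ^ 2 : ℝ) * h3
  have e4 : (x.a * x.a + x.b * x.b - 3 * (x.c * x.c + x.d * x.d))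
        + (2 * (x.a * x.b) + x.b * x.b - 3 * (2 * (x.c * x.d) + x.d * x.d)) * ((1 - √5) / 2)
      = ((x.a : ℝ) + x.b * ((1 - √5) / 2) + (x.c + x.d * ((1 - √5) / 2)) * √3)
      * (x.a + x.b * ((1 - √5) / 2) + (x.c + x.d * ((1 - √5) / 2)) * -√3) := by
    linear_combination (-((x.b ^ 2 - 3 * x.d ^ 2) / 4) : ℝ) * h5
      + ((x.c + x.d * ((1 - √5) / 2)) ^ 2 : ℝ) * h3
  rw [e3, e4]
  simp only [mul_neg]
  generalize (x.a : ℝ) + x.b * ((1 + √5) / 2) = u
  generalize (x.a : ℝ) + x.b * ((1 - √5) / 2) = v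
  generalize ((x.c : ℝ) + x.d * ((1 + √5) / 2)) * √3 = p
  generalize ((x.c : ℝ) + x.d * ((1 - √5) / 2)) * √3 = q
  have key : ∀ {u p : ℝ}, 0 < u → (0 < (u + p) * (u + -p) ↔ 0 < u + p ∧ 0 < u + -p) := by
    intro u p hu
    constructor
    · intro h
      rcases pos_and_pos_or_neg_and_neg_of_mul_pos h with h | h
      · exact h
      · linarith [h.1, h.2]
    · rintro ⟨h1, h2⟩
      exact mul_pos h1 h2
  constructor
  · rintro ⟨⟨hu, hv⟩, hp, hq⟩
    exact ⟨((key hu).1 hp).1, ((key hu).1 hp).2, ((key hv).1 hq).1, ((key hv).1 hq).2⟩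
  · rintro ⟨h1, h2, h3, h4⟩
    exact ⟨⟨by linarith, by linarith⟩, mul_pos h1 h2, mul_pos h3 h4⟩

theorem TP.mul {x y : OK} (hx : TP x) (hy : TP y) : TP (x * y) := by
  intro i
  rw [map_mul]
  exact mul_pos (hx i) (hy i)

theorem TP.add {x y : OK} (hx : TP x) (hy : TP y) : TP (x + y) := by
  intro i
  rw [map_add]
  exact add_pos (hx i) (hy i)

theorem TP.ne_zero {x : OK} (hx : TP x) : x ≠ 0 := by
  rintro rfl
  simpa using hx 0

theorem TP.of_mul {x y : OK} (hy : TP y) (hxy : TP (x * y)) : TP x := by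
  intro i
  have h := hxy i
  rw [map_mul] at h
  exact pos_of_mul_pos_left h (hy i).le

theorem TP.nm_pos {x : OK} (hx : TP x) : 0 < nm x := by
  have : (0 : ℝ) < nm x := by
    rw [nm_eq]
    exact Finset.prod_pos (fun i _ => hx i)
  exact_mod_cast this

theorem TP.trc_pos {x : OK} (hx : TP x) : 0 < trc x := by
  have : (0 : ℝ) < trc x := by
    rw [trc_eq]
    exact Finset.sum_pos (fun i _ => hx i) Finset.univ_nonempty
  exact_mod_cast this

theorem nm_mul (x y : OK) : nm (x * y) = nm x * nm y := by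
  have : (nm (x * y) : ℝ) = nm x * nm y := by
    simp only [nm_eq, map_mul, Finset.prod_mul_distrib]
  exact_mod_cast this

theorem nm_one : nm 1 = 1 := by decide

theorem no_sq {k : ℕ} (hk : Irrational (√(k : ℝ))) {u v : ℤ} (h : u * u = k * (v * v)) :
    v = 0 := by
  by_contra hv
  have hv' : (v : ℝ) ≠ 0 := by exact_mod_cast hv
  have h2 : ((u : ℝ) / v) ^ 2 = k := by
    field_simp
    have : (u : ℝ) * u = k * (v * v) := by exact_mod_cast h
    nlinarith
  have h3 : |(u : ℝ) / v| = √(k : ℝ) := by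
    rw [← Real.sqrt_sq_eq_abs, h2]
  apply hk
  refine ⟨|(u : ℚ) / v|, ?_⟩
  rw [← h3]
  push_cast
  rfl

theorem irr3 : Irrational (√((3 : ℕ) : ℝ)) := Nat.Prime.irrational_sqrt (by norm_num)
theorem irr5 : Irrational (√((5 : ℕ) : ℝ)) := Nat.Prime.irrational_sqrt (by norm_num)
theorem irr15 : Irrational (√((15 : ℕ) : ℝ)) := by
  rw [irrational_sqrt_natCast_iff]
  rintro ⟨r, hr⟩
  have : r < 4 := by nlinarith
  interval_cases r <;> omega

/-- `a + b φ ≠ 0` over `ℚ(√5)`: irrationality. -/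
theorem zphi_norm_eq_zero {m n : ℤ} (h : m * m + m * n - n * n = 0) : m = 0 ∧ n = 0 := by
  have h1 : (2 * m + n) * (2 * m + n) = 5 * (n * n) := by linarith
  have hn : n = 0 := no_sq irr5 (u := 2 * m + n) (v := n) (by exact_mod_cast h1)
  subst hn
  refine ⟨?_, rfl⟩
  have : m * m = 0 := by linarith
  exact mul_self_eq_zero.1 this

theorem nm_ne_zero {x : OK} (hx : x ≠ 0) : nm x ≠ 0 := by
  intro h
  apply hx
  have h1 := zphi_norm_eq_zero (m := rel1 x) (n := rel2 x) (by unfold nm at h; exact h)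
  obtain ⟨h2, h3⟩ := h1
  -- `A² = 3 C²` in `ℤ[φ]`
  unfold rel1 at h2
  unfold rel2 at h3
  have ha : x.a * x.a + x.b * x.b = 3 * (x.c * x.c + x.d * x.d) := by linarith
  have hb : 2 * (x.a * x.b) + x.b * x.b = 3 * (2 * (x.c * x.d) + x.d * x.d) := by linarith
  obtain ⟨u, hu⟩ : ∃ u, u = x.a * x.c + x.a * x.d - x.b * x.d := ⟨_, rfl⟩
  obtain ⟨v, hv⟩ : ∃ v, v = x.b * x.c - x.a * x.d := ⟨_, rfl⟩
  obtain ⟨w, hw⟩ : ∃ w, w = x.c * x.c + x.c * x.d - x.d * x.d := ⟨_, rfl⟩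
  have e1 : u * u + v * v = 3 * (w * w) := by
    subst hu hv hw
    linear_combination (x.c * x.c + 2 * x.c * x.d + 2 * x.d * x.d) * ha
      + (-2 * x.c * x.d - x.d * x.d) * hb
  have e2 : v * (2 * u + v) = 0 := by
    subst hu hv
    linear_combination (-2 * x.c * x.d - x.d * x.d) * ha
      + (x.c * x.c + x.d * x.d) * hb
  have hw0 : w = 0 := by
    rcases mul_eq_zero.1 e2 with h | h
    · rw [h] at e1
      exact no_sq irr3 (u := u) (v := w) (by push_cast; linarith)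
    · have : v = -2 * u := by linarith
      rw [this] at e1
      exact no_sq irr15 (u := 5 * u) (v := w) (by push_cast; linarith)
  rw [hw0] at hw
  obtain ⟨hc, hd⟩ := zphi_norm_eq_zero hw.symm
  rw [hc, hd] at ha hb
  have hab : x.a * x.a = 0 ∧ x.b * x.b = 0 := by
    constructor <;> nlinarith [mul_self_nonneg x.a, mul_self_nonneg x.b]
  ext
  · exact mul_self_eq_zero.1 hab.1
  · exact mul_self_eq_zero.1 hab.2
  · exact hc
  · exact hd

theorem sg_ne_zero {x : OK} (hx : x ≠ 0) (i : Fin 4) : sg i x ≠ 0 := by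
  intro h
  apply nm_ne_zero hx
  have : (nm x : ℝ) = 0 := by
    rw [nm_eq]
    exact Finset.prod_eq_zero (Finset.mem_univ i) h
  exact_mod_cast this

theorem sg_injective (i : Fin 4) : Function.Injective (sg i) := by
  rw [injective_iff_map_eq_zero]
  intro x hx
  by_contra h
  exact sg_ne_zero h i hx

instance : Nontrivial OK := ⟨⟨0, 1, by decide⟩⟩

instance : IsDomain OK :=
  (sg_injective 0).isDomain (sg 0)

instance : CharZero OK where
  cast_injective m n h := by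
    have := congrArg OK.a h
    simpa using this

end Pool.Agent.Q5U
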