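import Pool.Agent.Q5U.Emb

/-!
# The index of the ideal generated by `g` is the absolute value of the norm of `g`
-/

namespace Pool.Agent.Q5U

open Matrix

/-- Coordinates of an element of `OK`. -/
def coordEquiv : OK ≃ₗ[ℤ] (Fin 4 → ℤ) where
  toFun x := ![x.a, x.b, x.c, x.d]
  invFun v := ⟨v 0, v 1, v 2, v 3⟩
  map_add' x y := by
    funext i
    fin_cases i <;> simp
  map_smul' n x := by
    funext i
    fin_cases i <;> simp
  left_inv x := by ext <;> simp
  right_inv v := by
    funext i
    fin_cases i <;> simp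

/-- The basis `1, φ, √3, √3 φ`. -/
noncomputable def bas4 : Module.Basis (Fin 4) ℤ OK := Module.Basis.ofEquivFun coordEquiv

theorem bas4_apply (i : Fin 4) : bas4 i = coordEquiv.symm (Pi.single i 1) := by
  simp [bas4]

theorem bas4_repr (x : OK) (i : Fin 4) : bas4.repr x i = ![x.a, x.b, x.c, x.d] i := rfl

theorem card_quot {g : OK} (hg : g ≠ 0) :
    Nat.card (OK ⧸ Ideal.span {g}) = (nm g).natAbs := by
  haveI : Module.Free ℤ OK := Module.Free.of_basis bas4
  haveI : Module.Finite ℤ OK := Module.Finite.of_basis bas4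
  have h := Submodule.natAbs_det_basis_change bas4 ((Ideal.span {g}).restrictScalars ℤ)
    (Ideal.basisSpanSingleton bas4 hg)
  have h0 : Nat.card (OK ⧸ Ideal.span {g})
      = Nat.card (OK ⧸ (Ideal.span {g}).restrictScalars ℤ) := rfl
  rw [h0, ← h]
  congr 1
  rw [Module.Basis.det_apply]
  have hM : bas4.toMatrix ((↑) ∘ (Ideal.basisSpanSingleton bas4 hg) : Fin 4 → OK)
      = !![g.a, g.b, 3 * g.c, 3 * g.d; g.b, g.a + g.b, 3 * g.d, 3 * (g.c + g.d);
        g.c, g.d, g.a, g.b; g.d, g.c + g.d, g.b, g.a + g.b] := by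
    ext i j
    rw [Module.Basis.toMatrix_apply, Function.comp_apply, Ideal.basisSpanSingleton_apply,
      bas4_repr, bas4_apply]
    fin_cases i <;> fin_cases j <;> simp [coordEquiv]
  refine (congrArg Matrix.det hM).trans ?_
  rw [Matrix.det_succ_row_zero]
  simp [Fin.sum_univ_succ, Matrix.det_fin_three, Fin.succAbove, nm, rel1, rel2]
  ring

end Pool.Agent.Q5U
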