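import Pool.Agent.Q5U.Quot
import Pool.Agent.Q5U.EData

/-!
# Solutions of `s² + ε₁ t² + n = 0` in a finite ring in which `2` is a unit
-/

namespace Pool.Agent.Q5U

open Matrix

theorem finField_st {F : Type*} [Field F] [Finite F] (h2 : (2 : F) ≠ 0) {e : F} (he : e ≠ 0)
    (n : F) : ∃ s t : F, s ^ 2 + e * t ^ 2 + n = 0 := by
  classical
  haveI := Fintype.ofFinite F
  have hF : ringChar F ≠ 2 := by
    intro h
    apply h2
    have := ringChar.Nat.cast_ringChar (R := F)
    rw [h] at this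
    exact_mod_cast this
  have hf : (Polynomial.X ^ 2 + Polynomial.C n : Polynomial F).degree = 2 :=
    Polynomial.degree_X_pow_add_C (by norm_num) n
  have hg : (Polynomial.C e * Polynomial.X ^ 2 : Polynomial F).degree = 2 :=
    Polynomial.degree_C_mul_X_pow 2 he
  obtain ⟨a, b, hab⟩ := FiniteField.exists_root_sum_quadratic hf hg
    (FiniteField.odd_card_of_char_ne_two hF)
  refine ⟨a, b, ?_⟩
  simp only [Polynomial.eval_add, Polynomial.eval_pow, Polynomial.eval_X, Polynomial.eval_C,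
    Polynomial.eval_mul] at hab
  linear_combination hab

/-- Solutions modulo the nilradical. -/
theorem finRing_st_nil {R : Type*} [CommRing R] [Finite R] (h2 : IsUnit (2 : R)) {e : R}
    (he : IsUnit e) (n : R) : ∃ s t : R, IsNilpotent (s ^ 2 + e * t ^ 2 + n) := by
  have hloc : ∀ m : MaximalSpectrum R, ∃ s t : R,
      (Ideal.Quotient.mk m.asIdeal) (s ^ 2 + e * t ^ 2 + n) = 0 := by
    intro m
    haveI := m.isMaximal
    haveI : Finite (R ⧸ m.asIdeal) :=
      Finite.of_surjective _ (Ideal.Quotient.mk_surjective (I := m.asIdeal))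
    letI := Ideal.Quotient.field m.asIdeal
    have h2' : (2 : R ⧸ m.asIdeal) ≠ 0 := by
      have := (h2.map (Ideal.Quotient.mk m.asIdeal)).ne_zero
      rwa [map_ofNat] at this
    have he' : (Ideal.Quotient.mk m.asIdeal e) ≠ 0 :=
      (he.map (Ideal.Quotient.mk m.asIdeal)).ne_zero
    obtain ⟨s, t, hst⟩ := finField_st h2' he' (Ideal.Quotient.mk m.asIdeal n)
    obtain ⟨s, rfl⟩ := Ideal.Quotient.mk_surjective s
    obtain ⟨t, rfl⟩ := Ideal.Quotient.mk_surjective t
    exact ⟨s, t, by simpa only [map_add, map_mul, map_pow] using hst⟩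
  choose S T hST using hloc
  have hcop : Pairwise (Function.onFun IsCoprime (fun m : MaximalSpectrum R => m.asIdeal)) :=
    fun m m' hne => Ideal.isCoprime_of_isMaximal (fun h => hne (MaximalSpectrum.ext h))
  obtain ⟨s, hs⟩ := Ideal.pi_quotient_surjective hcop (fun m => Ideal.Quotient.mk m.asIdeal (S m))
  obtain ⟨t, ht⟩ := Ideal.pi_quotient_surjective hcop (fun m => Ideal.Quotient.mk m.asIdeal (T m))
  refine ⟨s, t, ?_⟩
  rw [← mem_nilradical, IsArtinianRing.nilradical_eq_iInf, Ideal.mem_iInf]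
  intro m
  rw [← Ideal.Quotient.eq_zero_iff_mem, ← hST m]
  simp only [map_add, map_mul, map_pow]
  have h1 := hs m
  have h2 := ht m
  rw [h1, h2]

/-- In a finite commutative ring in which `2`, `e`, `n` are units the form `s² + e t²` represents
`-n`. -/
theorem finRing_st {R : Type*} [CommRing R] [Finite R] (h2 : IsUnit (2 : R)) {e : R}
    (he : IsUnit e) {n : R} (hn : IsUnit n) : ∃ s t : R, s ^ 2 + e * t ^ 2 + n = 0 := by
  obtain ⟨s, t, hst⟩ := finRing_st_nil h2 he n
  obtain ⟨n', hn'⟩ := hn.exists_right_inv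
  -- `1 + v` with `v = - n' (s² + e t² + n)`
  set w := s ^ 2 + e * t ^ 2 + n with hw
  have hnil : IsNilpotent (n' * w) := (Commute.all n' w).isNilpotent_mul_left hst
  set P : Polynomial R := Polynomial.X ^ 2 - Polynomial.C (1 - n' * w) with hP
  have hP1 : Polynomial.aeval (1 : R) P = n' * w := by
    simp [hP]
  have hP2 : Polynomial.aeval (1 : R) (Polynomial.derivative P) = 2 := by
    simp [hP]
    norm_num
  obtain ⟨r, ⟨hr1, hr2⟩, -⟩ := Polynomial.existsUnique_nilpotent_sub_and_aeval_eq_zero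
    (P := P) (x := (1 : R)) (by rw [hP1]; exact hnil) (by rw [hP2]; exact h2)
  have hr3 : r ^ 2 = 1 - n' * w := by
    have : r ^ 2 - (1 - n' * w) = 0 := by simpa [hP] using hr2
    linear_combination this
  have hru : IsUnit (r ^ 2) := by
    rw [hr3]
    exact hnil.isUnit_one_sub
  have hru' : IsUnit r := (isUnit_pow_iff two_ne_zero).1 hru
  obtain ⟨r', hr'⟩ := hru'.exists_right_inv
  refine ⟨r' * s, r' * t, ?_⟩
  -- `s² + e t² = w - n = -n r²`
  have h5 : s ^ 2 + e * t ^ 2 = - n * r ^ 2 := by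
    rw [hr3]
    linear_combination -hw - w * hn'
  have h6 : r ^ 2 * r' ^ 2 = 1 := by
    rw [← mul_pow, hr', one_pow]
  linear_combination r' ^ 2 * h5 - n * h6

theorem exists_st {g : OK} (hg : g ≠ 0) (h2 : IsCoprime g 2) {n : OK} (hn : IsCoprime g n) :
    ∃ s t : OK, g ∣ s ^ 2 + eps1 * t ^ 2 + n := by
  haveI : Finite (OK ⧸ Ideal.span {g}) := by
    apply Nat.finite_of_card_ne_zero
    rw [card_quot hg]
    simpa using nm_ne_zero hg
  have hunit : ∀ {x : OK}, IsCoprime g x → IsUnit (Ideal.Quotient.mk (Ideal.span {g}) x) := by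
    rintro x ⟨u, v, huv⟩
    refine IsUnit.of_mul_eq_one (Ideal.Quotient.mk (Ideal.span {g}) v) ?_
    rw [← map_mul, ← map_one (Ideal.Quotient.mk (Ideal.span {g})), Ideal.Quotient.eq,
      Ideal.mem_span_singleton']
    exact ⟨-u, by linear_combination -huv⟩
  have heps : IsUnit (Ideal.Quotient.mk (Ideal.span {g}) eps1) := by
    refine IsUnit.map _ (IsUnit.of_mul_eq_one eps ?_)
    decide
  obtain ⟨s, t, hst⟩ := finRing_st
    (by have := hunit h2; rwa [map_ofNat] at this) heps (hunit hn)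
  obtain ⟨s, rfl⟩ := Ideal.Quotient.mk_surjective s
  obtain ⟨t, rfl⟩ := Ideal.Quotient.mk_surjective t
  refine ⟨s, t, ?_⟩
  rw [← map_pow, ← map_pow, ← map_mul, ← map_add, ← map_add, Ideal.Quotient.eq_zero_iff_mem,
    Ideal.mem_span_singleton] at hst
  exact hst

end Pool.Agent.Q5U
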