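import Pool.Agent.Q5U.Pos

/-!
# The real form attached to a totally positive element
-/

namespace Pool.Agent.Q5U

open Matrix

/-- The vector with the given integer coordinates. -/
def uncoord (c : Fin 4 × Fin 4 → ℤ) : V := fun j => ⟨c (j, 0), c (j, 1), c (j, 2), c (j, 3)⟩

/-- The basis. -/
def tform_bas : Fin 4 → OK := ![o 1 0 0 0, o 0 1 0 0, o 0 0 1 0, o 0 0 0 1]

/-- The matrix of the embeddings of the basis. -/
noncomputable def tform_S : Matrix (Fin 4) (Fin 4) ℝ := Matrix.of fun k i => sg i (tform_bas k)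

def tform_T : Matrix (Fin 4) (Fin 4) ℤ := !![4, 2, 0, 0; 2, 6, 0, 0; 0, 0, 12, 6; 0, 0, 6, 18]

theorem tform_T_eq (k l : Fin 4) : trc (tform_bas k * tform_bas l) = tform_T k l := by
  revert k l; decide

theorem tform_SS : tform_S * tform_Sᵀ = tform_T.map (Int.castRingHom ℝ) := by
  ext k l
  rw [Matrix.mul_apply]
  simp only [tform_S, Matrix.of_apply, Matrix.transpose_apply, Matrix.map_apply, ← map_mul]
  rw [← trc_eq, tform_T_eq]
  rfl

theorem tform_detS : tform_S.det ^ 2 = 3600 := by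
  have h1 : tform_S.det ^ 2 = (tform_S * tform_Sᵀ).det := by
    rw [Matrix.det_mul, Matrix.det_transpose, sq]
  rw [h1, tform_SS]
  have h2 : ((Int.castRingHom ℝ).mapMatrix tform_T).det = Int.castRingHom ℝ tform_T.det :=
    (RingHom.map_det _ _).symm
  have h3 : tform_T.det = 3600 := by decide
  rw [RingHom.mapMatrix_apply] at h2
  rw [h2, h3]
  norm_num

/-- The first factor. -/
noncomputable def tform_A : Matrix (Fin 4 × Fin 4) (Fin 4 × Fin 4) ℝ :=
  Matrix.kroneckerMap (· * ·) (1 : Matrix (Fin 4) (Fin 4) ℝ) tform_Sᵀ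

theorem tform_detA : tform_A.det ^ 2 = 3600 ^ 4 := by
  have : tform_A.det = tform_S.det ^ 4 := by
    unfold tform_A
    have := Matrix.det_kronecker (1 : Matrix (Fin 4) (Fin 4) ℝ) tform_Sᵀ
    rw [this]
    simp
  rw [this]
  calc (tform_S.det ^ 4) ^ 2 = (tform_S.det ^ 2) ^ 4 := by ring
    _ = _ := by rw [tform_detS]

theorem tform_A_mulVec (c : Fin 4 × Fin 4 → ℤ) (j i : Fin 4) :
    tform_A.mulVec (fun k => (c k : ℝ)) (j, i) = sg i (uncoord c j) := by
  unfold tform_A
  simp only [Matrix.mulVec, dotProduct, Fintype.sum_prod_type, Matrix.kroneckerMap_apply,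
    Matrix.one_apply, Matrix.transpose_apply]
  rw [Finset.sum_eq_single j]
  · simp only [if_true, one_mul, Fin.sum_univ_four, tform_S, Matrix.of_apply, tform_bas]
    simp [sg_apply, uncoord, o]
    ring
  · intro b _ hb
    simp [hb.symm]
  · simp

/-- The second factor. -/
noncomputable def tform_B : Matrix (Fin 4 × Fin 4) (Fin 4 × Fin 4) ℝ :=
  Matrix.blockDiagonal (fun i => ((sg i).mapMatrix CC)ᵀ)

theorem tform_detB : tform_B.det = 16384 := by
  have h : nm CC.det = 16384 := by decide +kernel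
  have h1 := nm_eq CC.det
  rw [h] at h1
  unfold tform_B
  rw [Matrix.det_blockDiagonal]
  have : ∀ i, (((sg i).mapMatrix CC)ᵀ).det = sg i CC.det := by
    intro i
    rw [Matrix.det_transpose, ← RingHom.map_det]
  rw [Finset.prod_congr rfl (fun i _ => this i), ← h1]
  norm_num

theorem tform_B_mulVec (x : V) (l i : Fin 4) :
    tform_B.mulVec (fun p => sg p.2 (x p.1)) (l, i) = sg i ((x ᵥ* CC) l) := by
  unfold tform_B
  simp only [Matrix.mulVec, dotProduct, Fintype.sum_prod_type, Matrix.blockDiagonal_apply,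
    Matrix.vecMul, map_sum, map_mul]
  refine Finset.sum_congr rfl (fun j _ => ?_)
  rw [Finset.sum_eq_single i]
  · simp [mul_comm]
  · intro b _ hb
    simp [hb.symm]
  · simp

/-- The weights of the frame. -/
def tform_f : Fin 4 → OK := ![1, eps1, nn, eps1 * nn]

theorem tform_f_pos (l i : Fin 4) : 0 < sg i (tform_f l) := by
  fin_cases l
  · show 0 < sg i 1
    rw [map_one]; exact one_pos
  · exact pos_eps1 i
  · exact pos_nn i
  · exact (pos_eps1.mul pos_nn) i

theorem tform_f_prod (i : Fin 4) : ∏ l, sg i (tform_f l) = sg i (eps1 * nn) ^ 2 := by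
  simp [Fin.prod_univ_four, tform_f, map_mul]
  ring

/-- The diagonal entries. -/
noncomputable def tform_d (g : OK) (p : Fin 4 × Fin 4) : ℝ :=
  √(2 * sg p.2 (tform_f p.1) / (sg p.2 gg * sg p.2 g)) / sg p.2 (o 2 0 0 0 * ppi)

theorem tform_gg : TP gg := (tpb_iff _).1 (by decide)

theorem tform_d_sq {g : OK} (hg : TP g) (p : Fin 4 × Fin 4) :
    tform_d g p ^ 2 = 2 * sg p.2 (tform_f p.1) / (sg p.2 gg * sg p.2 g)
      / sg p.2 (o 2 0 0 0 * ppi) ^ 2 := by
  unfold tform_d
  have h1 := tform_f_pos p.1 p.2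
  have h2 := tform_gg p.2
  have h3 := hg p.2
  rw [div_pow, Real.sq_sqrt (by positivity)]

theorem tform_prod_d {g : OK} (hg : TP g) :
    (∏ p, tform_d g p) ^ 2 * ((nm g : ℝ) ^ 4 * 3600 ^ 4 * 16384 ^ 2) = 1 := by
  rw [← Finset.prod_pow]
  rw [Finset.prod_congr rfl (fun p _ => tform_d_sq hg p)]
  rw [Fintype.prod_prod_type, Finset.prod_comm]
  have hfac : ∀ i : Fin 4, (∏ l : Fin 4, 2 * sg i (tform_f l) / (sg i gg * sg i g)
      / sg i (o 2 0 0 0 * ppi) ^ 2) * (sg i gg ^ 4 * sg i g ^ 4 * sg i (o 2 0 0 0 * ppi) ^ 8)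
      = 16 * sg i (eps1 * nn) ^ 2 := by
    intro i
    have h2 : sg i gg ≠ 0 := (tform_gg i).ne'
    have h3 : sg i g ≠ 0 := (hg i).ne'
    have h4 : sg i (o 2 0 0 0 * ppi) ≠ 0 := sg_ne_zero (by decide) i
    rw [← tform_f_prod i]
    simp only [Fin.prod_univ_four]
    field_simp
    ring
  have hall := Finset.prod_congr (rfl : (Finset.univ : Finset (Fin 4)) = Finset.univ)
    (fun i _ => hfac i)
  rw [Finset.prod_mul_distrib, Finset.prod_mul_distrib, Finset.prod_mul_distrib,
    Finset.prod_mul_distrib, Finset.prod_pow, Finset.prod_pow, Finset.prod_pow, Finset.prod_pow,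
    ← nm_eq, ← nm_eq, ← nm_eq, ← nm_eq] at hall
  have e1 : nm gg = 3600 := by decide
  have e2 : nm (o 2 0 0 0 * ppi) = 64 := by decide
  have e3 : nm (eps1 * nn) = 4 := by decide
  rw [e1, e2, e3] at hall
  simp only [Finset.prod_const, Finset.card_univ, Fintype.card_fin] at hall
  push_cast at hall
  have : (0 : ℝ) ≠ 64 ^ 8 := by norm_num
  norm_num at hall ⊢
  linarith

theorem exists_Phi {g : OK} (hg : TP g) :
    ∃ Φ : Matrix (Fin 4 × Fin 4) (Fin 4 × Fin 4) ℝ, Φ.det ≠ 0 ∧ (nm g : ℝ) ^ 2 * |Φ.det| = 1 ∧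
      ∀ c : Fin 4 × Fin 4 → ℤ, ∑ p, (Φ.mulVec (fun k => (c k : ℝ)) p) ^ 2
        = ∑ i, sg i (qf GE (uncoord c)) / (sg i gg * sg i g) := by
  have hdet : (Matrix.diagonal (tform_d g) * tform_B * tform_A).det
      = (∏ p, tform_d g p) * 16384 * tform_A.det := by
    rw [Matrix.det_mul, Matrix.det_mul, Matrix.det_diagonal, tform_detB]
  have hsq : ((nm g : ℝ) ^ 2 * |(Matrix.diagonal (tform_d g) * tform_B * tform_A).det|) ^ 2
      = 1 := by
    rw [mul_pow, sq_abs, hdet, mul_pow, mul_pow, tform_detA, ← tform_prod_d hg]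
    ring
  have hone : (nm g : ℝ) ^ 2 * |(Matrix.diagonal (tform_d g) * tform_B * tform_A).det| = 1 := by
    have h0 : 0 ≤ (nm g : ℝ) ^ 2 * |(Matrix.diagonal (tform_d g) * tform_B * tform_A).det| := by
      positivity
    exact (pow_eq_one_iff_of_nonneg h0 (by norm_num)).1 hsq
  refine ⟨Matrix.diagonal (tform_d g) * tform_B * tform_A, ?_, hone, ?_⟩
  · intro h
    rw [h] at hone
    simp at hone
  · intro c
    have hval : ∀ l i, (Matrix.diagonal (tform_d g) * tform_B * tform_A).mulVec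
        (fun k => (c k : ℝ)) (l, i) = tform_d g (l, i) * sg i ((uncoord c ᵥ* CC) l) := by
      intro l i
      rw [← Matrix.mulVec_mulVec, ← Matrix.mulVec_mulVec, Matrix.mulVec_diagonal]
      congr 1
      have : tform_A.mulVec (fun k => (c k : ℝ)) = fun p => sg p.2 (uncoord c p.1) := by
        funext p
        exact tform_A_mulVec c p.1 p.2
      rw [this]
      exact tform_B_mulVec (uncoord c) l i
    rw [Fintype.sum_prod_type, Finset.sum_comm]
    refine Finset.sum_congr rfl (fun i _ => ?_)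
    have hfr := congrArg (sg i) (frame (uncoord c))
    simp only [hval]
    have h2 : sg i gg ≠ 0 := (tform_gg i).ne'
    have h3 : sg i g ≠ 0 := (hg i).ne'
    have h4 : sg i (o 2 0 0 0 * ppi) ≠ 0 := sg_ne_zero (by decide) i
    have hterm : ∀ l, (tform_d g (l, i) * sg i ((uncoord c ᵥ* CC) l)) ^ 2
        = (2 * sg i (tform_f l) / (sg i gg * sg i g) / sg i (o 2 0 0 0 * ppi) ^ 2)
          * sg i ((uncoord c ᵥ* CC) l) ^ 2 := by
      intro l
      rw [mul_pow, tform_d_sq hg]
    rw [Finset.sum_congr rfl (fun l _ => hterm l), Fin.sum_univ_four]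
    rw [map_mul, map_mul] at hfr
    have e0 : tform_f 0 = 1 := rfl
    have e1 : tform_f 1 = eps1 := rfl
    have e2 : tform_f 2 = nn := rfl
    have e3 : tform_f 3 = eps1 * nn := rfl
    rw [e0, e1, e2, e3]
    simp only [map_mul, map_add, map_pow, map_ofNat, map_one] at hfr h4 ⊢
    set P := sg i (o 2 0 0 0) * sg i ppi
    have : sg i (qf GE (uncoord c)) = 2 * (sg i ((uncoord c ᵥ* CC) 0) ^ 2
        + sg i eps1 * sg i ((uncoord c ᵥ* CC) 1) ^ 2 + sg i nn * sg i ((uncoord c ᵥ* CC) 2) ^ 2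
        + sg i eps1 * sg i nn * sg i ((uncoord c ᵥ* CC) 3) ^ 2) / P ^ 2 := by
      rw [eq_div_iff (pow_ne_zero 2 h4), ← hfr]
      ring
    rw [this]
    field_simp

end Pool.Agent.Q5U
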