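import Pool.Agent.Q5U.Res
import Pool.Agent.Q5U.Pos
import Pool.Agent.Q5U.Quot
import Pool.Agent.Q5U.St
import Pool.Agent.Q5U.Bli
import Pool.Agent.Q5U.Tform
import Pool.Agent.Q5U.Delta
import Pool.Agent.Q5U.Div

/-!
# The lattice `E` represents every totally positive element (twice)
-/

namespace Pool.Agent.Q5U

open Matrix

theorem TP_gg : TP gg := (tpb_iff gg).1 (by decide)
theorem TP_rho : TP rho := (tpb_iff rho).1 (by decide)

theorem TP_two : TP (2 : OK) := by
  intro i
  rw [map_ofNat]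
  norm_num

theorem coprime_ppi {g : OK} (h2 : IsCoprime g 2) : IsCoprime g ppi := by
  have h : (2 : OK) = ppi * o (-1) 0 1 0 := by decide
  rw [h] at h2
  exact IsCoprime.of_mul_right_left h2

theorem coprime_nn {g : OK} (h2 : IsCoprime g 2) : IsCoprime g nn := by
  have h : (2 : OK) = nn * o 2 1 0 (-1) := by decide
  rw [h] at h2
  exact IsCoprime.of_mul_right_left h2

theorem uncoord_sub (x y : Fin 4 × Fin 4 → ℤ) :
    uncoord (fun k => x k - y k) = uncoord x - uncoord y := by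
  funext j
  ext <;> simp [uncoord]

theorem uncoord_eq_zero {c : Fin 4 × Fin 4 → ℤ} (h : uncoord c = 0) : c = 0 := by
  funext ⟨j, k⟩
  have hj := congrFun h j
  have ha := congrArg OK.a hj
  have hb := congrArg OK.b hj
  have hc := congrArg OK.c hj
  have hd := congrArg OK.d hj
  simp only [uncoord, Pi.zero_apply, OK.zero_a, OK.zero_b, OK.zero_c, OK.zero_d] at ha hb hc hd
  fin_cases k
  · exact ha
  · exact hb
  · exact hc
  · exact hd

/-- The two linear conditions modulo `g`, as a map to a finite set. -/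
noncomputable def Hmap (g s t : OK) (c : Fin 4 × Fin 4 → ℤ) :
    (OK ⧸ Ideal.span {g}) × (OK ⧸ Ideal.span {g}) :=
  (Ideal.Quotient.mk _ ((uncoord c ᵥ* CC) 0 - s * (uncoord c ᵥ* CC) 2
      + eps1 * t * (uncoord c ᵥ* CC) 3),
   Ideal.Quotient.mk _ ((uncoord c ᵥ* CC) 1 - s * (uncoord c ᵥ* CC) 3
      - t * (uncoord c ᵥ* CC) 2))

theorem E_odd {g : OK} (hg : TP g) (h2 : IsCoprime g 2) : ∃ x : V, qf GE x = 2 * g := by
  obtain ⟨s, t, hst⟩ := exists_st hg.ne_zero h2 (coprime_nn h2)
  obtain ⟨Φ, hΦ, hdet, hform⟩ := exists_Phi hg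
  have hcard := card_quot hg.ne_zero
  have hnm : 0 < nm g := hg.nm_pos
  have hfin : Finite (OK ⧸ Ideal.span {g}) := by
    apply Nat.finite_of_card_ne_zero
    rw [hcard]
    omega
  have hS : (Nat.card ((OK ⧸ Ideal.span {g}) × (OK ⧸ Ideal.span {g})) : ℝ) * |Φ.det| ≤ 1 := by
    rw [Nat.card_prod, hcard]
    have h1 : (((nm g).natAbs : ℕ) : ℝ) = (nm g : ℝ) := by
      rw [Nat.cast_natAbs, abs_of_pos hnm]
    rw [Nat.cast_mul, h1, ← sq, hdet]
  obtain ⟨x, y, hxy, hH, hlt⟩ := blichfeldt16 (ι := Fin 4 × Fin 4) (by simp) Φ hΦ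
    (Hmap g s t) hS
  rw [hform (fun k => x k - y k)] at hlt
  set v : V := uncoord (fun k => x k - y k) with hv
  have hv' : v = uncoord x - uncoord y := uncoord_sub x y
  have hv0 : v ≠ 0 := by
    intro h
    apply hxy
    have := uncoord_eq_zero h
    funext k
    have := congrFun this k
    simp only [Pi.zero_apply] at this
    omega
  have hC : ∀ l, (v ᵥ* CC) l = (uncoord x ᵥ* CC) l - (uncoord y ᵥ* CC) l := by
    intro l
    rw [hv', Matrix.sub_vecMul, Pi.sub_apply]
  simp only [Hmap, Prod.mk.injEq, Ideal.Quotient.eq, Ideal.mem_span_singleton] at hH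
  obtain ⟨⟨k1, h1⟩, k2, hk2⟩ := hH
  obtain ⟨k3, hk3⟩ := hst
  obtain ⟨q, hq⟩ := GE_even v
  have hfr := frame v
  have e1 : (v ᵥ* CC) 0 - s * (v ᵥ* CC) 2 + eps1 * t * (v ᵥ* CC) 3 = g * k1 := by
    rw [← h1, hC 0, hC 2, hC 3]; ring
  have e2 : (v ᵥ* CC) 1 - s * (v ᵥ* CC) 3 - t * (v ᵥ* CC) 2 = g * k2 := by
    rw [← hk2, hC 1, hC 2, hC 3]; ring
  generalize (v ᵥ* CC) 0 = X at *
  generalize (v ᵥ* CC) 1 = Y at *
  generalize (v ᵥ* CC) 2 = Z at *
  generalize (v ᵥ* CC) 3 = U at *
  have hdvd : g ∣ (2 * 2 * ppi * (2 * ppi)) * q := by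
    have h4 : (o 2 0 0 0 : OK) = 2 := by decide
    rw [h4, hq] at hfr
    have hX : X = g * k1 + s * Z - eps1 * t * U := by linear_combination e1
    have hY : Y = g * k2 + s * U + t * Z := by linear_combination e2
    have : (2 * 2 * ppi * (2 * ppi)) * q
        = g * (2 * (k1 * (g * k1 + 2 * (s * Z - eps1 * t * U))
            + eps1 * (k2 * (g * k2 + 2 * (s * U + t * Z)))
            + k3 * (Z ^ 2 + eps1 * U ^ 2))) := by
      rw [hX, hY] at hfr
      linear_combination hfr + 2 * (Z ^ 2 + eps1 * U ^ 2) * hk3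
    exact ⟨_, this⟩
  have hcop : IsCoprime g (2 * 2 * ppi * (2 * ppi)) :=
    ((h2.mul_right h2).mul_right (coprime_ppi h2)).mul_right (h2.mul_right (coprime_ppi h2))
  obtain ⟨δ, rfl⟩ := hcop.dvd_of_dvd_mul_left hdvd
  have hδ : TP δ := by
    have h3 := GE_pos hv0
    rw [hq] at h3
    have h4 : (2 : OK) * (g * δ) = δ * (2 * g) := by ring
    rw [h4] at h3
    exact TP.of_mul (TP_two.mul hg) h3
  have hell := ell_eq δ
  have hsum : ∑ i, sg i (qf GE v) / (sg i gg * sg i g) = 2 * (ell δ : ℝ) := by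
    rw [hell, Finset.mul_sum]
    apply Finset.sum_congr rfl
    intro i _
    rw [hq, map_mul, map_mul, map_ofNat]
    have a1 := (hg i).ne'
    have a2 := (TP_gg i).ne'
    field_simp
  have hpos : (0 : ℝ) < ell δ := by
    rw [hell]
    exact Finset.sum_pos (fun i _ => div_pos (hδ i) (TP_gg i)) Finset.univ_nonempty
  rw [hsum] at hlt
  have hone : ell δ = 1 := by
    have b1 : 0 < ell δ := by exact_mod_cast hpos
    have b2 : (ell δ : ℝ) < 2 := by linarith
    have b3 : ell δ < 2 := by exact_mod_cast b2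
    omega
  exact div_delta (delta_mem hδ hone) hq

theorem coprime_two_of_cl {g : OK} (h : cl g ≠ 0) : IsCoprime g 2 := by
  have h1 : cl (g * (g * g)) = cl 1 := by
    rw [cl_mul, cl_mul]
    have := cl_lt g
    generalize cl g = r at *
    interval_cases r
    · exact absurd rfl h
    all_goals decide
  obtain ⟨k, hk⟩ := (cl_eq_iff _ _).1 h1
  have h2 : ppi * ppi = 2 * eps1 := by decide
  refine ⟨2 * g ^ 2 - g ^ 5, eps1 * k ^ 2, ?_⟩
  linear_combination (-(g * (g * g) - 1) - ppi * k) * hk - k ^ 2 * h2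

theorem E_univ {g : OK} (hg : TP g) : ∃ x : V, qf GE x = 2 * g := by
  obtain ⟨n, hn⟩ : ∃ n : ℕ, nm g = n := ⟨(nm g).toNat, by have := hg.nm_pos; omega⟩
  induction n using Nat.strong_induction_on generalizing g with
  | _ n ih =>
    by_cases h : cl g = 0
    · have h0 : cl g = cl 0 := by rw [h]; decide
      obtain ⟨k, hk⟩ := (cl_eq_iff _ _).1 h0
      have hr : ppi = rho * o 3 (-2) 2 (-1) := by decide
      set g' : OK := o 3 (-2) 2 (-1) * k with hg'
      have hgg : g = rho * g' := by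
        rw [sub_zero] at hk
        rw [hk, hr, hg']
        ring
      have hTP : TP g' := by
        apply TP.of_mul TP_rho
        rw [mul_comm, ← hgg]
        exact hg
      have hm : nm g = 4 * nm g' := by
        rw [hgg, nm_mul]
        have : nm rho = 4 := by decide
        rw [this]
      have hpos := hTP.nm_pos
      obtain ⟨x, hx⟩ := ih (nm g').toNat (by omega) hTP (by omega)
      obtain ⟨y, hy⟩ := mul_rho hx
      exact ⟨y, by rw [hy, ← hgg]⟩
    · exact E_odd hg (coprime_two_of_cl h)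

end Pool.Agent.Q5U
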