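import Mathlib

/-! EXK: the field `Q(sqrt 3, sqrt 5)` exists. -/

set_option autoImplicit false

namespace Pool.Agent.Q5U

theorem exk_rat_sq3 (r : ℚ) : r ^ 2 ≠ 3 + 0 * r := by
  intro h
  have h3 : Irrational (Real.sqrt (3 : ℕ)) := Nat.Prime.irrational_sqrt (by norm_num)
  have hr : ((|r| : ℚ) : ℝ) ^ 2 = 3 := by
    have : (|r|) ^ 2 = (3 : ℚ) := by rw [sq_abs]; linarith
    exact_mod_cast this
  apply h3
  refine ⟨|r|, ?_⟩
  have h0 : (0 : ℝ) ≤ ((|r| : ℚ) : ℝ) := by exact_mod_cast abs_nonneg r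
  rw [← Real.sqrt_sq h0, hr]
  norm_num

theorem exk_rat_sq5 (r : ℚ) : r ^ 2 ≠ 5 := by
  intro h
  have h3 : Irrational (Real.sqrt (5 : ℕ)) := Nat.Prime.irrational_sqrt (by norm_num)
  have hr : ((|r| : ℚ) : ℝ) ^ 2 = 5 := by
    have : (|r|) ^ 2 = (5 : ℚ) := by rw [sq_abs]; linarith
    exact_mod_cast this
  apply h3
  refine ⟨|r|, ?_⟩
  have h0 : (0 : ℝ) ≤ ((|r| : ℚ) : ℝ) := by exact_mod_cast abs_nonneg r
  rw [← Real.sqrt_sq h0, hr]
  norm_num

theorem exk_rat_3sq5 (r : ℚ) : 3 * r ^ 2 ≠ 5 := by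
  intro h
  have h3 : Irrational (Real.sqrt ((15 : ℕ) : ℝ)) := by
    rw [irrational_sqrt_natCast_iff]
    rintro ⟨k, hk⟩
    have : k ≤ 3 := by nlinarith
    interval_cases k <;> omega
  have hr : ((|3 * r| : ℚ) : ℝ) ^ 2 = 15 := by
    have : (|3 * r|) ^ 2 = (15 : ℚ) := by rw [sq_abs]; linarith
    exact_mod_cast this
  apply h3
  refine ⟨|3 * r|, ?_⟩
  have h0 : (0 : ℝ) ≤ ((|3 * r| : ℚ) : ℝ) := by exact_mod_cast abs_nonneg (3 * r)
  rw [← Real.sqrt_sq h0, hr]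
  norm_num

instance exk_fact1 : Fact (∀ r : ℚ, r ^ 2 ≠ 3 + 0 * r) := ⟨exk_rat_sq3⟩

theorem exk_fact2' (x : QuadraticAlgebra ℚ 3 0) : x ^ 2 ≠ 5 + 0 * x := by
  intro h
  rw [zero_mul, add_zero, pow_two] at h
  have h1 := congrArg QuadraticAlgebra.re h
  have h2 := congrArg QuadraticAlgebra.im h
  simp only [QuadraticAlgebra.re_mul, QuadraticAlgebra.im_mul] at h1 h2
  have e5r : (5 : QuadraticAlgebra ℚ 3 0).re = 5 := rfl
  have e5i : (5 : QuadraticAlgebra ℚ 3 0).im = 0 := rfl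
  rw [e5r] at h1
  rw [e5i] at h2
  have h3 : x.re * x.im = 0 := by linarith
  rcases mul_eq_zero.mp h3 with h4 | h4
  · rw [h4] at h1
    exact exk_rat_3sq5 x.im (by linarith)
  · rw [h4] at h1
    exact exk_rat_sq5 x.re (by linarith)

instance exk_fact2 : Fact (∀ x : QuadraticAlgebra ℚ 3 0, x ^ 2 ≠ 5 + 0 * x) := ⟨exk_fact2'⟩

theorem exists_K : ∃ (K : Type) (_ : Field K) (_ : NumberField K), Module.finrank ℚ K = 4 ∧
    (∃ r : K, r ^ 2 = 3) ∧ ∃ s : K, s ^ 2 = 5 := by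
  let K1 := QuadraticAlgebra ℚ 3 0
  let K2 := QuadraticAlgebra K1 5 0
  have : CharZero K1 := inferInstance
  have : CharZero K2 := charZero_of_injective_algebraMap (algebraMap K1 K2).injective
  have : Module.Finite ℚ K1 := inferInstance
  have : Module.Finite K1 K2 := inferInstance
  have : IsScalarTower ℚ K1 K2 := IsScalarTower.of_algebraMap_eq' (Subsingleton.elim _ _)
  have f1 : Module.finrank ℚ K1 = 2 := QuadraticAlgebra.finrank_eq_two 3 0
  have f2 : Module.finrank K1 K2 = 2 := QuadraticAlgebra.finrank_eq_two 5 0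
  have f3 : Module.finrank ℚ K2 = 4 := by
    rw [← Module.finrank_mul_finrank ℚ K1 K2, f1, f2]
  have : Module.Finite ℚ K2 := Module.Finite.trans K1 K2
  have : NumberField K2 := ⟨⟩
  refine ⟨K2, inferInstance, inferInstance, f3, ?_, ?_⟩
  · refine ⟨algebraMap K1 K2 (⟨0, 1⟩ : K1), ?_⟩
    have h : (⟨0, 1⟩ : K1) ^ 2 = 3 := by
      rw [pow_two]
      apply QuadraticAlgebra.ext
      · simp only [QuadraticAlgebra.re_mul]
        have e : (3 : K1).re = 3 := rfl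
        rw [e]
        norm_num
      · simp only [QuadraticAlgebra.im_mul]
        have e : (3 : K1).im = 0 := rfl
        rw [e]
        norm_num
    rw [← map_pow, h, map_ofNat]
  · refine ⟨(⟨0, 1⟩ : K2), ?_⟩
    rw [pow_two]
    apply QuadraticAlgebra.ext
    · rw [QuadraticAlgebra.re_mul]
      have e : (5 : K2).re = 5 := rfl
      rw [e]
      simp
    · rw [QuadraticAlgebra.im_mul]
      have e : (5 : K2).im = 0 := rfl
      rw [e]
      simp

end Pool.Agent.Q5U
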