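import Pool.Agent.Q5U.Emb
import Pool.Agent.BQF.Fld

/-!
# The ring `OK` is the ring of integers of `ℚ(√3, √5)`
-/

namespace Pool.Agent.Q5U

open Matrix

open NumberField

section
variable {K : Type} [Field K] [NumberField K]

theorem fld_phi (F : BQF.Fld K 3 5 15 1) :
    ((1 + F.a2) / 2) * ((1 + F.a2) / 2) = (1 + F.a2) / 2 + 1 := by
  have h := F.sq2
  push_cast at h
  linear_combination (1 / 4 : K) * h

theorem fld_r (F : BQF.Fld K 3 5 15 1) : F.a1 * F.a1 = 3 := by
  have h := F.sq1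
  push_cast at h
  linear_combination h

/-- The map to the field. -/
noncomputable def fldHom (F : BQF.Fld K 3 5 15 1) : OK →+* K where
  toFun x := x.a + x.b * ((1 + F.a2) / 2) + (x.c + x.d * ((1 + F.a2) / 2)) * F.a1
  map_one' := by simp
  map_mul' x y := by
    simp only [OK.mul_a, OK.mul_b, OK.mul_c, OK.mul_d]
    push_cast
    have h1 := fld_r F
    have h2 := fld_phi F
    generalize (1 + F.a2) / 2 = p at *
    linear_combination (-(x.b * y.b : K) - (x.b * y.d + x.d * y.b : K) * F.a1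
      - 3 * (x.d * y.d : K)) * h2
      - ((x.c + x.d * p) * (y.c + y.d * p) : K) * h1
  map_zero' := by simp
  map_add' x y := by
    simp only [OK.add_a, OK.add_b, OK.add_c, OK.add_d]
    push_cast
    ring

theorem fldHom_apply (F : BQF.Fld K 3 5 15 1) (x : OK) : fldHom F x =
    x.a + x.b * ((1 + F.a2) / 2) + (x.c + x.d * ((1 + F.a2) / 2)) * F.a1 := rfl

/-- Index of a sign pattern. -/
def fldIdx (i j : Bool) : Fin 4 :=
  match i, j with
  | true, true => 0
  | false, true => 1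
  | true, false => 2
  | false, false => 3

theorem fld_s (F : BQF.Fld K 3 5 15 1) (i j : Bool) (x : OK) :
    F.s i j (fldHom F x) = sg (fldIdx i j) x := by
  rw [fldHom_apply, sg_apply]
  simp only [map_add, map_mul, map_div₀, map_intCast, map_one, map_ofNat, F.s1, F.s2]
  cases i <;> cases j <;>
    simp only [fldIdx, BQF.sg, fi0, fi1, fi2, fi3, r30, r31, r32, r33, if_true,
      Bool.false_eq_true, if_false] <;> push_cast <;> ring

theorem fld_int_r (F : BQF.Fld K 3 5 15 1) : IsIntegral ℤ F.a1 := by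
  apply IsIntegral.of_pow (n := 2) (by norm_num)
  rw [F.sq1]
  have h := isIntegral_algebraMap (R := ℤ) (A := K) (x := 3)
  simpa using h

theorem fld_int_phi (F : BQF.Fld K 3 5 15 1) : IsIntegral ℤ ((1 + F.a2) / 2) := by
  refine ⟨Polynomial.X ^ 2 - Polynomial.X - 1, ?_, ?_⟩
  · monicity!
  · have h := fld_phi F
    simp only [Polynomial.eval₂_sub, Polynomial.eval₂_X_pow, Polynomial.eval₂_X,
      Polynomial.eval₂_one]
    linear_combination h

theorem fld_int_int (n : ℤ) : IsIntegral ℤ (n : K) := by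
  have := isIntegral_algebraMap (R := ℤ) (A := K) (x := n)
  simpa using this

theorem fld_int (F : BQF.Fld K 3 5 15 1) (x : OK) : IsIntegral ℤ (fldHom F x) := by
  rw [fldHom_apply]
  exact ((fld_int_int _).add ((fld_int_int _).mul (fld_int_phi F))).add
    (((fld_int_int _).add ((fld_int_int _).mul (fld_int_phi F))).mul (fld_int_r F))

/-- The map to the ring of integers. -/
noncomputable def fldInt (F : BQF.Fld K 3 5 15 1) : OK →+* 𝓞 K where
  toFun x := ⟨fldHom F x, fld_int F x⟩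
  map_one' := RingOfIntegers.ext (map_one (fldHom F))
  map_mul' x y := RingOfIntegers.ext (map_mul (fldHom F) x y)
  map_zero' := RingOfIntegers.ext (map_zero (fldHom F))
  map_add' x y := RingOfIntegers.ext (map_add (fldHom F) x y)

theorem fldInt_coe (F : BQF.Fld K 3 5 15 1) (x : OK) :
    ((fldInt F x : 𝓞 K) : K) = fldHom F x := rfl

theorem fldInt_inj (F : BQF.Fld K 3 5 15 1) : Function.Injective (fldInt F) := by
  intro x y h
  have h1 : fldHom F x = fldHom F y := by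
    rw [← fldInt_coe, ← fldInt_coe, h]
  have h2 := congrArg (F.s true true) h1
  rw [fld_s, fld_s] at h2
  exact sg_injective _ h2

end

/-- The parity analysis. -/
theorem fld_parity {k l m n P' Q' : ℤ} (h1 : k * k + m * m - 3 * (l * l) - 3 * (n * n) = 4 * P')
    (h2 : 2 * (k * m) + m * m - 6 * (l * n) - 3 * (n * n) = 4 * Q') :
    Even k ∧ Even m ∧ Even l ∧ Even n := by
  rcases Int.even_or_odd' k with ⟨k', rfl | rfl⟩ <;> rcases Int.even_or_odd' l with ⟨l', rfl | rfl⟩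
    <;> rcases Int.even_or_odd' m with ⟨m', rfl | rfl⟩ <;>
    rcases Int.even_or_odd' n with ⟨n', rfl | rfl⟩ <;>
    first
    | exact ⟨even_two_mul _, even_two_mul _, even_two_mul _, even_two_mul _⟩
    | (exfalso; ring_nf at h1 h2; omega)

/-- The arithmetic of the integral coordinates. -/
theorem fld_arith {X0 X1 X2 X3 a b u v w : ℤ} (ha : X0 * X0 - 5 * (X2 * X2) = 4 * a)
    (hb : 3 * (X1 * X1) - 15 * (X3 * X3) = 4 * b)
    (hu : X0 * X0 + 5 * (X2 * X2) - 3 * (X1 * X1) - 15 * (X3 * X3) = 8 * u)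
    (hv : 2 * (X0 * X2) - 6 * (X1 * X3) = 8 * v) (hw : u * u - 5 * (v * v) = 4 * w) :
    ∃ A B C D : ℤ, X2 = 2 * B ∧ X3 = 2 * D ∧ X0 = 2 * B + 4 * A ∧ X1 = 2 * D + 4 * C := by
  obtain ⟨k, hk⟩ : ∃ k, X0 = X2 + 2 * k := by
    rcases Int.even_or_odd' X0 with ⟨x, rfl | rfl⟩ <;>
      rcases Int.even_or_odd' X2 with ⟨y, rfl | rfl⟩
    · exact ⟨x - y, by ring⟩
    · exfalso; ring_nf at ha; omega
    · exfalso; ring_nf at ha; omega
    · exact ⟨x - y, by ring⟩
  obtain ⟨l, hl⟩ : ∃ l, X1 = X3 + 2 * l := by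
    rcases Int.even_or_odd' X1 with ⟨x, rfl | rfl⟩ <;>
      rcases Int.even_or_odd' X3 with ⟨y, rfl | rfl⟩
    · exact ⟨x - y, by ring⟩
    · exfalso; ring_nf at hb; omega
    · exfalso; ring_nf at hb; omega
    · exact ⟨x - y, by ring⟩
  obtain ⟨z, hz⟩ : ∃ z, u - v = 2 * z := by
    rcases Int.even_or_odd' u with ⟨x, rfl | rfl⟩ <;>
      rcases Int.even_or_odd' v with ⟨y, rfl | rfl⟩
    · exact ⟨x - y, by ring⟩
    · exfalso; ring_nf at hw; omega
    · exfalso; ring_nf at hw; omega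
    · exact ⟨x - y, by ring⟩
  subst hk hl
  have hQ : 2 * (k * X2) + X2 * X2 - 6 * (l * X3) - 3 * (X3 * X3) = 4 * v := by
    linarith
  have hP : k * k + X2 * X2 - 3 * (l * l) - 3 * (X3 * X3) = 4 * z := by
    have : 4 * (k * k + X2 * X2 - 3 * (l * l) - 3 * (X3 * X3)) = 8 * (u - v) := by
      linarith
    rw [hz] at this
    linarith
  obtain ⟨⟨A, hA⟩, ⟨B, hB⟩, ⟨C, hC⟩, ⟨D, hD⟩⟩ := fld_parity hP hQ
  exact ⟨A, B, C, D, by omega, by omega, by omega, by omega⟩

section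
variable {K : Type} [Field K] [NumberField K]

theorem fldInt_surj (F : BQF.Fld K 3 5 15 1) : Function.Surjective (fldInt F) := by
  intro y
  obtain ⟨X0, X1, X2, X3, hX⟩ := F.coord y
  have hint : ∀ i j, IsIntegral ℤ (F.s i j (y : K)) := fun i j =>
    y.isIntegral_coe.map (F.s i j).toIntAlgHom
  have hcoord : ∀ i j, 4 * F.s i j (y : K) = X0 + X1 * (BQF.sg i * √((3 : ℕ) : ℝ))
      + X2 * (BQF.sg j * √((5 : ℕ) : ℝ)) + X3 * (BQF.sg i * BQF.sg j * √((15 : ℕ) : ℝ)) := by
    intro i j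
    have h2 := congrArg (F.s i j) hX
    simp only [map_add, map_mul, map_intCast, map_ofNat, F.s1, F.s2, F.s3] at h2
    exact h2
  have h15 : √((15 : ℕ) : ℝ) = √((3 : ℕ) : ℝ) * √((5 : ℕ) : ℝ) := by
    have := F.sqrt_mul
    rw [this]
    simp
  have ctt := hcoord true true
  have cft := hcoord false true
  have ctf := hcoord true false
  have cff := hcoord false false
  simp only [BQF.sg_true, BQF.sg_false, h15] at ctt cft ctf cff
  have itt := hint true true
  have ift := hint false true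
  have itf := hint true false
  have iff := hint false false
  generalize F.s true true (y : K) = ytt at *
  generalize F.s false true (y : K) = yft at *
  generalize F.s true false (y : K) = ytf at *
  generalize F.s false false (y : K) = yff at *
  have q3 : √((3 : ℕ) : ℝ) * √((3 : ℕ) : ℝ) = 3 := by
    have := Real.mul_self_sqrt (show (0 : ℝ) ≤ ((3 : ℕ) : ℝ) by positivity)
    rw [this]; norm_num
  have q5 : √((5 : ℕ) : ℝ) * √((5 : ℕ) : ℝ) = 5 := by
    have := Real.mul_self_sqrt (show (0 : ℝ) ≤ ((5 : ℕ) : ℝ) by positivity)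
    rw [this]; norm_num
  -- sums and products
  generalize hs3 : √((3 : ℕ) : ℝ) = s3 at *
  generalize hs5 : √((5 : ℕ) : ℝ) = s5 at *
  have eT : ytt + yft = (X0 + X2 * s5) / 2 := by linarith
  have eT' : ytf + yff = (X0 - X2 * s5) / 2 := by linarith
  have eS : ytt - yft = s3 * (X1 + X3 * s5) / 2 := by linarith
  have eS' : ytf - yff = s3 * (X1 - X3 * s5) / 2 := by linarith
  have eN : ytt * yft = ((X0 * X0 + 5 * (X2 * X2) - 3 * (X1 * X1) - 15 * (X3 * X3) : ℝ)
      + (2 * (X0 * X2) - 6 * (X1 * X3)) * s5) / 16 := by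
    have e1 : ytt * yft = ((ytt + yft) ^ 2 - (ytt - yft) ^ 2) / 4 := by ring
    rw [e1, eT, eS]
    linear_combination (-(X1 + X3 * s5) ^ 2 / 16) * q3
      + ((X2 * X2 - 3 * (X3 * X3) : ℝ) / 16) * q5
  have eN' : ytf * yff = ((X0 * X0 + 5 * (X2 * X2) - 3 * (X1 * X1) - 15 * (X3 * X3) : ℝ)
      - (2 * (X0 * X2) - 6 * (X1 * X3)) * s5) / 16 := by
    have e1 : ytf * yff = ((ytf + yff) ^ 2 - (ytf - yff) ^ 2) / 4 := by ring
    rw [e1, eT', eS']
    linear_combination (-(X1 - X3 * s5) ^ 2 / 16) * q3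
      + ((X2 * X2 - 3 * (X3 * X3) : ℝ) / 16) * q5
  -- (a)
  obtain ⟨a, ha⟩ := BQF.int_of_integral_rat (r := ((X0 * X0 - 5 * (X2 * X2) : ℤ) : ℚ) / 4)
    ((itt.add ift).mul (itf.add iff)) (by
      rw [eT, eT']
      push_cast
      linear_combination (-(X2 * X2 : ℝ) / 4) * q5)
  -- (b)
  obtain ⟨b, hb⟩ := BQF.int_of_integral_rat (r := ((3 * (X1 * X1) - 15 * (X3 * X3) : ℤ) : ℚ) / 4)
    ((itt.sub ift).mul (itf.sub iff)) (by
      rw [eS, eS']
      push_cast
      linear_combination ((X1 * X1 : ℝ) - X3 * X3 * (s5 * s5)) / 4 * q3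
        - (3 * (X3 * X3 : ℝ) / 4) * q5)
  -- (d)
  obtain ⟨u, hu⟩ := BQF.int_of_integral_rat
    (r := ((X0 * X0 + 5 * (X2 * X2) - 3 * (X1 * X1) - 15 * (X3 * X3) : ℤ) : ℚ) / 8)
    ((itt.mul ift).add (itf.mul iff)) (by
      rw [eN, eN']
      push_cast
      ring)
  -- (c)
  have hsq5 : Squarefree 5 := (by norm_num : Nat.Prime _).prime.squarefree
  obtain ⟨v, hv⟩ := BQF.int_of_integral_sqrt (m := 5) hsq5
    (t := ((2 * (X0 * X2) - 6 * (X1 * X3) : ℤ) : ℚ) / 8) (by
      have h := (itt.mul ift).sub (itf.mul iff)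
      have e : ytt * yft - ytf * yff =
          ((((2 * (X0 * X2) - 6 * (X1 * X3) : ℤ) : ℚ) / 8 : ℚ) : ℝ) * s5 := by
        rw [eN, eN']
        push_cast
        ring
      rw [e, ← hs5] at h
      exact h)
  have hu' : X0 * X0 + 5 * (X2 * X2) - 3 * (X1 * X1) - 15 * (X3 * X3) = 8 * u := by
    have : ((X0 * X0 + 5 * (X2 * X2) - 3 * (X1 * X1) - 15 * (X3 * X3) : ℤ) : ℚ) = 8 * u := by
      linarith
    exact_mod_cast this
  have hv' : 2 * (X0 * X2) - 6 * (X1 * X3) = 8 * v := by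
    have : ((2 * (X0 * X2) - 6 * (X1 * X3) : ℤ) : ℚ) = 8 * v := by
      linarith
    exact_mod_cast this
  have ha' : X0 * X0 - 5 * (X2 * X2) = 4 * a := by
    have : ((X0 * X0 - 5 * (X2 * X2) : ℤ) : ℚ) = 4 * a := by
      linarith
    exact_mod_cast this
  have hb' : 3 * (X1 * X1) - 15 * (X3 * X3) = 4 * b := by
    have : ((3 * (X1 * X1) - 15 * (X3 * X3) : ℤ) : ℚ) = 4 * b := by
      linarith
    exact_mod_cast this
  -- (e)
  have huR : (X0 * X0 + 5 * (X2 * X2) - 3 * (X1 * X1) - 15 * (X3 * X3) : ℝ) = 8 * u := by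
    exact_mod_cast hu'
  have hvR : (2 * (X0 * X2) - 6 * (X1 * X3) : ℝ) = 8 * v := by
    exact_mod_cast hv'
  rw [huR, hvR] at eN eN'
  obtain ⟨w, hw⟩ := BQF.int_of_integral_rat (r := ((u * u - 5 * (v * v) : ℤ) : ℚ) / 4)
    ((itt.mul ift).mul (itf.mul iff)) (by
      rw [eN, eN']
      push_cast
      linear_combination (-(v * v : ℝ) / 4) * q5)
  have hw' : u * u - 5 * (v * v) = 4 * w := by
    have : ((u * u - 5 * (v * v) : ℤ) : ℚ) = 4 * w := by
      linarith
    exact_mod_cast this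
  obtain ⟨A, B, C, D, h2, h3, h0, h1⟩ := fld_arith ha' hb' hu' hv' hw'
  refine ⟨⟨A, B, C, D⟩, RingOfIntegers.ext ?_⟩
  rw [fldInt_coe, fldHom_apply]
  have h12 := F.mul12
  push_cast at h12
  rw [h0, h1, h2, h3] at hX
  push_cast at hX
  have h4 : (4 : K) ≠ 0 := by norm_num
  apply mul_left_cancel₀ h4
  rw [hX]
  linear_combination (2 * (D : K)) * h12

theorem exists_equiv (K : Type) [Field K] [NumberField K] (hK : Module.finrank ℚ K = 4)
    {r s : K} (hr : r ^ 2 = 3) (hs : s ^ 2 = 5) :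
    ∃ e : OK ≃+* 𝓞 K, (∀ τ : K →+* ℝ, ∃ i : Fin 4, ∀ x : OK, τ ((e x : 𝓞 K) : K) = sg i x) ∧
      ∀ i : Fin 4, ∃ τ : K →+* ℝ, ∀ x : OK, τ ((e x : 𝓞 K) : K) = sg i x := by
  have hsq3 : Squarefree 3 := (by norm_num : Nat.Prime _).prime.squarefree
  have hsq5 : Squarefree 5 := (by norm_num : Nat.Prime _).prime.squarefree
  obtain ⟨F⟩ : Nonempty (BQF.Fld K 3 5 15 1) :=
    BQF.exists_fld (m1 := 3) (m2 := 5) (by norm_num) (by norm_num) hsq3 hsq5 (by norm_num) hK
      (a := r) (b := s) (by exact_mod_cast hr) (by exact_mod_cast hs)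
  refine ⟨RingEquiv.ofBijective (fldInt F) ⟨fldInt_inj F, fldInt_surj F⟩, ?_, ?_⟩
  · intro τ
    obtain ⟨i, j, rfl⟩ := F.all τ
    refine ⟨fldIdx i j, fun x => ?_⟩
    exact fld_s F i j x
  · intro i
    obtain ⟨a, b, hab⟩ : ∃ a b, fldIdx a b = i := by
      fin_cases i
      · exact ⟨true, true, rfl⟩
      · exact ⟨false, true, rfl⟩
      · exact ⟨true, false, rfl⟩
      · exact ⟨false, false, rfl⟩
    refine ⟨F.s a b, fun x => ?_⟩
    rw [← hab]
    exact fld_s F a b x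

end

end Pool.Agent.Q5U
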