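import Pool.Agent.Q5U.FinData

/-!
# The finite check of the final step
-/

namespace Pool.Agent.Q5U

/-- Trace of `v * x`, as a linear form in `x`. -/
def trm (v x : OK) : ℤ :=
  x.a * (4 * v.a + 2 * v.b) + x.b * (2 * v.a + 6 * v.b)
    + x.c * (3 * (4 * v.c + 2 * v.d)) + x.d * (3 * (2 * v.c + 6 * v.d))

def evf (f : ℤ × ℤ × ℤ × ℤ) (x : OK) : ℤ :=
  f.1 * x.a + f.2.1 * x.b + f.2.2.1 * x.c + f.2.2.2 * x.d

/-- `α` is a unit square times an element of smaller trace, or dominates a square, or is
in the list of exceptional elements. -/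
def okElt (x : OK) : Bool :=
  !(tpb x) || redForms.any (fun f => decide (evf f x < 0)) ||
    subSq.any (fun t => let y := x - t; y == 0 || tpb y) ||
    exc.any (fun e => e.1 == x)

/-- Approximation of the smallest `c` with `a + b φ + (c + d φ) √3 > 0`. -/
def cst (a b d : ℤ) : ℤ := (-(a * 5773503 + b * 9341724 + d * 16180340)) / 10000000 + 1

/-- Check of the elements with half trace `2 * (s + 1)` and second coordinate `2 * b - 34`. -/
def row (s b : ℕ) : Bool :=
  let s' : ℤ := 2 * s + 2
  let b' : ℤ := 2 * b - 34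
  let a : ℤ := (s' - b') / 2
  a % 2 == 0 || !(zpos a b') ||
    (List.range 40).all (fun d =>
      let d' : ℤ := d - 20
      let c := cst a b' d'
      decide (s' * s' ≤ 15 * (d' * d')) ||
      okElt ⟨a, b', c - 1, d'⟩ && okElt ⟨a, b', c, d'⟩ && okElt ⟨a, b', c + 1, d'⟩)

end Pool.Agent.Q5U
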