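import Pool.Agent.Q5U.FinCheck

/-!
# The finite check of the final step: kernel computation
-/

namespace Pool.Agent.Q5U
set_option maxRecDepth 100000

theorem run1 : ∀ s ∈ List.range' 0 19, ∀ b < 35, row s b = true := by decide +kernel
theorem run2 : ∀ s ∈ List.range' 19 6, ∀ b < 35, row s b = true := by decide +kernel
theorem run3 : ∀ s ∈ List.range' 25 4, ∀ b < 35, row s b = true := by decide +kernel
theorem run4 : ∀ s ∈ List.range' 29 3, ∀ b < 35, row s b = true := by decide +kernel
theorem run5 : ∀ s ∈ List.range' 32 3, ∀ b < 35, row s b = true := by decide +kernel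
theorem run6 : ∀ s ∈ List.range' 35 2, ∀ b < 35, row s b = true := by decide +kernel

theorem run_all (s : ℕ) (hs : s < 37) (b : ℕ) (hb : b < 35) : row s b = true := by
  have h1 := run1 s
  have h2 := run2 s
  have h3 := run3 s
  have h4 := run4 s
  have h5 := run5 s
  have h6 := run6 s
  simp only [List.mem_range'_1] at h1 h2 h3 h4 h5 h6
  rcases lt_or_ge s 19 with h | h
  · exact h1 (by omega) b hb
  rcases lt_or_ge s 25 with h | h
  · exact h2 (by omega) b hb
  rcases lt_or_ge s 29 with h | h
  · exact h3 (by omega) b hb
  rcases lt_or_ge s 32 with h | h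
  · exact h4 (by omega) b hb
  rcases lt_or_ge s 35 with h | h
  · exact h5 (by omega) b hb
  · exact h6 (by omega) b hb

end Pool.Agent.Q5U
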