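import Pool.Agent.Q5U.Emb
import Pool.Agent.Q5U.FinCheck
import Pool.Agent.Q5U.FinRun

/-!
# Completeness of the finite check
-/

namespace Pool.Agent.Q5U

open Matrix

theorem fin_s3 : (1.73205080 : ℝ) < √3 ∧ √3 < (1.73205081 : ℝ) := by
  have h := sqrt3_sq
  have h0 : 0 ≤ √(3 : ℝ) := Real.sqrt_nonneg 3
  constructor
  · by_contra hc
    push Not at hc
    nlinarith
  · by_contra hc
    push Not at hc
    nlinarith

theorem fin_s5 : (2.2360679 : ℝ) < √5 ∧ √5 < (2.2360680 : ℝ) := by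
  have h := sqrt5_sq
  have h0 : 0 ≤ √(5 : ℝ) := Real.sqrt_nonneg 5
  constructor
  · by_contra hc
    push Not at hc
    nlinarith
  · by_contra hc
    push Not at hc
    nlinarith

theorem fin_err {x X e E : ℝ} (hx : |x| ≤ X) (he : |e| ≤ E) :
    -(X * E) ≤ x * e ∧ x * e ≤ X * E := by
  have h : |x * e| ≤ X * E := by
    rw [abs_mul]
    exact mul_le_mul hx he (abs_nonneg _) (le_trans (abs_nonneg _) hx)
  exact abs_le.1 h

/-- The third coordinate is determined up to two values. -/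
theorem fin_cst {a b c d : ℤ} (ha : |(a : ℝ)| ≤ 60) (hb : |(b : ℝ)| ≤ 34) (hd : |(d : ℝ)| ≤ 20)
    (h1 : 0 < (a : ℝ) + b * ((1 + √5) / 2) + (c + d * ((1 + √5) / 2)) * √3)
    (h2 : (a : ℝ) + b * ((1 + √5) / 2) + (c + d * ((1 + √5) / 2)) * √3 ≤ 1) :
    c = cst a b d - 1 ∨ c = cst a b d := by
  obtain ⟨s1, s2⟩ := fin_s3
  obtain ⟨t1, t2⟩ := fin_s5
  have h3 := sqrt3_sq
  generalize √(3 : ℝ) = s at *
  generalize √(5 : ℝ) = t at *
  obtain ⟨φ, hφ⟩ : ∃ φ : ℝ, φ = (1 + t) / 2 := ⟨_, rfl⟩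
  rw [← hφ] at h1 h2
  have f1 : 1.61803395 ≤ φ := by rw [hφ]; linarith
  have f2 : φ ≤ 1.618034 := by rw [hφ]; linarith
  obtain ⟨σ, hσ⟩ : ∃ σ : ℝ, σ = s / 3 := ⟨_, rfl⟩
  have g1 : 0.57735026 ≤ σ := by rw [hσ]; linarith
  have g2 : σ ≤ 0.57735027 := by rw [hσ]; linarith
  have hσs : σ * s = 1 := by rw [hσ]; linarith
  have hσ0 : 0 < σ := by linarith
  -- multiply by `1 / √3`
  have k1 : 0 < (a : ℝ) * σ + b * (φ * σ) + d * φ + c := by
    have := mul_pos hσ0 h1
    have e : σ * ((a : ℝ) + b * φ + (c + d * φ) * s) =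
        (a : ℝ) * σ + b * (φ * σ) + (d * φ + c) * (σ * s) := by ring
    rw [e, hσs] at this
    linarith
  have k2 : (a : ℝ) * σ + b * (φ * σ) + d * φ + c ≤ σ := by
    have := mul_le_mul_of_nonneg_left h2 hσ0.le
    have e : σ * ((a : ℝ) + b * φ + (c + d * φ) * s) =
        (a : ℝ) * σ + b * (φ * σ) + (d * φ + c) * (σ * s) := by ring
    rw [e, hσs] at this
    linarith
  have p1 : φ * σ ≤ 1.618034 * 0.57735027 := mul_le_mul f2 g2 hσ0.le (by norm_num)
  have p2 : 1.61803395 * 0.57735026 ≤ φ * σ := mul_le_mul f1 g1 (by norm_num) (by linarith)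
  have q1 := fin_err ha (e := σ - 0.5773503) (E := 1 / 1000000)
    (by rw [abs_le]; constructor <;> linarith)
  have q2 := fin_err hb (e := φ * σ - 0.9341724) (E := 1 / 1000000)
    (by rw [abs_le]; constructor <;> linarith)
  have q3 := fin_err hd (e := φ - 1.6180340) (E := 1 / 1000000)
    (by rw [abs_le]; constructor <;> linarith)
  obtain ⟨N, hN⟩ : ∃ N : ℤ, N = -(a * 5773503 + b * 9341724 + d * 16180340) := ⟨_, rfl⟩
  have hc : cst a b d = N / 10000000 + 1 := by rw [hN]; rfl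
  have m1 : 10000000 * (N / 10000000) ≤ N := Int.mul_ediv_self_le (by norm_num)
  have m2 : N < 10000000 * (N / 10000000) + 10000000 := Int.lt_mul_ediv_self_add (by norm_num)
  generalize N / 10000000 = q at *
  have m1' : 10000000 * (q : ℝ) ≤ N := by exact_mod_cast m1
  have m2' : (N : ℝ) < 10000000 * q + 10000000 := by exact_mod_cast m2
  have hN' : (N : ℝ) = -(a * 5773503 + b * 9341724 + d * 16180340) := by
    rw [hN]; push_cast; ring
  have r1 : (q : ℝ) - 1 < c := by linarith [q1.1, q1.2, q2.1, q2.2, q3.1, q3.2]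
  have r2 : (c : ℝ) < q + 2 := by linarith [q1.1, q1.2, q2.1, q2.2, q3.1, q3.2]
  have r1' : q - 1 < c := by exact_mod_cast r1
  have r2' : c < q + 2 := by exact_mod_cast r2
  rw [hc]
  omega

theorem fin_check {x : OK} (h : TP x) (ha : ¬ Even x.a) (hb : Even x.b) (ht : trc x ≤ 150)
    (h0 : sg 0 x ≤ 1) : okElt x = true := by
  have e0 := h 0
  have e1 := h 1
  have e2 := h 2
  have e3 := h 3
  simp only [sg_apply, fi0, fi1, fi2, fi3, r30, r31, r32, r33] at e0 e1 e2 e3 h0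
  have s3 := fin_s3
  have s5 := fin_s5
  have hs3 := sqrt3_sq
  have hs5 := sqrt5_sq
  -- the two embeddings of `a + b φ`
  have hA0 : 0 < (x.a : ℝ) + x.b * ((1 + √5) / 2) := by linarith
  have hA2 : 0 < (x.a : ℝ) + x.b * ((1 - √5) / 2) := by linarith
  have hz : zpos x.a x.b = true := (zpos_iff x.a x.b).2 ⟨hA0, hA2⟩
  obtain ⟨S, hS⟩ : ∃ S : ℤ, S = 2 * x.a + x.b := ⟨_, rfl⟩
  have hSr : (S : ℝ) = 2 * x.a + x.b := by rw [hS]; push_cast; ring
  have hS0 : 0 < S := by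
    have : (0 : ℝ) < S := by rw [hSr]; linarith
    exact_mod_cast this
  have hSe : Even S := by
    rw [hS]
    exact (even_two_mul _).add hb
  have hS75 : S ≤ 74 := by
    have h1 : 2 * S ≤ 150 := by rw [hS]; unfold trc at ht; linarith
    obtain ⟨k, hk⟩ := hSe
    omega
  have hS74 : (S : ℝ) ≤ 74 := by exact_mod_cast hS75
  -- bounds for `b`
  have hb1 : (x.b : ℝ) * √5 < S := by rw [hSr]; linarith
  have hb2 : -(S : ℝ) < x.b * √5 := by rw [hSr]; linarith
  have hb3 : x.b < 34 := by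
    by_contra hc
    push Not at hc
    have : (34 : ℝ) ≤ x.b := by exact_mod_cast hc
    nlinarith
  have hb4 : -34 < x.b := by
    by_contra hc
    push Not at hc
    have : (x.b : ℝ) ≤ -34 := by exact_mod_cast hc
    nlinarith
  -- bounds for `d`
  have hd1 : (x.d : ℝ) * (√5 * √3) < S := by rw [hSr]; linarith
  have hd2 : -(S : ℝ) < x.d * (√5 * √3) := by rw [hSr]; linarith
  have hd3 : 15 * (x.d * x.d) < S * S := by
    have h1 : ((x.d : ℝ) * (√5 * √3)) ^ 2 < (S : ℝ) ^ 2 := by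
      rw [sq_lt_sq]
      rw [abs_of_pos (by exact_mod_cast hS0 : (0 : ℝ) < S), abs_lt]
      exact ⟨hd2, hd1⟩
    have h2 : ((x.d : ℝ) * (√5 * √3)) ^ 2 = 15 * (x.d * x.d) := by
      have : ((x.d : ℝ) * (√5 * √3)) ^ 2 = (x.d * x.d) * ((√5 * √5) * (√3 * √3)) := by ring
      rw [this, hs3, hs5]
      ring
    rw [h2] at h1
    have h3 : ((15 * (x.d * x.d) : ℤ) : ℝ) < ((S * S : ℤ) : ℝ) := by
      push_cast
      nlinarith
    exact_mod_cast h3
  have hSS : S * S ≤ 74 * 74 := by nlinarith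
  have hd4 : x.d < 20 := by
    by_contra hc
    push Not at hc
    nlinarith
  have hd5 : -20 < x.d := by
    by_contra hc
    push Not at hc
    nlinarith
  -- bounds for `c`
  have hca : |(x.a : ℝ)| ≤ 60 := by
    have h1 : |x.a| ≤ 60 := by rw [abs_le]; omega
    exact_mod_cast h1
  have hcb : |(x.b : ℝ)| ≤ 34 := by
    have h1 : |x.b| ≤ 34 := by rw [abs_le]; omega
    exact_mod_cast h1
  have hcd : |(x.d : ℝ)| ≤ 20 := by
    have h1 : |x.d| ≤ 20 := by rw [abs_le]; omega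
    exact_mod_cast h1
  have hc := fin_cst hca hcb hcd e0 h0
  -- the kernel check
  obtain ⟨k, hk⟩ := hSe
  obtain ⟨l, hl⟩ := hb
  obtain ⟨s, hs⟩ : ∃ s : ℕ, (s : ℤ) = k - 1 := ⟨(k - 1).toNat, by omega⟩
  obtain ⟨b, hbb⟩ : ∃ b : ℕ, (b : ℤ) = l + 17 := ⟨(l + 17).toNat, by omega⟩
  obtain ⟨dn, hdn⟩ : ∃ dn : ℕ, (dn : ℤ) = x.d + 20 := ⟨(x.d + 20).toNat, by omega⟩
  have hrow := run_all s (by omega) b (by omega)
  have r1 : (2 * (s : ℤ) + 2) = S := by omega
  have r2 : (2 * (b : ℤ) - 34) = x.b := by omega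
  have r3 : (S - x.b) / 2 = x.a := by omega
  have r4 : (dn : ℤ) - 20 = x.d := by omega
  unfold row at hrow
  simp only [r1, r2, r3, hz] at hrow
  have ha' : (x.a % 2 == 0) = false := by
    rw [beq_eq_false_iff_ne]
    intro hh
    exact ha (Int.even_iff.2 hh)
  rw [ha'] at hrow
  simp only [Bool.not_true, Bool.or_false, Bool.false_or] at hrow
  have hd := List.all_eq_true.1 hrow dn (List.mem_range.2 (by omega))
  simp only [r4] at hd
  have hdd : decide (S * S ≤ 15 * (x.d * x.d)) = false := by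
    rw [decide_eq_false_iff_not]
    omega
  rw [hdd, Bool.false_or, Bool.and_eq_true, Bool.and_eq_true] at hd
  rcases hc with hc | hc
  · have := hd.1.1
    rw [← hc] at this
    exact this
  · have := hd.1.2
    rw [← hc] at this
    exact this

end Pool.Agent.Q5U
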