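import Pool.Agent.Q5U.Emb
import Pool.Agent.Q5U.FinCheck

/-!
# The Galois action
-/

namespace Pool.Agent.Q5U

open Matrix

/-- The automorphism `√3 ↦ -√3`. -/
def gal3 : OK →+* OK where
  toFun x := ⟨x.a, x.b, -x.c, -x.d⟩
  map_one' := by ext <;> simp
  map_mul' x y := by ext <;> simp <;> ring
  map_zero' := by ext <;> simp
  map_add' x y := by ext <;> simp <;> ring

/-- The automorphism `√5 ↦ -√5`. -/
def gal5 : OK →+* OK where
  toFun x := ⟨x.a + x.b, -x.b, x.c + x.d, -x.d⟩
  map_one' := by ext <;> simp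
  map_mul' x y := by ext <;> simp <;> ring
  map_zero' := by ext <;> simp
  map_add' x y := by ext <;> simp <;> ring

/-- The automorphism attached to an index `k`: it carries the embedding `k` to the embedding `0`. -/
def gal (k : Fin 4) : OK →+* OK :=
  match k with
  | 0 => RingHom.id OK
  | 1 => gal3
  | 2 => gal5
  | 3 => gal3.comp gal5

theorem gal_zero_apply (x : OK) : gal 0 x = x := rfl
theorem gal_one_apply (x : OK) : gal 1 x = ⟨x.a, x.b, -x.c, -x.d⟩ := rfl
theorem gal_two_apply (x : OK) : gal 2 x = ⟨x.a + x.b, -x.b, x.c + x.d, -x.d⟩ := rfl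
theorem gal_three_apply (x : OK) : gal 3 x = ⟨x.a + x.b, -x.b, -(x.c + x.d), -(-x.d)⟩ := rfl

theorem sg_gal (k : Fin 4) : ∃ p : Equiv.Perm (Fin 4), p 0 = k ∧ ∀ i x, sg i (gal k x) = sg (p i) x := by
  have key : ∀ (k : Fin 4) (p : Equiv.Perm (Fin 4)), p 0 = k →
      (∀ i x, sg i (gal k x) = sg (p i) x) →
      ∃ p : Equiv.Perm (Fin 4), p 0 = k ∧ ∀ i x, sg i (gal k x) = sg (p i) x :=
    fun k p h1 h2 => ⟨p, h1, h2⟩
  fin_cases k
  · exact ⟨Equiv.refl _, rfl, fun i x => rfl⟩
  · refine ⟨Equiv.swap 0 1 * Equiv.swap 2 3, by decide, ?_⟩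
    intro i x
    show sg i (gal 1 x) = _
    rw [gal_one_apply]
    have h : ∀ i : Fin 4, (Equiv.swap 0 1 * Equiv.swap 2 3 : Equiv.Perm (Fin 4)) i =
        ![1, 0, 3, 2] i := by decide
    rw [h]
    fin_cases i <;> simp [sg_apply, fi0, fi1, fi2, fi3, r30, r31, r32, r33] <;> ring
  · refine ⟨Equiv.swap 0 2 * Equiv.swap 1 3, by decide, ?_⟩
    intro i x
    show sg i (gal 2 x) = _
    rw [gal_two_apply]
    have h : ∀ i : Fin 4, (Equiv.swap 0 2 * Equiv.swap 1 3 : Equiv.Perm (Fin 4)) i =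
        ![2, 3, 0, 1] i := by decide
    rw [h]
    fin_cases i <;> simp [sg_apply, fi0, fi1, fi2, fi3, r30, r31, r32, r33] <;> ring
  · refine ⟨Equiv.swap 0 3 * Equiv.swap 1 2, by decide, ?_⟩
    intro i x
    show sg i (gal 3 x) = _
    rw [gal_three_apply]
    have h : ∀ i : Fin 4, (Equiv.swap 0 3 * Equiv.swap 1 2 : Equiv.Perm (Fin 4)) i =
        ![3, 2, 1, 0] i := by decide
    rw [h]
    fin_cases i <;> simp [sg_apply, fi0, fi1, fi2, fi3, r30, r31, r32, r33] <;> ring

theorem gal_gal (k : Fin 4) (x : OK) : gal k (gal k x) = x := by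
  fin_cases k
  · rfl
  · show gal 1 (gal 1 x) = x
    rw [gal_one_apply, gal_one_apply]
    ext <;> simp
  · show gal 2 (gal 2 x) = x
    rw [gal_two_apply, gal_two_apply]
    ext <;> simp
  · show gal 3 (gal 3 x) = x
    rw [gal_three_apply, gal_three_apply]
    ext <;> simp

theorem gal_TP {k : Fin 4} {x : OK} : TP (gal k x) ↔ TP x := by
  obtain ⟨p, -, hp⟩ := sg_gal k
  unfold TP
  constructor
  · intro h i
    have := h (p.symm i)
    rw [hp, Equiv.apply_symm_apply] at this
    exact this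
  · intro h i
    rw [hp]
    exact h _

theorem trc_gal (k : Fin 4) (x : OK) : trc (gal k x) = trc x := by
  fin_cases k
  · rfl
  · rfl
  · show trc (gal 2 x) = trc x
    rw [gal_two_apply]
    simp only [trc]
    ring
  · show trc (gal 3 x) = trc x
    rw [gal_three_apply]
    simp only [trc]
    ring

theorem gal_cl (k : Fin 4) {t : OK} (ht : cl t = 1) : cl (gal k t) = 1 := by
  unfold cl at ht
  fin_cases k
  · show cl (gal 0 t) = 1
    rw [gal_zero_apply]
    unfold cl
    exact ht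
  · show cl (gal 1 t) = 1
    rw [gal_one_apply]
    unfold cl
    simp only
    omega
  · show cl (gal 2 t) = 1
    rw [gal_two_apply]
    unfold cl
    simp only
    omega
  · show cl (gal 3 t) = 1
    rw [gal_three_apply]
    unfold cl
    simp only
    omega

theorem gal_parity (k : Fin 4) (x : OK) (hb : Even x.b) :
    (Even (gal k x).a ↔ Even x.a) ∧ Even (gal k x).b := by
  fin_cases k
  · exact ⟨Iff.rfl, hb⟩
  · exact ⟨Iff.rfl, hb⟩
  · show (Even (gal 2 x).a ↔ Even x.a) ∧ Even (gal 2 x).b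
    rw [gal_two_apply]
    simp only
    refine ⟨?_, hb.neg⟩
    rw [Int.even_add]
    tauto
  · show (Even (gal 3 x).a ↔ Even x.a) ∧ Even (gal 3 x).b
    rw [gal_three_apply]
    simp only
    refine ⟨?_, hb.neg⟩
    rw [Int.even_add]
    tauto

/-- the lists are stable (up to sign) -/
theorem gal_redUnits (k : Fin 4) : ∀ u ∈ redUnits, ∃ u' ∈ redUnits, u'.1 * u'.1 = gal k u.1 * gal k u.1 := by
  revert k
  decide +kernel

theorem gal_subSq (k : Fin 4) : ∀ t ∈ subSq, gal k t ∈ subSq := by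
  revert k
  decide +kernel

theorem gal_exc (k : Fin 4) : ∀ e ∈ exc, ∃ e' ∈ exc, e'.1 = gal k e.1 := by
  revert k
  decide +kernel

end Pool.Agent.Q5U
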