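import Pool.Agent.Q5U.WalkData

/-!
# Data: the sixty neighbours of `E` containing `y / π` for `nrd y ≡ 1 mod 2`
-/

namespace Pool.Agent.Q5U

/-- Data of a start step: `A * gram tgt * Aᵀ = π² GE`, `y A ≡ 0 mod π²`,
`A ≡ (GE y) ⊗ w mod π`, `qf GE y ≡ 2 mod 4`. -/
structure Start where
  tgt : ℕ
  y : V
  A : M4
  w : ℕ

def starts : List Start := [
  ⟨1, ![1, 0, 0, 0], !![o 4 0 2 0, 0, 0, 0; o 0 2 0 1, 0, o 2 0 1 0, o (-2) 0 (-1) 0; 0, o 1 0 1 0, 0, 0; o 2 0 1 0, o (-1) 1 1 (-1), o 3 0 0 1, o 0 (-1) (-1) 0], 241⟩,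
  ⟨1, ![0, 1, 0, 0], !![o 0 2 0 1, 0, o 2 0 1 0, o (-2) 0 (-1) 0; o 4 0 2 0, 0, 0, 0; 0, o 1 0 1 0, 0, 0; o 2 0 1 0, o (-1) 1 1 (-1), o 3 0 0 1, o 0 (-1) (-1) 0], 241⟩,
  ⟨1, ![o 0 1 0 0, 1, 0, 0], !![o 0 2 0 1, 0, o (-2) 0 (-1) 0, o 2 0 1 0; o (-2) 2 (-1) 1, 0, o 0 (-2) 0 (-1), o 0 2 0 1; 0, o 1 0 1 0, 0, 0; o (-2) 2 (-1) 1, o (-1) 1 1 (-1), o 1 0 (-1) 1, o 2 (-1) 0 0], 241⟩,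
  ⟨1, ![1, o 0 1 0 0, 0, 0], !![o 2 (-2) 1 (-1), 0, o 0 (-2) 0 (-1), o 0 2 0 1; o 0 (-2) 0 (-1), 0, o (-2) 0 (-1) 0, o 2 0 1 0; 0, o 1 0 1 0, 0, 0; o 2 (-2) 1 (-1), o (-1) 1 1 (-1), o 1 0 (-1) 1, o 2 (-1) 0 0], 241⟩,
  ⟨1, ![o 0 1 0 0, o 0 1 0 0, 0, 0], !![o (-2) 2 (-1) 1, 0, o 0 2 0 1, o 0 (-2) 0 (-1); o 2 (-2) 1 (-1), 0, o 0 2 0 1, o 0 (-2) 0 (-1); 0, o 1 0 1 0, 0, 0; 0, o (-1) 1 1 (-1), o 1 2 (-1) 2, o 2 (-3) 0 (-1)], 241⟩,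
  ⟨2, ![0, 0, 1, o 0 1 0 1], !![o 1 0 1 0, 0, 0, 0; o 1 0 1 0, o (-1) 1 (-1) 1, 0, 0; 0, 0, o (-5) 0 (-3) 0, 0; o (-1) (-2) 1 (-2), o 2 0 (-2) 2, o 0 6 1 3, o 1 6 3 2], 16⟩,
  ⟨2, ![o 1 1 0 0, o 1 1 0 0, 1, 1], !![o 1 0 1 0, 0, 0, 0; o 1 0 1 0, o (-1) 1 (-1) 1, 0, 0; o 1 4 1 2, o 2 (-3) 0 (-1), o (-6) (-8) (-3) (-5), o (-7) (-6) (-3) (-4); o 1 0 1 0, 0, o (-2) (-2) (-1) (-1), o (-1) 0 (-1) 0], 16⟩,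
  ⟨2, ![o 1 1 0 0, o 1 1 0 0, o 0 2 0 1, 1], !![o 1 0 1 0, 0, 0, 0; o 1 0 1 0, o (-1) 1 (-1) 1, 0, 0; o (-1) (-4) (-1) (-2), o (-2) 3 0 1, o 6 8 3 5, o 7 6 3 4; o 2 (-3) 0 (-1), o (-5) 4 1 0, o 3 2 0 2, o 6 1 0 3], 16⟩,
  ⟨2, ![o 0 1 0 0, o 0 1 0 0, 0, o 1 1 0 0], !![o 1 0 1 0, 0, 0, 0; o 1 0 1 0, o (-1) 1 (-1) 1, 0, 0; o (-3) (-1) (-1) (-1), o 5 (-2) 1 0, o (-3) 11 (-1) 6, o (-1) 7 1 3; o 0 2 2 0, o 4 (-3) (-2) 1, o (-6) 2 (-2) 0, o (-6) 0 0 (-2)], 16⟩,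
  ⟨2, ![o 0 1 0 0, o 0 1 0 0, o 1 1 1 0, o 1 1 0 0], !![o 1 0 1 0, 0, 0, 0; o 1 0 1 0, o (-1) 1 (-1) 1, 0, 0; o 3 1 1 1, o (-5) 2 (-1) 0, o 3 (-11) 1 (-6), o 1 (-7) (-1) (-3); o 4 1 2 1, o (-5) 2 (-1) 0, o 1 (-8) 0 (-4), o 0 (-7) (-2) (-3)], 16⟩,
  ⟨3, ![o 0 1 0 0, o 1 1 1 1, o 1 1 0 0, 0], !![o 1 0 1 0, 0, 0, 0; o (-10) 6 6 (-3), o 11 (-7) (-7) 4, o 0 1 0 0, o 12 (-8) (-7) 5; o (-3) 2 1 0, o 2 (-1) (-2) 1, o 0 (-1) 0 (-1), o 3 (-3) (-1) 1; o (-29) 19 17 (-11), o 32 (-22) (-20) 12, o (-1) 0 1 0, o 38 (-22) (-22) 12], 127⟩,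
  ⟨3, ![o 1 1 1 1, o 0 1 0 0, o 1 1 0 0, 0], !![o (-10) 6 6 (-3), o 11 (-7) (-7) 4, o 0 1 0 0, o 12 (-8) (-7) 5; o 1 0 1 0, 0, 0, 0; o (-3) 2 1 0, o 2 (-1) (-2) 1, o 0 (-1) 0 (-1), o 3 (-3) (-1) 1; o (-29) 19 17 (-11), o 32 (-22) (-20) 12, o (-1) 0 1 0, o 38 (-22) (-22) 12], 127⟩,
  ⟨3, ![o 1 1 0 0, o 0 2 0 1, o 1 1 0 0, 0], !![o 10 (-5) (-6) 4, o (-11) 7 7 (-4), o 0 (-1) 0 0, o (-12) 8 7 (-5); o (-6) 5 3 (-2), o 7 (-4) (-4) 3, o (-1) (-1) 0 0, o 8 (-4) (-5) 2; o (-3) 2 1 0, o 2 (-1) (-2) 1, o 0 (-1) 0 (-1), o 3 (-3) (-1) 1; o (-20) 14 10 (-7), o 21 (-15) (-13) 8, o (-1) (-1) 1 0, o 26 (-14) (-15) 7], 127⟩,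
  ⟨3, ![o 0 2 0 1, o 1 1 0 0, o 1 1 0 0, 0], !![o (-5) 4 4 (-3), o 7 (-4) (-4) 3, o (-1) (-1) 0 0, o 8 (-4) (-5) 2; o 10 (-6) (-6) 3, o (-11) 7 7 (-4), o 0 (-1) 0 0, o (-12) 8 7 (-5); o (-3) 2 1 0, o 2 (-1) (-2) 1, o 0 (-1) 0 (-1), o 3 (-3) (-1) 1; o (-19) 13 11 (-8), o 21 (-15) (-13) 8, o (-1) (-1) 1 0, o 26 (-14) (-15) 7], 127⟩,
  ⟨3, ![o 1 2 0 1, o 1 1 0 0, o 1 1 0 0, 0], !![o 5 (-4) (-4) 3, o (-7) 4 4 (-3), o 1 1 0 0, o (-8) 4 5 (-2); o 6 (-5) (-3) 2, o (-7) 4 4 (-3), o 1 1 0 0, o (-8) 4 5 (-2); o (-3) 2 1 0, o 2 (-1) (-2) 1, o 0 (-1) 0 (-1), o 3 (-3) (-1) 1; o (-14) 9 7 (-5), o 14 (-11) (-9) 5, o 0 0 1 0, o 18 (-10) (-10) 5], 127⟩,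
  ⟨3, ![o 1 1 0 0, 1, 0, o 0 1 0 0], !![o 1 0 1 0, 0, 0, 0; o 10 (-5) (-6) 4, o (-11) 7 7 (-4), o 0 (-1) 0 0, o (-12) 8 7 (-5); o 14 (-8) (-7) 5, o (-14) 10 9 (-5), o 1 (-2) 0 (-1), o (-18) 11 9 (-5); o 33 (-19) (-18) 11, o (-36) 21 21 (-13), o 1 (-2) 0 0, o (-40) 26 22 (-15)], 127⟩,
  ⟨3, ![o 0 1 0 0, o 0 1 0 0, 0, o 0 1 0 0], !![o 5 (-4) (-4) 3, o (-7) 4 4 (-3), o 1 1 0 0, o (-8) 4 5 (-2); o 6 (-5) (-3) 2, o (-7) 4 4 (-3), o 1 1 0 0, o (-8) 4 5 (-2); o (-12) 7 7 (-4), o 13 (-9) (-8) 4, o (-2) 1 (-1) 0, o 15 (-11) (-8) 5; o (-19) 13 11 (-7), o 22 (-14) (-12) 8, o (-2) 0 0 0, o 26 (-14) (-14) 8], 127⟩,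
  ⟨3, ![o 1 1 0 0, o 0 1 0 0, 0, o 0 1 0 0], !![o 6 (-5) (-3) 2, o (-7) 4 4 (-3), o 1 1 0 0, o (-8) 4 5 (-2); o (-10) 5 6 (-4), o 11 (-7) (-7) 4, o 0 1 0 0, o 12 (-8) (-7) 5; o 14 (-8) (-7) 5, o (-14) 10 9 (-5), o 1 (-2) 0 (-1), o (-18) 11 9 (-5); o 23 (-14) (-12) 7, o (-25) 14 14 (-9), o 1 (-1) 0 0, o (-28) 18 15 (-10)], 127⟩,
  ⟨3, ![1, o 1 1 0 0, 0, o 0 1 0 0], !![o (-10) 6 6 (-3), o 11 (-7) (-7) 4, o 0 1 0 0, o 12 (-8) (-7) 5; o 1 0 1 0, 0, 0, 0; o (-14) 8 7 (-5), o 14 (-10) (-9) 5, o (-1) 2 0 1, o 18 (-11) (-9) 5; o (-32) 19 19 (-11), o 36 (-21) (-21) 13, o (-1) 2 0 0, o 40 (-26) (-22) 15], 127⟩,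
  ⟨3, ![o 0 1 0 0, o 1 1 0 0, 0, o 0 1 0 0], !![o 10 (-5) (-6) 4, o (-11) 7 7 (-4), o 0 (-1) 0 0, o (-12) 8 7 (-5); o (-6) 5 3 (-2), o 7 (-4) (-4) 3, o (-1) (-1) 0 0, o 8 (-4) (-5) 2; o (-12) 7 7 (-4), o 13 (-9) (-8) 4, o (-2) 1 (-1) 0, o 15 (-11) (-8) 5; o (-25) 18 14 (-9), o 29 (-18) (-16) 11, o (-3) (-1) 0 0, o 34 (-18) (-19) 10], 127⟩,
  ⟨3, ![o 1 1 0 0, o 2 0 1 0, 1, o 0 1 0 0], !![o 1 0 1 0, 0, 0, 0; o 10 (-5) (-6) 4, o (-11) 7 7 (-4), o 0 (-1) 0 0, o (-12) 8 7 (-5); o (-14) 8 7 (-5), o 14 (-10) (-9) 5, o (-1) 2 0 1, o 18 (-11) (-9) 5; o (-12) 7 7 (-4), o 13 (-9) (-8) 4, o (-1) 1 0 0, o 15 (-11) (-8) 5], 127⟩,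
  ⟨3, ![o 0 1 0 0, o 0 1 0 0, 1, o 1 1 1 0], !![o 5 (-4) (-4) 3, o (-7) 4 4 (-3), o 1 1 0 0, o (-8) 4 5 (-2); o 6 (-5) (-3) 2, o (-7) 4 4 (-3), o 1 1 0 0, o (-8) 4 5 (-2); o 12 (-7) (-7) 4, o (-13) 9 8 (-4), o 2 (-1) 1 0, o (-15) 11 8 (-5); o 19 (-13) (-11) 8, o (-21) 15 13 (-8), o 2 0 0 (-1), o (-26) 14 15 (-7)], 127⟩,
  ⟨3, ![o 1 1 0 0, o 1 1 1 0, 1, o 0 1 0 0], !![o 6 (-5) (-3) 2, o (-7) 4 4 (-3), o 1 1 0 0, o (-8) 4 5 (-2); o (-10) 5 6 (-4), o 11 (-7) (-7) 4, o 0 1 0 0, o 12 (-8) (-7) 5; o (-14) 8 7 (-5), o 14 (-10) (-9) 5, o (-1) 2 0 1, o 18 (-11) (-9) 5; o (-22) 12 13 (-8), o 24 (-16) (-15) 8, o (-1) 2 0 0, o 27 (-19) (-15) 10], 127⟩,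
  ⟨3, ![o 2 0 1 0, o 1 1 0 0, 1, o 0 1 0 0], !![o (-10) 6 6 (-3), o 11 (-7) (-7) 4, o 0 1 0 0, o 12 (-8) (-7) 5; o 1 0 1 0, 0, 0, 0; o 14 (-8) (-7) 5, o (-14) 10 9 (-5), o 1 (-2) 0 (-1), o (-18) 11 9 (-5); o 13 (-7) (-6) 4, o (-13) 9 8 (-4), o 1 (-1) 0 0, o (-15) 11 8 (-5)], 127⟩,
  ⟨3, ![o 1 1 1 0, o 1 1 0 0, 1, o 0 1 0 0], !![o 10 (-5) (-6) 4, o (-11) 7 7 (-4), o 0 (-1) 0 0, o (-12) 8 7 (-5); o (-6) 5 3 (-2), o 7 (-4) (-4) 3, o (-1) (-1) 0 0, o 8 (-4) (-5) 2; o 12 (-7) (-7) 4, o (-13) 9 8 (-4), o 2 (-1) 1 0, o (-15) 11 8 (-5); o 13 (-8) (-8) 6, o (-14) 11 9 (-5), o 1 (-1) 0 (-1), o (-18) 10 10 (-5)], 127⟩,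
  ⟨3, ![1, o 0 1 0 1, 1, o 1 1 0 0], !![o (-10) 6 6 (-3), o 11 (-7) (-7) 4, o 0 1 0 0, o 12 (-8) (-7) 5; o 5 (-4) (-4) 3, o (-7) 4 4 (-3), o 1 1 0 0, o (-8) 4 5 (-2); o (-5) 4 4 (-2), o 8 (-3) (-3) 3, o (-2) 0 (-1) 0, o 8 (-4) (-4) 3; o (-30) 18 17 (-10), o 34 (-20) (-19) 12, o (-1) 2 0 0, o 37 (-23) (-21) 14], 127⟩,
  ⟨3, ![o 0 1 0 0, 0, o 2 0 1 0, o 1 1 0 0], !![o 10 (-5) (-6) 4, o (-11) 7 7 (-4), o 0 (-1) 0 0, o (-12) 8 7 (-5); o 1 0 1 0, 0, 0, 0; o (-5) 4 4 (-2), o 8 (-3) (-3) 3, o (-2) 0 (-1) 0, o 8 (-4) (-4) 3; o (-19) 12 12 (-7), o 23 (-13) (-12) 8, o (-1) 1 0 0, o 25 (-15) (-14) 9], 127⟩,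
  ⟨3, ![o 0 1 0 1, 1, 1, o 1 1 0 0], !![o 5 (-4) (-4) 3, o (-7) 4 4 (-3), o 1 1 0 0, o (-8) 4 5 (-2); o (-10) 6 6 (-3), o 11 (-7) (-7) 4, o 0 1 0 0, o 12 (-8) (-7) 5; o (-5) 4 4 (-2), o 8 (-3) (-3) 3, o (-2) 0 (-1) 0, o 8 (-4) (-4) 3; o (-30) 18 17 (-10), o 34 (-20) (-19) 12, o (-1) 2 0 0, o 37 (-23) (-21) 14], 127⟩,
  ⟨3, ![o 1 1 0 1, 1, 1, o 1 1 0 0], !![o (-6) 5 3 (-2), o 7 (-4) (-4) 3, o (-1) (-1) 0 0, o 8 (-4) (-5) 2; o (-5) 4 4 (-3), o 7 (-4) (-4) 3, o (-1) (-1) 0 0, o 8 (-4) (-5) 2; o (-5) 4 4 (-2), o 8 (-3) (-3) 3, o (-2) 0 (-1) 0, o 8 (-4) (-4) 3; o (-35) 22 21 (-13), o 41 (-24) (-23) 15, o (-2) 1 0 0, o 45 (-27) (-26) 16], 127⟩,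
  ⟨3, ![0, o 0 1 0 0, o 2 0 1 0, o 1 1 0 0], !![o 1 0 1 0, 0, 0, 0; o 10 (-5) (-6) 4, o (-11) 7 7 (-4), o 0 (-1) 0 0, o (-12) 8 7 (-5); o (-5) 4 4 (-2), o 8 (-3) (-3) 3, o (-2) 0 (-1) 0, o 8 (-4) (-4) 3; o (-19) 12 12 (-7), o 23 (-13) (-12) 8, o (-1) 1 0 0, o 25 (-15) (-14) 9], 127⟩,
  ⟨3, ![1, 0, o 1 1 0 0, o 1 1 0 0], !![o (-10) 6 6 (-3), o 11 (-7) (-7) 4, o 0 1 0 0, o 12 (-8) (-7) 5; o 5 (-4) (-4) 3, o (-7) 4 4 (-3), o 1 1 0 0, o (-8) 4 5 (-2); o 5 (-4) (-4) 2, o (-8) 3 3 (-3), o 2 0 1 0, o (-8) 4 4 (-3); o (-11) 6 5 (-3), o 11 (-7) (-7) 4, o 1 1 1 0, o 12 (-8) (-7) 5], 127⟩,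
  ⟨3, ![o 0 1 0 0, 0, o 1 1 0 0, o 1 1 0 0], !![o 10 (-5) (-6) 4, o (-11) 7 7 (-4), o 0 (-1) 0 0, o (-12) 8 7 (-5); o 1 0 1 0, 0, 0, 0; o 5 (-4) (-4) 2, o (-8) 3 3 (-3), o 2 0 1 0, o (-8) 4 4 (-3); 0, 0, o 1 0 1 0, 0], 127⟩,
  ⟨3, ![0, 1, o 1 1 0 0, o 1 1 0 0], !![o 5 (-4) (-4) 3, o (-7) 4 4 (-3), o 1 1 0 0, o (-8) 4 5 (-2); o (-10) 6 6 (-3), o 11 (-7) (-7) 4, o 0 1 0 0, o 12 (-8) (-7) 5; o 5 (-4) (-4) 2, o (-8) 3 3 (-3), o 2 0 1 0, o (-8) 4 4 (-3); o (-11) 6 5 (-3), o 11 (-7) (-7) 4, o 1 1 1 0, o 12 (-8) (-7) 5], 127⟩,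
  ⟨3, ![1, 1, o 1 1 0 0, o 1 1 0 0], !![o (-6) 5 3 (-2), o 7 (-4) (-4) 3, o (-1) (-1) 0 0, o 8 (-4) (-5) 2; o (-5) 4 4 (-3), o 7 (-4) (-4) 3, o (-1) (-1) 0 0, o 8 (-4) (-5) 2; o 5 (-4) (-4) 2, o (-8) 3 3 (-3), o 2 0 1 0, o (-8) 4 4 (-3); o (-16) 10 9 (-6), o 18 (-11) (-11) 7, o 0 0 1 0, o 20 (-12) (-12) 7], 127⟩,
  ⟨3, ![0, o 0 1 0 0, o 1 1 0 0, o 1 1 0 0], !![o 1 0 1 0, 0, 0, 0; o 10 (-5) (-6) 4, o (-11) 7 7 (-4), o 0 (-1) 0 0, o (-12) 8 7 (-5); o 5 (-4) (-4) 2, o (-8) 3 3 (-3), o 2 0 1 0, o (-8) 4 4 (-3); 0, 0, o 1 0 1 0, 0], 127⟩,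
  ⟨4, ![o 1 1 0 0, 0, o 0 1 0 0, o 0 1 0 1], !![o 1 0 1 0, 0, 0, 0; o (-3) (-4) (-2) (-2), o (-2) (-2) (-1) (-1), o 10 14 6 8, o (-4) (-5) (-2) (-3); 0, o 1 0 1 0, 0, 0; o 1 2 1 1, o 0 2 1 0, o (-1) (-4) (-1) (-2), 0], 13⟩,
  ⟨4, ![o 1 1 0 1, 1, o 0 1 0 0, 0], !![o (-5) (-7) (-3) (-4), o (-2) (-4) (-1) (-2), o 14 24 8 14, o (-5) (-9) (-3) (-5); o (-4) (-8) (-2) (-5), o (-2) (-4) (-1) (-2), o 14 24 8 14, o (-5) (-9) (-3) (-5); 0, o 1 0 1 0, 0, 0; o (-1) (-1) 0 (-1), o 0 0 1 (-1), o 3 6 1 4, o (-1) (-4) (-1) (-2)], 13⟩,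
  ⟨4, ![o 1 2 0 1, 1, o 0 1 0 0, 0], !![o 5 7 3 4, o 2 4 1 2, o (-14) (-24) (-8) (-14), o 5 9 3 5; o 3 4 2 2, o 2 2 1 1, o (-10) (-14) (-6) (-8), o 4 5 2 3; 0, o 1 0 1 0, 0, 0; o 4 6 3 3, o 2 4 2 1, o (-11) (-18) (-7) (-10), o 4 5 2 3], 13⟩,
  ⟨4, ![0, o 1 1 0 0, o 0 1 0 0, o 0 1 0 1], !![o (-3) (-4) (-2) (-2), o (-2) (-2) (-1) (-1), o 10 14 6 8, o (-4) (-5) (-2) (-3); o 1 0 1 0, 0, 0, 0; 0, o 1 0 1 0, 0, 0; o 1 2 1 1, o 0 2 1 0, o (-1) (-4) (-1) (-2), 0], 13⟩,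
  ⟨4, ![1, o 1 2 0 1, o 0 1 0 0, 0], !![o 3 5 2 3, o 2 2 1 1, o (-10) (-14) (-6) (-8), o 4 5 2 3; o 4 8 2 5, o 2 4 1 2, o (-14) (-24) (-8) (-14), o 5 9 3 5; 0, o 1 0 1 0, 0, 0; o 3 7 2 4, o 2 4 2 1, o (-11) (-18) (-7) (-10), o 4 5 2 3], 13⟩,
  ⟨4, ![o 0 1 0 0, 0, 0, 1], !![o (-3) (-4) (-2) (-2), o (-2) (-2) (-1) (-1), o 10 14 6 8, o (-4) (-5) (-2) (-3); o (-5) (-7) (-3) (-4), o (-2) (-4) (-1) (-2), o 14 24 8 14, o (-5) (-9) (-3) (-5); o (-3) (-2) (-2) (-1), o (-1) (-1) (-1) 0, o 1 9 1 5, o 5 (-5) 3 (-3); o (-2) (-1) (-2) 0, o 0 0 (-1) 0, o 2 8 2 4, o 1 (-5) 1 (-3)], 13⟩,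
  ⟨4, ![o 1 1 0 0, 0, 0, 1], !![o (-3) (-4) (-2) (-2), o (-2) (-2) (-1) (-1), o 10 14 6 8, o (-4) (-5) (-2) (-3); o 1 0 1 0, 0, 0, 0; o 3 2 2 1, o 1 2 1 1, o (-1) (-9) (-1) (-5), o (-5) 5 (-3) 3; o (-1) (-3) 0 (-2), o (-2) 0 0 (-1), o 8 6 4 4, o (-5) 0 (-3) 0], 13⟩,
  ⟨4, ![0, o 0 1 0 0, 0, 1], !![o (-5) (-7) (-3) (-4), o (-2) (-4) (-1) (-2), o 14 24 8 14, o (-5) (-9) (-3) (-5); o (-3) (-4) (-2) (-2), o (-2) (-2) (-1) (-1), o 10 14 6 8, o (-4) (-5) (-2) (-3); o (-3) (-2) (-2) (-1), o (-1) (-1) (-1) 0, o 1 9 1 5, o 5 (-5) 3 (-3); o (-2) (-1) (-2) 0, o 0 0 (-1) 0, o 2 8 2 4, o 1 (-5) 1 (-3)], 13⟩,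
  ⟨4, ![o 0 1 0 0, o 0 1 0 0, 0, 1], !![o 4 8 2 5, o 2 4 1 2, o (-14) (-24) (-8) (-14), o 5 9 3 5; o 5 7 3 4, o 2 4 1 2, o (-14) (-24) (-8) (-14), o 5 9 3 5; o (-3) (-2) (-2) (-1), o (-1) (-1) (-1) 0, o 1 9 1 5, o 5 (-5) 3 (-3); o 3 6 1 4, o 2 4 0 2, o (-12) (-16) (-6) (-10), o 6 4 4 2], 13⟩,
  ⟨4, ![0, o 1 1 0 0, 0, 1], !![o 1 0 1 0, 0, 0, 0; o (-3) (-4) (-2) (-2), o (-2) (-2) (-1) (-1), o 10 14 6 8, o (-4) (-5) (-2) (-3); o 3 2 2 1, o 1 2 1 1, o (-1) (-9) (-1) (-5), o (-5) 5 (-3) 3; o (-1) (-3) 0 (-2), o (-2) 0 0 (-1), o 8 6 4 4, o (-5) 0 (-3) 0], 13⟩,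
  ⟨4, ![o 1 1 1 0, 0, o 1 1 0 0, 1], !![o (-3) (-4) (-2) (-2), o (-2) (-2) (-1) (-1), o 10 14 6 8, o (-4) (-5) (-2) (-3); o (-5) (-7) (-3) (-4), o (-2) (-4) (-1) (-2), o 14 24 8 14, o (-5) (-9) (-3) (-5); o 3 2 2 1, o 1 1 1 0, o (-1) (-9) (-1) (-5), o (-5) 5 (-3) 3; 0, o (-1) 0 1 0, o 4 1 2 1, o (-5) 0 (-3) 0], 13⟩,
  ⟨4, ![o 2 1 1 0, 0, o 1 1 0 0, 1], !![o (-3) (-4) (-2) (-2), o (-2) (-2) (-1) (-1), o 10 14 6 8, o (-4) (-5) (-2) (-3); o 1 0 1 0, 0, 0, 0; o (-3) (-2) (-2) (-1), o (-1) (-2) (-1) (-1), o 1 9 1 5, o 5 (-5) 3 (-3); o (-3) (-4) (-2) (-2), o (-2) (-2) (-1) (-1), o 6 13 4 7, o 1 (-5) 1 (-3)], 13⟩,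
  ⟨4, ![0, o 1 1 1 0, o 1 1 0 0, 1], !![o (-5) (-7) (-3) (-4), o (-2) (-4) (-1) (-2), o 14 24 8 14, o (-5) (-9) (-3) (-5); o (-3) (-4) (-2) (-2), o (-2) (-2) (-1) (-1), o 10 14 6 8, o (-4) (-5) (-2) (-3); o 3 2 2 1, o 1 1 1 0, o (-1) (-9) (-1) (-5), o (-5) 5 (-3) 3; 0, o (-1) 0 1 0, o 4 1 2 1, o (-5) 0 (-3) 0], 13⟩,
  ⟨4, ![o 0 1 0 0, o 0 1 0 0, o 1 2 0 1, 1], !![o 4 8 2 5, o 2 4 1 2, o (-14) (-24) (-8) (-14), o 5 9 3 5; o 5 7 3 4, o 2 4 1 2, o (-14) (-24) (-8) (-14), o 5 9 3 5; o 3 2 2 1, o 1 1 1 0, o (-1) (-9) (-1) (-5), o (-5) 5 (-3) 3; o 5 7 3 4, o 1 4 2 2, o (-10) (-23) (-6) (-13), o 0 9 0 5], 13⟩,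
  ⟨4, ![0, o 2 1 1 0, o 1 1 0 0, 1], !![o 1 0 1 0, 0, 0, 0; o (-3) (-4) (-2) (-2), o (-2) (-2) (-1) (-1), o 10 14 6 8, o (-4) (-5) (-2) (-3); o (-3) (-2) (-2) (-1), o (-1) (-2) (-1) (-1), o 1 9 1 5, o 5 (-5) 3 (-3); o (-3) (-4) (-2) (-2), o (-2) (-2) (-1) (-1), o 6 13 4 7, o 1 (-5) 1 (-3)], 13⟩,
  ⟨4, ![0, 0, o 0 1 0 0, o 0 1 0 0], !![o 5 7 3 4, o 2 4 1 2, o (-14) (-24) (-8) (-14), o 5 9 3 5; o 4 8 2 5, o 2 4 1 2, o (-14) (-24) (-8) (-14), o 5 9 3 5; o 2 5 1 3, o 2 2 1 1, o (-9) (-10) (-5) (-6), o 5 0 3 0; o 2 5 1 3, o 0 2 1 1, o (-9) (-14) (-5) (-8), o 5 4 3 2], 13⟩,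
  ⟨4, ![o 0 1 0 0, 0, o 0 1 0 0, o 0 1 0 0], !![o 5 7 3 4, o 2 4 1 2, o (-14) (-24) (-8) (-14), o 5 9 3 5; o 3 4 2 2, o 2 2 1 1, o (-10) (-14) (-6) (-8), o 4 5 2 3; o (-2) (-5) (-1) (-3), o (-1) (-3) 0 (-2), o 9 10 5 6, o (-5) 0 (-3) 0; o 3 2 2 1, o 1 1 1 0, o (-5) (-10) (-3) (-6), o 0 5 0 3], 13⟩,
  ⟨4, ![o 0 1 0 0, 1, o 0 1 0 0, o 0 1 0 0], !![o 1 0 1 0, 0, 0, 0; o (-3) (-4) (-2) (-2), o (-2) (-2) (-1) (-1), o 10 14 6 8, o (-4) (-5) (-2) (-3); o (-2) (-5) (-1) (-3), o (-1) (-3) 0 (-2), o 9 10 5 6, o (-5) 0 (-3) 0; o 0 (-2) 0 (-1), o (-1) (-1) 0 (-1), o 5 4 3 2, o (-4) 0 (-2) 0], 13⟩,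
  ⟨4, ![0, o 0 1 0 0, o 0 1 0 0, o 0 1 0 0], !![o 3 4 2 2, o 2 2 1 1, o (-10) (-14) (-6) (-8), o 4 5 2 3; o 5 7 3 4, o 2 4 1 2, o (-14) (-24) (-8) (-14), o 5 9 3 5; o (-2) (-5) (-1) (-3), o (-1) (-3) 0 (-2), o 9 10 5 6, o (-5) 0 (-3) 0; o 3 2 2 1, o 1 1 1 0, o (-5) (-10) (-3) (-6), o 0 5 0 3], 13⟩,
  ⟨4, ![1, o 0 1 0 0, o 0 1 0 0, o 0 1 0 0], !![o 3 5 2 3, o 2 2 1 1, o (-10) (-14) (-6) (-8), o 4 5 2 3; o 1 0 1 0, 0, 0, 0; o 2 5 1 3, o 2 2 1 1, o (-9) (-10) (-5) (-6), o 5 0 3 0; o 1 2 1 1, o 0 0 1 0, o (-5) (-4) (-3) (-2), o 4 0 2 0], 13⟩,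
  ⟨4, ![o 0 1 0 1, 0, o 1 1 0 0, o 0 1 0 0], !![o 5 7 3 4, o 2 4 1 2, o (-14) (-24) (-8) (-14), o 5 9 3 5; o 4 8 2 5, o 2 4 1 2, o (-14) (-24) (-8) (-14), o 5 9 3 5; o (-2) (-5) (-1) (-3), o (-1) (-3) 0 (-2), o 9 10 5 6, o (-5) 0 (-3) 0; o 1 2 1 1, o 0 2 1 0, o (-2) (-9) (-2) (-5), o 0 5 0 3], 13⟩,
  ⟨4, ![o 0 2 0 1, 0, o 1 1 0 0, o 0 1 0 0], !![o 5 7 3 4, o 2 4 1 2, o (-14) (-24) (-8) (-14), o 5 9 3 5; o 3 4 2 2, o 2 2 1 1, o (-10) (-14) (-6) (-8), o 4 5 2 3; o 2 5 1 3, o 1 3 0 2, o (-9) (-10) (-5) (-6), o 5 0 3 0; o 4 5 2 3, o 2 2 0 2, o (-12) (-15) (-6) (-9), o 5 4 3 2], 13⟩,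
  ⟨4, ![o 0 1 0 0, o 2 1 1 1, o 1 1 0 0, o 0 1 0 0], !![o 1 0 1 0, 0, 0, 0; o (-3) (-4) (-2) (-2), o (-2) (-2) (-1) (-1), o 10 14 6 8, o (-4) (-5) (-2) (-3); o 2 5 1 3, o 1 3 0 2, o (-9) (-10) (-5) (-6), o 5 0 3 0; o 1 1 0 1, o 0 0 (-1) 1, o (-2) (-1) 0 (-1), o 1 (-1) 1 (-1)], 13⟩,
  ⟨4, ![0, o 0 2 0 1, o 1 1 0 0, o 0 1 0 0], !![o 3 4 2 2, o 2 2 1 1, o (-10) (-14) (-6) (-8), o 4 5 2 3; o 5 7 3 4, o 2 4 1 2, o (-14) (-24) (-8) (-14), o 5 9 3 5; o 2 5 1 3, o 1 3 0 2, o (-9) (-10) (-5) (-6), o 5 0 3 0; o 4 5 2 3, o 2 2 0 2, o (-12) (-15) (-6) (-9), o 5 4 3 2], 13⟩,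
  ⟨4, ![o 2 1 1 1, o 0 1 0 0, o 1 1 0 0, o 0 1 0 0], !![o 3 5 2 3, o 2 2 1 1, o (-10) (-14) (-6) (-8), o 4 5 2 3; o 1 0 1 0, 0, 0, 0; o (-2) (-5) (-1) (-3), o (-2) (-2) (-1) (-1), o 9 10 5 6, o (-5) 0 (-3) 0; o 0 (-1) 1 (-1), o (-1) 0 0 (-1), o 2 1 0 1, o (-1) 1 (-1) 1], 13⟩]

end Pool.Agent.Q5U
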