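import Pool.Agent.Q5U.Emb
import Pool.Agent.Q5U.StartData
import Pool.Agent.Q5U.Res

/-!
# The start step: a neighbour of `E` containing `y / π`
-/

namespace Pool.Agent.Q5U

open Matrix

/-! ## kernel checks -/

/-- Half of an element with even coordinates. -/
def startHalf (x : OK) : OK := ⟨x.a / 2, x.b / 2, x.c / 2, x.d / 2⟩

/-- Row vector times matrix, written out. -/
def srow (x : V) (A : M4) : V :=
  fun j => x 0 * A 0 j + x 1 * A 1 j + x 2 * A 2 j + x 3 * A 3 j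

def startOK (e : Start) : Bool :=
  decide (e.tgt = 1 ∨ e.tgt = 2 ∨ e.tgt = 3 ∨ e.tgt = 4) &&
  decide (e.A * gram e.tgt * e.Aᵀ = Matrix.of (fun i j => ppi2 * GE i j)) &&
  decide (∀ j, ppi2 * divpi (divpi (srow e.y e.A j)) = srow e.y e.A j) &&
  decide (∀ i j, cl (e.A i j) = m4 (cl ((GE *ᵥ e.y) i)) (dig e.w j)) &&
  decide ((qf GE e.y).a % 4 = 2 ∧ (qf GE e.y).b % 4 = 0 ∧ (qf GE e.y).c % 4 = 0
    ∧ (qf GE e.y).d % 4 = 0)

set_option maxRecDepth 100000 in
theorem starts_run : ∀ e ∈ starts, startOK e = true := by decide +kernel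

set_option maxRecDepth 100000 in
theorem starts_cover : ∀ r < 256, cl (startHalf (qf GE (liftv r))) = 1 →
    ∃ e ∈ starts, clv e.y = r := by decide +kernel

/-! ## algebra -/

theorem start_vecMul {A G G' : M4} {c : OK}
    (h : A * G * Aᵀ = Matrix.of (fun i j => c * G' i j)) (x : V) :
    qf G (x ᵥ* A) = c * qf G' x := by
  have h' : A * G * Aᵀ = c • G' := by
    rw [h]; ext1 i j; simp
  unfold qf
  rw [← Matrix.mulVec_transpose A x, Matrix.mulVec_mulVec, Matrix.mulVec_transpose A x,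
    ← Matrix.dotProduct_mulVec, Matrix.mulVec_mulVec, ← Matrix.mul_assoc, h',
    Matrix.smul_mulVec, dotProduct_smul, smul_eq_mul]

theorem start_smul (G : M4) (c : OK) (x : V) : qf G (c • x) = c * c * qf G x := by
  unfold qf
  rw [Matrix.mulVec_smul, dotProduct_smul, smul_dotProduct, smul_eq_mul, smul_eq_mul, mul_assoc]

theorem start_add {G : M4} (hG : Gᵀ = G) (x y : V) :
    qf G (x + y) = qf G x + 2 * (y ⬝ᵥ G *ᵥ x) + qf G y := by
  unfold qf
  rw [Matrix.mulVec_add, add_dotProduct, dotProduct_add, dotProduct_add]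
  have : x ⬝ᵥ G *ᵥ y = y ⬝ᵥ G *ᵥ x := by
    rw [Matrix.dotProduct_mulVec, ← Matrix.mulVec_transpose, hG, dotProduct_comm]
  rw [this]
  ring

theorem start_GE_symm : GEᵀ = GE := by decide +kernel

theorem start_even (x : V) : ∃ q : OK, qf GE x = 2 * q := by
  refine ⟨x 0 * x 0 + x 1 * x 1 + (o 2 0 1 0) * (x 2 * x 2) + 2 * (x 3 * x 3)
    + o 0 1 0 0 * (x 0 * x 1) + x 0 * x 3 + x 1 * x 3 + o 2 (-1) 1 0 * (x 2 * x 3), ?_⟩
  unfold qf GE
  have e1 : (o 2 0 0 0 : OK) = 2 := by decide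
  have e2 : (o 4 0 2 0 : OK) = 2 * o 2 0 1 0 := by decide
  have e3 : (o 4 0 0 0 : OK) = 2 * 2 := by decide
  rw [e1, e2, e3]
  simp only [dotProduct, Matrix.mulVec, Fin.sum_univ_four]
  simp
  ring

theorem start_halfOK_eq {x q : OK} (h : x = 2 * q) : startHalf x = q := by
  have e2 : (2 : OK) = o 2 0 0 0 := by decide
  subst h
  unfold startHalf
  ext <;> simp only [e2, o, OK.mul_a, OK.mul_b, OK.mul_c, OK.mul_d] <;> omega

theorem start_ppi_mul_self : ppi * ppi = ppi2 := by decide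
theorem start_ppi2_mul_eps : ppi2 * eps = 2 := by decide
theorem start_ppi_ne : ppi ≠ 0 := by decide
theorem start_ppi2_ne : ppi2 ≠ 0 := by decide

theorem srow_eq (x : V) (A : M4) : srow x A = x ᵥ* A := by
  funext j
  simp only [srow, Matrix.vecMul, dotProduct, Fin.sum_univ_four]

/-- START. -/
theorem start {y : V} {g u : OK} (hy : qf GE y = 2 * g) (hg : g = 1 + 2 * u) :
    ∃ k, (k = 1 ∨ k = 2 ∨ k = 3 ∨ k = 4) ∧ ∃ x : V, qf (gram k) x = eps * g := by
  have h2ne : (2 : OK) ≠ 0 := two_ne_zero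
  -- the entry
  obtain ⟨z', hz'⟩ := exists_lift y
  have hcl : cl (startHalf (qf GE (liftv (clv y)))) = 1 := by
    obtain ⟨q0, hq0⟩ := start_even (liftv (clv y))
    obtain ⟨q1, hq1⟩ := start_even z'
    rw [start_halfOK_eq hq0]
    have h1 : 2 * g = 2 * (q0 + ppi * (z' ⬝ᵥ GE *ᵥ liftv (clv y)) + ppi * ppi * q1) := by
      rw [← hy]
      conv_lhs => rw [hz']
      rw [start_add start_GE_symm, start_smul, hq0, hq1, smul_dotProduct, smul_eq_mul]
      ring
    have h2 : g = q0 + ppi * (z' ⬝ᵥ GE *ᵥ liftv (clv y)) + ppi * ppi * q1 :=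
      mul_left_cancel₀ h2ne h1
    have h3 : cl q0 = cl (1 : OK) := by
      rw [cl_eq_iff]
      refine ⟨ppi * (eps * u) - z' ⬝ᵥ GE *ᵥ liftv (clv y) - ppi * q1, ?_⟩
      have h4 : q0 = g - ppi * (z' ⬝ᵥ GE *ᵥ liftv (clv y)) - ppi * ppi * q1 := by rw [h2]; ring
      rw [h4, hg]
      have : (2 : OK) = ppi * ppi * eps := by rw [start_ppi_mul_self, start_ppi2_mul_eps]
      rw [this]
      ring
    rw [h3]
    decide
  obtain ⟨e, he, hey⟩ := starts_cover _ (clv_lt y) hcl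
  have hrun := starts_run e he
  unfold startOK at hrun
  simp only [Bool.and_eq_true, decide_eq_true_eq] at hrun
  obtain ⟨⟨⟨⟨hk, hA⟩, hdiv⟩, hres⟩, hpar⟩ := hrun
  obtain ⟨z, hz⟩ := (clv_eq_iff y e.y).1 hey.symm
  obtain ⟨q0, hq0⟩ := start_even e.y
  obtain ⟨q1, hq1⟩ := start_even z
  obtain ⟨t, ht⟩ : ∃ t : OK, q0 = 1 + 2 * t := by
    rw [hq0] at hpar
    have e2 : (2 : OK) = o 2 0 0 0 := by decide
    refine ⟨⟨(q0.a - 1) / 2, q0.b / 2, q0.c / 2, q0.d / 2⟩, ?_⟩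
    simp only [e2, o, OK.mul_a, OK.mul_b, OK.mul_c, OK.mul_d] at hpar
    ext <;> simp only [e2, o, OK.add_a, OK.add_b, OK.add_c, OK.add_d, OK.one_a, OK.one_b,
      OK.one_c, OK.one_d, OK.mul_a, OK.mul_b, OK.mul_c, OK.mul_d] <;> omega
  -- the linear form is divisible by `π`
  have hlin : ∃ m : OK, z ⬝ᵥ GE *ᵥ e.y = ppi * m := by
    have h1 : 2 * g = 2 * (q0 + ppi * (z ⬝ᵥ GE *ᵥ e.y) + ppi * ppi * q1) := by
      rw [← hy]
      conv_lhs => rw [hz]
      rw [start_add start_GE_symm, start_smul, hq0, hq1, smul_dotProduct, smul_eq_mul]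
      ring
    have h2 : g = q0 + ppi * (z ⬝ᵥ GE *ᵥ e.y) + ppi * ppi * q1 := mul_left_cancel₀ h2ne h1
    refine ⟨eps * (u - t) - q1, ?_⟩
    apply mul_left_cancel₀ start_ppi_ne
    have h3 : ppi * (z ⬝ᵥ GE *ᵥ e.y) = 2 * (u - t) - ppi * ppi * q1 := by
      have : ppi * (z ⬝ᵥ GE *ᵥ e.y) = g - q0 - ppi * ppi * q1 := by rw [h2]; ring
      rw [this, hg, ht]
      ring
    rw [h3]
    have : (2 : OK) = ppi * ppi * eps := by rw [start_ppi_mul_self, start_ppi2_mul_eps]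
    rw [this]
    ring
  obtain ⟨m, hm⟩ := hlin
  -- `z A` is divisible by `π`
  have hzA : ∃ s : V, z ᵥ* e.A = ppi • s := by
    have h1 : ∀ i j, ∃ r : OK, e.A i j = (GE *ᵥ e.y) i * lift (dig e.w j) + ppi * r := by
      intro i j
      have hd : dig e.w j < 4 := Nat.mod_lt _ (by norm_num)
      have h2 : cl (e.A i j) = cl ((GE *ᵥ e.y) i * lift (dig e.w j)) := by
        rw [hres i j, cl_mul, cl_lift hd]
      obtain ⟨r, hr⟩ := (cl_eq_iff _ _).1 h2
      exact ⟨r, by rw [← hr]; ring⟩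
    choose r hr using h1
    refine ⟨fun j => m * lift (dig e.w j) + ∑ i, z i * r i j, ?_⟩
    funext j
    rw [Pi.smul_apply, smul_eq_mul, mul_add, ← mul_assoc, ← hm, Finset.mul_sum]
    simp only [Matrix.vecMul, dotProduct]
    rw [Finset.sum_mul, ← Finset.sum_add_distrib]
    refine Finset.sum_congr rfl fun i _ => ?_
    rw [hr i j]
    ring
  obtain ⟨s, hs⟩ := hzA
  have hyA : ∃ x' : V, y ᵥ* e.A = ppi2 • x' := by
    refine ⟨(fun j => divpi (divpi (srow e.y e.A j))) + s, ?_⟩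
    rw [hz, Matrix.add_vecMul, Matrix.smul_vecMul, hs, smul_smul, start_ppi_mul_self, smul_add]
    congr 1
    funext j
    rw [Pi.smul_apply, smul_eq_mul, hdiv j, srow_eq]
  obtain ⟨x', hx'⟩ := hyA
  refine ⟨e.tgt, hk, x', ?_⟩
  have h1 := start_vecMul hA y
  rw [hx', start_smul, hy] at h1
  have h2 : ppi2 * (ppi2 * qf (gram e.tgt) x') = ppi2 * (ppi2 * (eps * g)) := by
    rw [← mul_assoc, h1, ← mul_assoc ppi2 eps, start_ppi2_mul_eps]
  exact mul_left_cancel₀ start_ppi2_ne (mul_left_cancel₀ start_ppi2_ne h2)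

end Pool.Agent.Q5U
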