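import Pool.Agent.Q5U.WalkCheck

/-!
# Kernel checks of the walk certificate
-/

namespace Pool.Agent.Q5U

set_option maxRecDepth 100000

theorem step_run1 : ∀ r < 256, stepOK 1 r = true := by decide +kernel
theorem step_run2 : ∀ r < 256, stepOK 2 r = true := by decide +kernel
theorem step_run3 : ∀ r < 256, stepOK 3 r = true := by decide +kernel
theorem step_run4 : ∀ r < 256, stepOK 4 r = true := by decide +kernel
theorem step_run5 : ∀ r < 256, stepOK 5 r = true := by decide +kernel

theorem moves_run : ∀ m ∈ moves, moveOK m = true := by decide +kernel

end Pool.Agent.Q5U
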