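import Pool.Agent.Q5U.Emb
import Pool.Agent.Q5U.Res
import Pool.Agent.Q5U.Form
import Pool.Agent.Q5U.WalkRun

/-!
# Soundness of the walk certificate
-/

namespace Pool.Agent.Q5U

open Matrix

theorem ppi_mul_cancel {x y : OK} (h : ppi * x = ppi * y) : x = y :=
  mul_left_cancel₀ (by decide) h

theorem ppi_smul_cancel {x y : V} (h : ppi • x = ppi • y) : x = y := by
  funext k
  exact ppi_mul_cancel (congrFun h k)

/-- `ε⁻¹ = 2 + √3` (local copy). -/
def eps1' : OK := o 2 0 1 0

theorem ppi2_eq : ppi2 = ppi * ppi := by decide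

theorem testBit_four {a b c d : Prop} [Decidable a] [Decidable b] [Decidable c] [Decidable d]
    {s : ℕ} (hs : s < 4)
    (h : Nat.testBit ((if a then 1 else 0) + (if b then 2 else 0) + (if c then 4 else 0)
      + (if d then 8 else 0)) s = true) :
    (s = 0 ∧ a) ∨ (s = 1 ∧ b) ∨ (s = 2 ∧ c) ∨ (s = 3 ∧ d) := by
  by_cases ha : a <;> by_cases hb : b <;> by_cases hc : c <;> by_cases hd : d <;>
    simp only [ha, hb, hc, hd, if_true, if_false] at h <;>
    interval_cases s <;> simp_all (config := { decide := true })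

/-- Meaning of the mask. -/
theorem mask_spec {m : Move} {r ρ s : ℕ} (hs : s < 4) (h : Nat.testBit (mask m r ρ) s = true) :
    ∃ x1 : V, ppi • x1 = (liftv r) ᵥ* m.A ∧ rk m.tgt (clv x1 ^^^ scv s m.w) < ρ := by
  unfold mask at h
  dsimp only at h
  by_cases h0 : ppi * divpi (rowmul (liftv r) m.A 0) = rowmul (liftv r) m.A 0 ∧
    ppi * divpi (rowmul (liftv r) m.A 1) = rowmul (liftv r) m.A 1 ∧
    ppi * divpi (rowmul (liftv r) m.A 2) = rowmul (liftv r) m.A 2 ∧
    ppi * divpi (rowmul (liftv r) m.A 3) = rowmul (liftv r) m.A 3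
  · rw [if_pos h0] at h
    refine ⟨fun j => divpi (rowmul (liftv r) m.A j), ?_, ?_⟩
    · rw [← rowmul_eq]
      funext j
      obtain ⟨h0, h1, h2, h3⟩ := h0
      fin_cases j
      · exact h0
      · exact h1
      · exact h2
      · exact h3
    · rcases testBit_four hs h with ⟨rfl, h'⟩ | ⟨rfl, h'⟩ | ⟨rfl, h'⟩ | ⟨rfl, h'⟩ <;> exact h'
  · rw [if_neg h0] at h
    simp at h

theorem moves_bounds : ∀ m ∈ moves, m.tgt < 6 ∧ m.b < 256 ∧ m.w < 256 := by decide +kernel

/-- One neighbour step. -/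
theorem step {m : Move} (hm : m ∈ moves) {x y : V} {r ρ : ℕ} (hx : x = liftv r + ppi • y)
    (h : Nat.testBit (mask m r ρ) (dotv m.b (clv y)) = true) :
    ∃ x' : V, qf (gram m.tgt) x' = qf (gram m.src) x ∧ rk m.tgt (clv x') < ρ := by
  obtain ⟨-, hb, hw⟩ := moves_bounds m hm
  have hok := moves_run m hm
  unfold moveOK at hok
  rw [Bool.and_eq_true, decide_eq_true_eq, decide_eq_true_eq] at hok
  obtain ⟨hA, hr1⟩ := hok
  have hdot : dotv m.b (clv y) = cl (liftv m.b ⬝ᵥ y) := by
    rw [cl_dot, clv_liftv hb]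
  have hs : dotv m.b (clv y) < 4 := by rw [hdot]; exact cl_lt _
  obtain ⟨x1, hx1, hrk⟩ := mask_spec hs h
  -- rank one decomposition
  have hB : ∀ i j, ∃ z, m.A i j = liftv m.b i * liftv m.w j + ppi * z := by
    intro i j
    have h1 : cl (m.A i j) = cl (liftv m.b i * liftv m.w j) := by
      rw [hr1 i j, cl_mul]
      have e1 : cl (liftv m.b i) = dig m.b i := cl_lift (Nat.mod_lt _ (by norm_num))
      have e2 : cl (liftv m.w j) = dig m.w j := cl_lift (Nat.mod_lt _ (by norm_num))
      rw [e1, e2]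
    rw [cl_eq_iff] at h1
    obtain ⟨z, hz⟩ := h1
    exact ⟨z, by linear_combination hz⟩
  choose B hB using hB
  have hyA : y ᵥ* m.A = (liftv m.b ⬝ᵥ y) • liftv m.w + ppi • (y ᵥ* (Matrix.of B)) := by
    funext j
    simp only [Matrix.vecMul, dotProduct, Pi.add_apply, Pi.smul_apply, smul_eq_mul,
      Matrix.of_apply, Finset.sum_mul, Finset.mul_sum, ← Finset.sum_add_distrib]
    refine Finset.sum_congr rfl (fun i _ => ?_)
    rw [hB i j]
    ring
  have hclv : clv (x1 + y ᵥ* m.A) = clv x1 ^^^ scv (dotv m.b (clv y)) m.w := by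
    have e1 : clv (y ᵥ* m.A) = clv ((liftv m.b ⬝ᵥ y) • liftv m.w) :=
      (clv_eq_iff _ _).2 ⟨_, hyA⟩
    rw [clv_add, e1, clv_smul, clv_liftv hw, hdot]
  refine ⟨x1 + y ᵥ* m.A, ?_, by rw [hclv]; exact hrk⟩
  have hxA : x ᵥ* m.A = ppi • (x1 + y ᵥ* m.A) := by
    rw [hx, Matrix.add_vecMul, Matrix.smul_vecMul, smul_add, hx1]
  have h2 := qf_vecMul hA x
  rw [hxA, qf_smul, ppi2_eq] at h2
  exact mul_left_cancel₀ (by decide) h2

theorem step_run {i : ℕ} (hi : i < 6) (hi0 : i ≠ 0) {r : ℕ} (hr : r < 256) :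
    stepOK i r = true := by
  interval_cases i
  · exact absurd rfl hi0
  · exact step_run1 r hr
  · exact step_run2 r hr
  · exact step_run3 r hr
  · exact step_run4 r hr
  · exact step_run5 r hr

theorem rk_lt {i r : ℕ} : rk i r < 32 := by
  unfold rk
  split_ifs
  · norm_num
  · exact Nat.mod_lt _ (by norm_num)

theorem testBit_15 {s : ℕ} (hs : s < 4) : Nat.testBit 15 s = true := by
  interval_cases s <;> decide

theorem walk_aux (n : ℕ) : ∀ {i : ℕ}, i < 6 → ∀ {x : V}, rk i (clv x) = n → n ≠ 31 →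
    ∃ z : V, qf G0 z = qf (gram i) x := by
  induction n using Nat.strong_induction_on with
  | _ n ih =>
  intro i hi x hn hn31
  by_cases hi0 : i = 0
  · subst hi0
    exact ⟨x, rfl⟩
  obtain ⟨y, hy⟩ := exists_lift x
  have hstep := step_run hi hi0 (clv_lt x)
  unfold stepOK at hstep
  dsimp only at hstep
  rw [Bool.or_eq_true] at hstep
  rcases hstep with h | h
  · exfalso
    rw [hn] at h
    exact hn31 (by simpa using h)
  rw [Bool.and_eq_true] at h
  obtain ⟨hsrc, h⟩ := h
  rw [List.all_eq_true] at hsrc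
  have hex : ∃ m ∈ (strat i (clv x)).map mv,
      Nat.testBit (mask m (clv x) (rk i (clv x))) (dotv m.b (clv y)) = true := by
    rw [Bool.or_eq_true] at h
    rcases h with h | h
    · rw [List.any_eq_true] at h
      obtain ⟨m, hm, h15⟩ := h
      refine ⟨m, hm, ?_⟩
      have : mask m (clv x) (rk i (clv x)) = 15 := by simpa using h15
      rw [this]
      have hms := hsrc m hm
      -- bound on the dot product
      by_cases hmem : m ∈ moves
      · obtain ⟨-, hb, -⟩ := moves_bounds m hmem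
        apply testBit_15
        have hdot : dotv m.b (clv y) = cl (liftv m.b ⬝ᵥ y) := by
          rw [cl_dot, clv_liftv hb]
        rw [hdot]
        exact cl_lt _
      · exfalso
        obtain ⟨k, -, rfl⟩ := List.mem_map.1 hm
        unfold mv at hmem hms
        by_cases hk : k < moves.length
        · apply hmem
          rw [List.getD_eq_getElem _ _ hk]
          exact List.getElem_mem hk
        · rw [List.getD_eq_default _ _ (not_lt.1 hk)] at hms
          have : (0 : ℕ) = i := by simpa [dflt] using hms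
          exact hi0 this.symm
    · rw [List.all_eq_true] at h
      have h2 := h (clv y) (List.mem_range.2 (clv_lt y))
      rw [List.any_eq_true] at h2
      exact h2
  obtain ⟨m, hm, hbit⟩ := hex
  have hms := hsrc m hm
  have hms' : m.src = i := by simpa using hms
  have hmem : m ∈ moves := by
    obtain ⟨k, -, rfl⟩ := List.mem_map.1 hm
    unfold mv at hms' ⊢
    by_cases hk : k < moves.length
    · rw [List.getD_eq_getElem _ _ hk]
      exact List.getElem_mem hk
    · rw [List.getD_eq_default _ _ (not_lt.1 hk)] at hms'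
      exact absurd hms'.symm hi0
  obtain ⟨x', hq, hrk⟩ := step hmem hy hbit
  rw [hn] at hrk
  have hlt := @rk_lt i (clv x)
  obtain ⟨z, hz⟩ := ih _ hrk (moves_bounds m hmem).1 rfl (by omega)
  exact ⟨z, by rw [hz, hq, hms']⟩

theorem walk {i : ℕ} (hi : i < 6) {x : V} (h : rk i (clv x) ≠ 31) :
    ∃ z : V, qf G0 z = qf (gram i) x :=
  walk_aux _ hi rfl h

theorem rk5 : ∀ r < 256, rk 5 r ≠ 31 := by decide +kernel

theorem walk_E (x : V) : ∃ z : V, qf G0 z = qf GE x :=
  walk (i := 5) (by norm_num) (rk5 _ (clv_lt x))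

/-- The value of the form, written out for kernel evaluation. -/
def qfe (G : M4) (x : V) : OK :=
  x 0 * (rowmul x G 0) + x 1 * (rowmul x G 1) + x 2 * (rowmul x G 2) + x 3 * (rowmul x G 3)

theorem qfe_eq (G : M4) (x : V) : qfe G x = qf G x := by
  unfold qfe qf
  rw [rowmul_eq, Matrix.dotProduct_mulVec]
  simp only [dotProduct, Fin.sum_univ_four]
  ring

theorem gram_symm : ∀ k ∈ [0, 1, 2, 3, 4, 5], (gram k)ᵀ = gram k := by decide +kernel

theorem rk_eps : ∀ k ∈ [1, 2, 3, 4], ∀ r < 256,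
    rk k r ≠ 31 ∨ ¬ ((qfe (gram k) (liftv r)).a % 2 = 0 ∧ (qfe (gram k) (liftv r)).b % 2 = 0 ∧
      (qfe (gram k) (liftv r)).c % 2 = 1 ∧ (qfe (gram k) (liftv r)).d % 2 = 0) := by
  decide +kernel

theorem walk_eps {k : ℕ} (hk : k = 1 ∨ k = 2 ∨ k = 3 ∨ k = 4) {x : V} {y : OK}
    (h : qf (gram k) x = eps + 2 * y) : ∃ z : V, qf G0 z = qf (gram k) x := by
  have hk6 : k < 6 := by rcases hk with rfl | rfl | rfl | rfl <;> norm_num
  have hkm : k ∈ [1, 2, 3, 4] := by rcases hk with rfl | rfl | rfl | rfl <;> decide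
  have hks : (gram k)ᵀ = gram k := by
    rcases hk with rfl | rfl | rfl | rfl <;> exact gram_symm _ (by decide)
  refine walk hk6 ?_
  obtain ⟨z, hz⟩ := exists_lift x
  rcases rk_eps k hkm (clv x) (clv_lt x) with h1 | h1
  · exact h1
  · exfalso
    apply h1
    rw [qfe_eq]
    have h2 := qf_add hks (liftv (clv x)) (ppi • z)
    rw [← hz, h, qf_smul] at h2
    have h3 : qf (gram k) (liftv (clv x))
        = eps + 2 * (y - liftv (clv x) ⬝ᵥ gram k *ᵥ (ppi • z) - eps1' * qf (gram k) z) := by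
      have e : ppi * ppi = 2 * eps1' := by decide
      linear_combination -h2 - qf (gram k) z * e
    rw [h3]
    generalize (y - liftv (clv x) ⬝ᵥ gram k *ᵥ (ppi • z) - eps1' * qf (gram k) z) = w
    have ha : (eps + 2 * w).a = 2 + 2 * w.a := by simp [eps, o, two_mul]; try ring
    have hb : (eps + 2 * w).b = 2 * w.b := by simp [eps, o, two_mul]
    have hc : (eps + 2 * w).c = -1 + 2 * w.c := by simp [eps, o, two_mul]
    have hd : (eps + 2 * w).d = 2 * w.d := by simp [eps, o, two_mul]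
    rw [ha, hb, hc, hd]
    omega

end Pool.Agent.Q5U
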