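import Pool.Agent.Q5U.Euniv
import Pool.Agent.Q5U.Walk
import Pool.Agent.Q5U.Start
import Pool.Agent.Q5U.Form

/-!
# The lattice `G0` represents every totally positive element with `a`, `b` even
-/

namespace Pool.Agent.Q5U

open Matrix

theorem l4rep_two_TP : TP (2 : OK) := by
  rw [← tpb_iff]; decide

theorem l4rep_eps1_TP : TP eps1 := by
  rw [← tpb_iff]; decide

theorem l4rep_eps_mul : eps * eps1 = 1 := by decide

/-- The even case. -/
theorem l4rep_even {g : OK} (hg : TP g) (ha : Even g.a) (hb : Even g.b) (hc : Even g.c)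
    (hd : Even g.d) : ∃ z : V, qf G0 z = g := by
  obtain ⟨a, ha⟩ := ha
  obtain ⟨b, hb⟩ := hb
  obtain ⟨c, hc⟩ := hc
  obtain ⟨d, hd⟩ := hd
  have hg2 : g = (⟨a, b, c, d⟩ : OK) * 2 := by
    have h2 : (2 : OK) = ⟨2, 0, 0, 0⟩ := by decide
    rw [h2]
    ext <;> simp [ha, hb, hc, hd] <;> ring
  have hT : TP (⟨a, b, c, d⟩ : OK) := by
    rw [hg2] at hg
    exact TP.of_mul l4rep_two_TP hg
  obtain ⟨x, hx⟩ := E_univ hT
  obtain ⟨z, hz⟩ := walk_E x
  exact ⟨z, by rw [hz, hx, hg2, mul_comm]⟩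

/-- The case `c` odd, `d` even. -/
theorem l4rep_odd {g : OK} (hg : TP g) (ha : Even g.a) (hb : Even g.b) (hc : ¬ Even g.c)
    (hd : Even g.d) : ∃ z : V, qf G0 z = g := by
  rw [Int.not_even_iff_odd] at hc
  obtain ⟨a, ha⟩ := ha
  obtain ⟨b, hb⟩ := hb
  obtain ⟨c, hc⟩ := hc
  obtain ⟨d, hd⟩ := hd
  have hT : TP (eps1 * g) := TP.mul l4rep_eps1_TP hg
  have hu : eps1 * g = 1 + 2 * (⟨2 * a + 3 * c + 1, 2 * b + 3 * d, a + 2 * c + 1, b + 2 * d⟩ : OK) := by
    have h2 : (2 : OK) = ⟨2, 0, 0, 0⟩ := by decide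
    rw [h2]
    ext <;> simp [eps1, o, ha, hb, hc, hd] <;> ring
  obtain ⟨y, hy⟩ := E_univ hT
  obtain ⟨k, hk, x, hx⟩ := start hy hu
  have hg' : eps * (eps1 * g) = g := by rw [← mul_assoc, l4rep_eps_mul, one_mul]
  have hx2 : qf (gram k) x = eps + 2 * (eps *
      (⟨2 * a + 3 * c + 1, 2 * b + 3 * d, a + 2 * c + 1, b + 2 * d⟩ : OK)) := by
    rw [hx, hu]; ring
  obtain ⟨z, hz⟩ := walk_eps hk hx2
  exact ⟨z, by rw [hz, hx, hg']⟩

/-- Scaling by a square of a unit. -/
theorem l4rep_scale {g u v : OK} (huv : u * v = 1) (h : ∃ z : V, qf G0 z = u * u * g) :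
    ∃ z : V, qf G0 z = g := by
  obtain ⟨z, hz⟩ := h
  refine ⟨v • z, ?_⟩
  rw [qf_smul, hz]
  calc v * v * (u * u * g) = (u * v) * (u * v) * g := by ring
    _ = g := by rw [huv]; ring

theorem L4_rep {g : OK} (hg : TP g) (ha : Even g.a) (hb : Even g.b) :
    ∃ z : V, qf G0 z = g := by
  have hphi : TP (phi * phi) := by rw [← tpb_iff]; decide
  have hphi4 : TP (phi * phi * (phi * phi)) := TP.mul hphi hphi
  by_cases hc : Even g.c
  · by_cases hd : Even g.d
    · exact l4rep_even hg ha hb hc hd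
    · -- parity (0, 1): multiply by `φ²`
      apply l4rep_scale (u := phi) (v := o (-1) 1 0 0) (by decide)
      have e : phi * phi * g = ⟨g.a + g.b, g.a + 2 * g.b, g.c + g.d, g.c + 2 * g.d⟩ := by
        ext <;> simp [phi, o] <;> ring
      apply l4rep_odd (TP.mul hphi hg)
      · rw [e]; exact ha.add hb
      · rw [e]; exact ha.add (even_two_mul _)
      · rw [e]; simp only [Int.even_add, hc, hd]; simp
      · rw [e]; exact hc.add (even_two_mul _)
  · by_cases hd : Even g.d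
    · exact l4rep_odd hg ha hb hc hd
    · -- parity (1, 1): multiply by `φ⁴`
      apply l4rep_scale (u := phi * phi) (v := o 2 (-1) 0 0) (by decide)
      have e : phi * phi * (phi * phi) * g
          = ⟨2 * g.a + 3 * g.b, 3 * g.a + 5 * g.b, 2 * g.c + 3 * g.d, 3 * g.c + 5 * g.d⟩ := by
        ext <;> simp [phi, o] <;> ring
      apply l4rep_odd (TP.mul hphi4 hg)
      · rw [e]; exact (even_two_mul _).add (hb.mul_left _)
      · rw [e]; exact (ha.mul_left _).add (hb.mul_left _)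
      · rw [e]
        have h2 : Even (2 : ℤ) := by decide
        have h3 : ¬ Even (3 : ℤ) := by decide
        simp only [Int.even_add, Int.even_mul, hd, h2, h3]
        simp
      · rw [e]
        simp only [Int.even_add, Int.even_mul, hc, hd]
        decide

end Pool.Agent.Q5U
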