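import Pool.Agent.Q5U.Emb
import Pool.Agent.Q5U.Form
import Pool.Agent.Q5U.Res
import Pool.Agent.Q5U.FinCheck
import Pool.Agent.Q5U.Gal
import Pool.Agent.Q5U.L4rep
import Pool.Agent.Q5U.Cover
import Pool.Agent.Q5U.Fin

/-!
# The odd case
-/

namespace Pool.Agent.Q5U

open Matrix

theorem odd_exc : ∀ e ∈ exc, e.2.1 ^ 2 + qf G0 e.2.2 = e.1 := by decide +kernel

theorem odd_units : ∀ u ∈ redUnits, u.1 * u.2 = 1 ∧ cl u.1 = 1 := by decide +kernel

theorem odd_subT : ∀ t ∈ subT, cl t = 1 := by decide +kernel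

theorem odd_subSq : subSq = subT.map (fun t => t * t) := by decide +kernel

theorem odd_forms : redForms = redUnits.map (fun u =>
    (4 * (u.1 * u.1).a + 2 * (u.1 * u.1).b - 4, 2 * (u.1 * u.1).a + 6 * (u.1 * u.1).b - 2,
      3 * (4 * (u.1 * u.1).c + 2 * (u.1 * u.1).d),
      3 * (2 * (u.1 * u.1).c + 6 * (u.1 * u.1).d))) := by decide +kernel

theorem odd_evf (u x : OK) :
    evf (4 * (u * u).a + 2 * (u * u).b - 4, 2 * (u * u).a + 6 * (u * u).b - 2,
      3 * (4 * (u * u).c + 2 * (u * u).d), 3 * (2 * (u * u).c + 6 * (u * u).d)) x =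
    trc (u * u * x) - trc x := by
  generalize u * u = w
  simp only [evf, trc, OK.mul_a, OK.mul_b]
  ring

/-- Squares of elements of class `1` modulo `π` are `1` modulo `2`. -/
theorem odd_sq {t : OK} (ht : cl t = 1) : ∃ y : OK, t * t = 1 + 2 * y := by
  have h1 : (t.a + t.c) % 2 = 1 ∧ (t.b + t.d) % 2 = 0 := by
    unfold cl at ht
    have a1 : 0 ≤ (t.a + t.c) % 2 ∧ (t.a + t.c) % 2 < 2 := by omega
    have a2 : 0 ≤ (t.b + t.d) % 2 ∧ (t.b + t.d) % 2 < 2 := by omega
    omega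
  obtain ⟨ka, hka⟩ : ∃ ka, t.a = 2 * ka + 1 - t.c := ⟨(t.a + t.c) / 2, by omega⟩
  obtain ⟨kb, hkb⟩ : ∃ kb, t.b = 2 * kb - t.d := ⟨(t.b + t.d) / 2, by omega⟩
  have hcc : ∃ m, t.c * t.c = 2 * m + t.c := by
    rcases Int.even_or_odd t.c with ⟨m, hm⟩ | ⟨m, hm⟩
    · exact ⟨2 * m * m - m, by rw [hm]; ring⟩
    · exact ⟨2 * m * m + m, by rw [hm]; ring⟩
  have hdd : ∃ m, t.d * t.d = 2 * m + t.d := by
    rcases Int.even_or_odd t.d with ⟨m, hm⟩ | ⟨m, hm⟩
    · exact ⟨2 * m * m - m, by rw [hm]; ring⟩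
    · exact ⟨2 * m * m + m, by rw [hm]; ring⟩
  have hh : ∀ z : OK, z.a % 2 = 1 → z.b % 2 = 0 → z.c % 2 = 0 → z.d % 2 = 0 →
      ∃ y : OK, z = 1 + 2 * y := by
    intro z za zb zc zd
    refine ⟨⟨z.a / 2, z.b / 2, z.c / 2, z.d / 2⟩, ?_⟩
    have two_a : (2 : OK).a = 2 := rfl
    have two_b : (2 : OK).b = 0 := rfl
    have two_c : (2 : OK).c = 0 := rfl
    have two_d : (2 : OK).d = 0 := rfl
    ext <;> simp only [OK.add_a, OK.add_b, OK.add_c, OK.add_d, OK.one_a, OK.one_b, OK.one_c,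
      OK.one_d, OK.mul_a, OK.mul_b, OK.mul_c, OK.mul_d, two_a, two_b, two_c, two_d] <;> omega
  obtain ⟨m, hm⟩ := hcc
  obtain ⟨l, hl⟩ := hdd
  apply hh
  · rw [OK.mul_a, hka, hkb]
    have : (2 * ka + 1 - t.c) * (2 * ka + 1 - t.c) + (2 * kb - t.d) * (2 * kb - t.d) +
        3 * (t.c * t.c + t.d * t.d) =
        2 * (2 * ka * ka + 2 * ka - 2 * ka * t.c - t.c + 2 * kb * kb - 2 * kb * t.d +
          2 * (t.c * t.c) + 2 * (t.d * t.d)) + 1 := by ring
    rw [this]
    omega
  · rw [OK.mul_b, hka, hkb]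
    have : (2 * ka + 1 - t.c) * (2 * kb - t.d) + (2 * kb - t.d) * (2 * ka + 1 - t.c) +
        (2 * kb - t.d) * (2 * kb - t.d) + 3 * (t.c * t.d + t.d * t.c + t.d * t.d) =
        2 * ((2 * ka + 1 - t.c) * (2 * kb - t.d) + 2 * kb * kb - 2 * kb * t.d +
          3 * (t.c * t.d) + 2 * (t.d * t.d)) := by ring
    rw [this]
    omega
  · rw [OK.mul_c, hka, hkb]
    have : (2 * ka + 1 - t.c) * t.c + (2 * kb - t.d) * t.d + t.c * (2 * ka + 1 - t.c) +
        t.d * (2 * kb - t.d) =
        2 * ((2 * ka + 1 - t.c) * t.c + (2 * kb - t.d) * t.d) := by ring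
    rw [this]
    omega
  · rw [OK.mul_d, hka, hkb]
    have : (2 * ka + 1 - t.c) * t.d + (2 * kb - t.d) * t.c + (2 * kb - t.d) * t.d +
        t.c * (2 * kb - t.d) + t.d * (2 * ka + 1 - t.c) + t.d * (2 * kb - t.d) =
        2 * ((2 * ka + 1 - t.c) * t.d + (2 * kb - t.d) * t.c + (2 * kb - t.d) * t.d) := by ring
    rw [this]
    omega

theorem odd_mul_parity {v y x : OK} (hv : v = 1 + 2 * y) :
    (Even (v * x).a ↔ Even x.a) ∧ (Even (v * x).b ↔ Even x.b) := by
  have two_a : (2 : OK).a = 2 := rfl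
  have two_b : (2 : OK).b = 0 := rfl
  have two_c : (2 : OK).c = 0 := rfl
  have two_d : (2 : OK).d = 0 := rfl
  have e : v * x = x + 2 * (y * x) := by rw [hv]; ring
  rw [e]
  constructor
  · rw [OK.add_a, OK.mul_a 2 (y * x), two_a, two_b, two_c, two_d]
    rw [show x.a + (2 * (y * x).a + 0 * (y * x).b + 3 * (0 * (y * x).c + 0 * (y * x).d)) =
      x.a + 2 * (y * x).a by ring]
    simp only [Int.even_iff]
    omega
  · rw [OK.add_b, OK.mul_b 2 (y * x), two_a, two_b, two_c, two_d]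
    rw [show x.b + (2 * (y * x).b + 0 * (y * x).a + 0 * (y * x).b +
      3 * (0 * (y * x).d + 0 * (y * x).c + 0 * (y * x).d)) = x.b + 2 * (y * x).b by ring]
    simp only [Int.even_iff]
    omega

/-- Subtraction of a square of class `1`. -/
theorem odd_sub {x t : OK} (ha : ¬ Even x.a) (hb : Even x.b) (ht : cl t = 1)
    (h : TP (x - t * t) ∨ x - t * t = 0) : ∃ (t : OK) (z : V), t ^ 2 + qf G0 z = x := by
  rcases h with h | h
  · obtain ⟨y, hy⟩ := odd_sq ht
    have two_a : (2 : OK).a = 2 := rfl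
    have two_b : (2 : OK).b = 0 := rfl
    have two_c : (2 : OK).c = 0 := rfl
    have two_d : (2 : OK).d = 0 := rfl
    have e1 : Even (x - t * t).a := by
      rw [hy, OK.sub_a, OK.add_a, OK.mul_a, two_a, two_b, two_c, two_d, OK.one_a]
      rw [show x.a - (1 + (2 * y.a + 0 * y.b + 3 * (0 * y.c + 0 * y.d))) =
        x.a - 1 - 2 * y.a by ring]
      simp only [Int.even_iff] at ha ⊢
      omega
    have e2 : Even (x - t * t).b := by
      rw [hy, OK.sub_b, OK.add_b, OK.mul_b, two_a, two_b, two_c, two_d, OK.one_b]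
      rw [show x.b - (0 + (2 * y.b + 0 * y.a + 0 * y.b + 3 * (0 * y.d + 0 * y.c + 0 * y.d))) =
        x.b - 2 * y.b by ring]
      simp only [Int.even_iff] at hb ⊢
      omega
    obtain ⟨z, hz⟩ := L4_rep h e1 e2
    refine ⟨t, z, ?_⟩
    rw [hz]
    ring
  · refine ⟨t, 0, ?_⟩
    have hq : qf G0 0 = 0 := by simp [qf]
    rw [hq]
    have : x = t * t := sub_eq_zero.1 h
    rw [this]
    ring

theorem odd_sg_sq (u : OK) (hu : u ≠ 0) (i : Fin 4) : 0 < sg i (u * u) := by
  rw [map_mul]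
  exact mul_self_pos.2 (sg_ne_zero hu i)

theorem odd_case_aux (N : ℕ) : ∀ x : OK, (trc x).toNat ≤ N → TP x → ¬ Even x.a → Even x.b →
    ∃ (t : OK) (z : V), t ^ 2 + qf G0 z = x := by
  induction N with
  | zero =>
    intro x hN h _ _
    have := h.trc_pos
    omega
  | succ N ih =>
    intro x hN h ha hb
    have htp := h.trc_pos
    -- (i) reduction by a unit
    by_cases h1 : ∃ u ∈ redUnits, trc (u.1 * u.1 * x) < trc x
    · obtain ⟨u, hu, hlt⟩ := h1
      obtain ⟨hu1, hu2⟩ := odd_units u hu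
      have hu0 : u.1 ≠ 0 := by
        intro h0
        rw [h0, zero_mul] at hu1
        exact zero_ne_one hu1
      obtain ⟨y, hy⟩ := odd_sq hu2
      have hpar := odd_mul_parity (x := x) hy
      have hTP : TP (u.1 * u.1 * x) := by
        intro i
        rw [map_mul]
        exact mul_pos (odd_sg_sq u.1 hu0 i) (h i)
      obtain ⟨t, z, htz⟩ := ih (u.1 * u.1 * x) (by omega) hTP (fun hh => ha (hpar.1.1 hh))
        (hpar.2.2 hb)
      refine ⟨u.2 * t, u.2 • z, ?_⟩
      rw [qf_smul]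
      calc (u.2 * t) ^ 2 + u.2 * u.2 * qf G0 z = u.2 * u.2 * (t ^ 2 + qf G0 z) := by ring
        _ = (u.1 * u.2) * (u.1 * u.2) * x := by rw [htz]; ring
        _ = x := by rw [hu1]; ring
    push Not at h1
    -- (ii) subtraction of a square
    by_cases h2 : ∃ t : OK, cl t = 1 ∧ (TP (x - t * t) ∨ x - t * t = 0)
    · obtain ⟨t, ht, h⟩ := h2
      exact odd_sub ha hb ht h
    push Not at h2
    -- (iii) some embedding is at most `1`
    obtain ⟨k, hk⟩ : ∃ k, sg k x ≤ 1 := by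
      by_contra hc
      push Not at hc
      refine (h2 1 (by decide)).1 (fun i => ?_)
      rw [mul_one, map_sub, map_one]
      linarith [hc i]
    obtain ⟨p, hp0, hp⟩ := sg_gal k
    obtain ⟨y, hy⟩ : ∃ y, y = gal k x := ⟨_, rfl⟩
    have hyx : gal k y = x := by rw [hy, gal_gal]
    have hyTP : TP y := by rw [hy]; exact gal_TP.2 h
    have hytrc : trc y = trc x := by rw [hy, trc_gal]
    have hyp := gal_parity k x hb
    rw [← hy] at hyp
    have hya : ¬ Even y.a := fun hh => ha (hyp.1.1 hh)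
    have hy0 : sg 0 y ≤ 1 := by
      rw [hy, hp 0 x, hp0]
      exact hk
    -- transport of the two facts
    have h1y : ∀ u ∈ redUnits, trc y ≤ trc (u.1 * u.1 * y) := by
      intro u hu
      obtain ⟨u', hu', hq⟩ := gal_redUnits k u hu
      have e : trc (u.1 * u.1 * y) = trc (u'.1 * u'.1 * x) := by
        rw [← trc_gal k (u.1 * u.1 * y), map_mul, map_mul, hyx, ← hq]
      rw [e, hytrc]
      exact h1 u' hu'
    have h2y : ∀ t : OK, cl t = 1 → ¬ (TP (y - t * t) ∨ y - t * t = 0) := by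
      intro t ht hh
      have hc := h2 (gal k t) (gal_cl k ht)
      have e : x - gal k t * gal k t = gal k (y - t * t) := by
        rw [map_sub, map_mul, hyx]
      rw [e] at hc
      rcases hh with hh | hh
      · exact hc.1 (gal_TP.2 hh)
      · rw [hh, map_zero] at hc
        exact hc.2 rfl
    -- the trace is at most 150
    have htr : trc y ≤ 150 := by
      by_contra hbig
      push Not at hbig
      have hbig' : (150 : ℝ) < ∑ i, sg i y := by
        rw [← trc_eq]
        exact_mod_cast hbig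
      obtain ⟨t, ht, hlt⟩ := cover (x := fun i => sg i y) hyTP hy0 (by
        intro u hu
        have e1 : ∑ i, sg i y = (trc y : ℝ) := (trc_eq y).symm
        have e2 : ∑ i, sg i u.1 ^ 2 * sg i y = (trc (u.1 * u.1 * y) : ℝ) := by
          rw [trc_eq]
          apply Finset.sum_congr rfl
          intro i _
          rw [map_mul, map_mul]
          ring
        show ∑ i, sg i y ≤ ∑ i, sg i u.1 ^ 2 * sg i y
        rw [e1, e2]
        exact_mod_cast h1y u hu) hbig'
      refine h2y t ht (Or.inl (fun i => ?_))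
      rw [map_sub, map_mul]
      have := hlt i
      have h' : sg i t ^ 2 < sg i y := this
      nlinarith
    have hfin := fin_check hyTP hya hyp.2 htr hy0
    unfold okElt at hfin
    rw [Bool.or_eq_true, Bool.or_eq_true, Bool.or_eq_true] at hfin
    rcases hfin with ((hf | hf) | hf) | hf
    · exfalso
      rw [(tpb_iff y).2 hyTP] at hf
      exact absurd hf (by decide)
    · exfalso
      obtain ⟨f, hf1, hf2⟩ := List.any_eq_true.1 hf
      rw [odd_forms] at hf1
      obtain ⟨u, hu, rfl⟩ := List.mem_map.1 hf1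
      rw [decide_eq_true_eq, odd_evf] at hf2
      have := h1y u hu
      omega
    · exfalso
      obtain ⟨t, ht1, ht2⟩ := List.any_eq_true.1 hf
      rw [odd_subSq] at ht1
      obtain ⟨t', ht', rfl⟩ := List.mem_map.1 ht1
      refine h2y t' (odd_subT t' ht') ?_
      simp only [Bool.or_eq_true, beq_iff_eq] at ht2
      rcases ht2 with ht2 | ht2
      · exact Or.inr ht2
      · exact Or.inl ((tpb_iff _).1 ht2)
    · obtain ⟨e, he1, he2⟩ := List.any_eq_true.1 hf
      rw [beq_iff_eq] at he2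
      obtain ⟨e', he', heq⟩ := gal_exc k e he1
      rw [he2, hyx] at heq
      exact ⟨e'.2.1, e'.2.2, by rw [odd_exc e' he', heq]⟩

theorem odd_case {x : OK} (h : TP x) (ha : ¬ Even x.a) (hb : Even x.b) :
    ∃ (t : OK) (z : V), t ^ 2 + qf G0 z = x :=
  odd_case_aux _ x le_rfl h ha hb

end Pool.Agent.Q5U
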