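import Mathlib

namespace Pool.Agent.Q5U

/-- The element `a + b φ + (c + d φ) √3` of the ring of integers of `ℚ(√3, √5)`,
where `φ = (1 + √5) / 2`. -/
@[ext]
structure OK where
  a : ℤ
  b : ℤ
  c : ℤ
  d : ℤ
deriving DecidableEq

namespace OK

instance : Zero OK := ⟨⟨0, 0, 0, 0⟩⟩
instance : One OK := ⟨⟨1, 0, 0, 0⟩⟩
instance : Add OK := ⟨fun x y => ⟨x.a + y.a, x.b + y.b, x.c + y.c, x.d + y.d⟩⟩
instance : Neg OK := ⟨fun x => ⟨-x.a, -x.b, -x.c, -x.d⟩⟩
instance : Sub OK := ⟨fun x y => ⟨x.a - y.a, x.b - y.b, x.c - y.c, x.d - y.d⟩⟩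
instance : Mul OK := ⟨fun x y =>
  ⟨x.a * y.a + x.b * y.b + 3 * (x.c * y.c + x.d * y.d),
   x.a * y.b + x.b * y.a + x.b * y.b + 3 * (x.c * y.d + x.d * y.c + x.d * y.d),
   x.a * y.c + x.b * y.d + x.c * y.a + x.d * y.b,
   x.a * y.d + x.b * y.c + x.b * y.d + x.c * y.b + x.d * y.a + x.d * y.b⟩⟩
instance : NatCast OK := ⟨fun n => ⟨n, 0, 0, 0⟩⟩
instance : IntCast OK := ⟨fun n => ⟨n, 0, 0, 0⟩⟩
instance : SMul ℕ OK := ⟨fun n x => ⟨n * x.a, n * x.b, n * x.c, n * x.d⟩⟩
instance : SMul ℤ OK := ⟨fun n x => ⟨n * x.a, n * x.b, n * x.c, n * x.d⟩⟩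

@[simp] theorem zero_a : (0 : OK).a = 0 := rfl
@[simp] theorem zero_b : (0 : OK).b = 0 := rfl
@[simp] theorem zero_c : (0 : OK).c = 0 := rfl
@[simp] theorem zero_d : (0 : OK).d = 0 := rfl
@[simp] theorem one_a : (1 : OK).a = 1 := rfl
@[simp] theorem one_b : (1 : OK).b = 0 := rfl
@[simp] theorem one_c : (1 : OK).c = 0 := rfl
@[simp] theorem one_d : (1 : OK).d = 0 := rfl
@[simp] theorem add_a (x y : OK) : (x + y).a = x.a + y.a := rfl
@[simp] theorem add_b (x y : OK) : (x + y).b = x.b + y.b := rfl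
@[simp] theorem add_c (x y : OK) : (x + y).c = x.c + y.c := rfl
@[simp] theorem add_d (x y : OK) : (x + y).d = x.d + y.d := rfl
@[simp] theorem neg_a (x : OK) : (-x).a = -x.a := rfl
@[simp] theorem neg_b (x : OK) : (-x).b = -x.b := rfl
@[simp] theorem neg_c (x : OK) : (-x).c = -x.c := rfl
@[simp] theorem neg_d (x : OK) : (-x).d = -x.d := rfl
@[simp] theorem sub_a (x y : OK) : (x - y).a = x.a - y.a := rfl
@[simp] theorem sub_b (x y : OK) : (x - y).b = x.b - y.b := rfl
@[simp] theorem sub_c (x y : OK) : (x - y).c = x.c - y.c := rfl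
@[simp] theorem sub_d (x y : OK) : (x - y).d = x.d - y.d := rfl
@[simp] theorem mul_a (x y : OK) :
    (x * y).a = x.a * y.a + x.b * y.b + 3 * (x.c * y.c + x.d * y.d) := rfl
@[simp] theorem mul_b (x y : OK) :
    (x * y).b = x.a * y.b + x.b * y.a + x.b * y.b
      + 3 * (x.c * y.d + x.d * y.c + x.d * y.d) := rfl
@[simp] theorem mul_c (x y : OK) :
    (x * y).c = x.a * y.c + x.b * y.d + x.c * y.a + x.d * y.b := rfl
@[simp] theorem mul_d (x y : OK) :
    (x * y).d = x.a * y.d + x.b * y.c + x.b * y.d + x.c * y.b + x.d * y.a + x.d * y.b := rfl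
@[simp] theorem nsmul_a (n : ℕ) (x : OK) : (n • x).a = n * x.a := rfl
@[simp] theorem nsmul_b (n : ℕ) (x : OK) : (n • x).b = n * x.b := rfl
@[simp] theorem nsmul_c (n : ℕ) (x : OK) : (n • x).c = n * x.c := rfl
@[simp] theorem nsmul_d (n : ℕ) (x : OK) : (n • x).d = n * x.d := rfl
@[simp] theorem zsmul_a (n : ℤ) (x : OK) : (n • x).a = n * x.a := rfl
@[simp] theorem zsmul_b (n : ℤ) (x : OK) : (n • x).b = n * x.b := rfl
@[simp] theorem zsmul_c (n : ℤ) (x : OK) : (n • x).c = n * x.c := rfl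
@[simp] theorem zsmul_d (n : ℤ) (x : OK) : (n • x).d = n * x.d := rfl
@[simp] theorem natCast_a (n : ℕ) : (n : OK).a = n := rfl
@[simp] theorem natCast_b (n : ℕ) : (n : OK).b = 0 := rfl
@[simp] theorem natCast_c (n : ℕ) : (n : OK).c = 0 := rfl
@[simp] theorem natCast_d (n : ℕ) : (n : OK).d = 0 := rfl
@[simp] theorem intCast_a (n : ℤ) : (n : OK).a = n := rfl
@[simp] theorem intCast_b (n : ℤ) : (n : OK).b = 0 := rfl
@[simp] theorem intCast_c (n : ℤ) : (n : OK).c = 0 := rfl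
@[simp] theorem intCast_d (n : ℤ) : (n : OK).d = 0 := rfl

instance : CommRing OK where
  add_assoc x y z := by ext <;> simp <;> ring
  zero_add x := by ext <;> simp
  add_zero x := by ext <;> simp
  add_comm x y := by ext <;> simp <;> ring
  left_distrib x y z := by ext <;> simp <;> ring
  right_distrib x y z := by ext <;> simp <;> ring
  zero_mul x := by ext <;> simp
  mul_zero x := by ext <;> simp
  mul_assoc x y z := by ext <;> simp <;> ring
  one_mul x := by ext <;> simp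
  mul_one x := by ext <;> simp
  mul_comm x y := by ext <;> simp <;> ring
  neg_add_cancel x := by ext <;> simp
  sub_eq_add_neg x y := by ext <;> simp <;> ring
  nsmul n x := n • x
  nsmul_zero x := by ext <;> simp
  nsmul_succ n x := by ext <;> simp <;> ring
  zsmul n x := n • x
  zsmul_zero' x := by ext <;> simp
  zsmul_succ' n x := by ext <;> simp <;> ring
  zsmul_neg' n x := by
    ext <;> simp only [zsmul_a, zsmul_b, zsmul_c, zsmul_d, neg_a, neg_b, neg_c, neg_d] <;>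
      push_cast [Int.negSucc_eq] <;> ring
  natCast_zero := by ext <;> simp
  natCast_succ n := by ext <;> simp
  intCast_ofNat n := by ext <;> simp
  intCast_negSucc n := by ext <;> simp [Int.negSucc_eq]

end OK
end Pool.Agent.Q5U
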