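import Pool.Agent.Q5U.L4rep
import Pool.Agent.Q5U.Odd
import Pool.Agent.Q5U.Form

/-!
# Universality of the quinary form over the ring `OK`
-/

namespace Pool.Agent.Q5U

open Matrix

/-- `φ⁻¹ = φ - 1`. -/
private def psi5 : OK := o (-1) 1 0 0

private theorem phi_psi5 : phi * psi5 = 1 := by decide

private theorem fi_ne_zero5 (i : Fin 4) : fi i ≠ 0 := by
  intro h
  have h2 := fi_sq i
  rw [h] at h2
  norm_num at h2

private theorem sg_phi5 (i : Fin 4) : sg i phi = fi i := by
  rw [sg_apply]
  simp [phi, o]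

/-- Multiplication by `φ²` preserves total positivity. -/
private theorem tp_phi5 {x : OK} (h : TP x) : TP (phi * phi * x) := by
  intro i
  rw [map_mul, map_mul, sg_phi5]
  exact mul_pos (mul_self_pos.mpr (fi_ne_zero5 i)) (h i)

/-- Descent of a representation from `φ² x` to `x`. -/
private theorem desc5 {x : OK}
    (h : ∃ (t : OK) (z : V), t ^ 2 + qf G0 z = phi * phi * x) :
    ∃ (t : OK) (z : V), t ^ 2 + qf G0 z = x := by
  obtain ⟨t, z, hz⟩ := h
  refine ⟨psi5 * t, psi5 • z, ?_⟩
  rw [qf_smul]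
  have e := phi_psi5
  calc (psi5 * t) ^ 2 + psi5 * psi5 * qf G0 z = psi5 * psi5 * (t ^ 2 + qf G0 z) := by ring
    _ = (phi * psi5) * (phi * psi5) * x := by rw [hz]; ring
    _ = x := by rw [e]; ring

private theorem phi2_a5 (x : OK) : (phi * phi * x).a = x.a + x.b := by
  simp [phi, o]

private theorem phi2_b5 (x : OK) : (phi * phi * x).b = x.a + 2 * x.b := by
  simp [phi, o]; ring

theorem universal5 {x : OK} (h : TP x) : ∃ (t : OK) (z : V), t ^ 2 + qf G0 z = x := by
  by_cases hb : Even x.b
  · by_cases ha : Even x.a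
    · obtain ⟨z, hz⟩ := L4_rep h ha hb
      exact ⟨0, z, by rw [hz]; ring⟩
    · exact odd_case h ha hb
  · have hb' := Int.not_even_iff_odd.mp hb
    by_cases ha : Even x.a
    · refine desc5 (odd_case (tp_phi5 h) ?_ ?_)
      · rw [phi2_a5, Int.not_even_iff_odd]
        exact ha.add_odd hb'
      · rw [phi2_b5]
        exact ha.add (even_two_mul _)
    · have ha' := Int.not_even_iff_odd.mp ha
      refine desc5 (desc5 (odd_case (tp_phi5 (tp_phi5 h)) ?_ ?_))
      · rw [phi2_a5, phi2_a5, phi2_b5, Int.not_even_iff_odd]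
        have e : x.a + x.b + (x.a + 2 * x.b) = 2 * (x.a + x.b) + x.b := by ring
        rw [e]
        exact (even_two_mul _).add_odd hb'
      · rw [phi2_b5, phi2_a5, phi2_b5]
        have e : x.a + x.b + 2 * (x.a + 2 * x.b) = (x.a + x.b) + 2 * (x.a + 2 * x.b) := by ring
        rw [e]
        exact (ha'.add_odd hb').add (even_two_mul _)

end Pool.Agent.Q5U
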