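import Pool.Agent.Q5U.U5
import Pool.Agent.Q5U.Pos
import Pool.Agent.Q5U.Field
import Pool.Agent.Q5U.Exk

/-!
# A universal quinary classical form over the ring of integers of `ℚ(√3, √5)`
-/

namespace Pool.Agent.Q5U

open Matrix

/-- The Gram matrix of `⟨1⟩ ⊥ G0`. -/
def ubA : Matrix (Fin 5) (Fin 5) OK :=
  fun i j => Fin.cases (Fin.cases 1 (fun _ => 0) j) (fun i' => Fin.cases 0 (fun j' => G0 i' j') j) i

theorem ubA_val (x : Fin 5 → OK) :
    x ⬝ᵥ ubA *ᵥ x = x 0 ^ 2 + qf G0 (fun i => x i.succ) := by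
  simp only [qf, dotProduct, Matrix.mulVec, Fin.sum_univ_succ (n := 4), ubA, Fin.cases_zero,
    Fin.cases_succ]
  simp
  ring

theorem ubA_symm : ubA.IsSymm := by
  have hG : G0ᵀ = G0 := by decide
  apply Matrix.ext
  intro i j
  rw [Matrix.transpose_apply]
  induction i using Fin.cases with
  | zero =>
    induction j using Fin.cases with
    | zero => rfl
    | succ j => rfl
  | succ i =>
    induction j using Fin.cases with
    | zero => rfl
    | succ j => exact congrFun (congrFun hG i) j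

theorem ubA_pos {x : Fin 5 → OK} (hx : x ≠ 0) : TP (x ⬝ᵥ ubA *ᵥ x) := by
  rw [ubA_val]
  intro i
  rw [map_add, map_pow]
  by_cases hz : (fun i => x (Fin.succ i) : V) = 0
  · have h0 : x 0 ≠ 0 := by
      intro h0
      apply hx
      funext j
      induction j using Fin.cases with
      | zero => exact h0
      | succ j => exact congrFun hz j
    have h1 : qf G0 (fun i => x (Fin.succ i)) = 0 := by
      rw [hz]; simp [qf]
    rw [h1, map_zero, add_zero]
    have := sg_ne_zero h0 i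
    positivity
  · have := G0_pos hz i
    positivity

open NumberField in
theorem main : ∃ (K : Type) (_ : Field K) (_ : NumberField K), Module.finrank ℚ K = 4 ∧
    (∃ r : K, r ^ 2 = 3) ∧ (∃ s : K, s ^ 2 = 5) ∧
    ∃ A : Matrix (Fin 5) (Fin 5) (𝓞 K), A.IsSymm ∧
      (∀ x : Fin 5 → 𝓞 K, x ≠ 0 → ∀ τ : K →+* ℝ, 0 < τ ((x ⬝ᵥ A *ᵥ x : 𝓞 K) : K)) ∧
      (∀ α : 𝓞 K, (∀ τ : K →+* ℝ, 0 < τ (α : K)) → ∃ x : Fin 5 → 𝓞 K, x ⬝ᵥ A *ᵥ x = α) := by
  obtain ⟨K, iF, iN, hK, ⟨r, hr⟩, ⟨s, hs⟩⟩ := exists_K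
  obtain ⟨e, he1, he2⟩ := exists_equiv K hK hr hs
  have key : ∀ x : Fin 5 → OK, (fun i => e (x i)) ⬝ᵥ (ubA.map e) *ᵥ (fun i => e (x i))
      = e (x ⬝ᵥ ubA *ᵥ x) := by
    intro x
    have h := RingHom.map_dotProduct (e : OK →+* 𝓞 K) x (ubA *ᵥ x)
    have h2 : (fun i => (e : OK →+* 𝓞 K) ((ubA *ᵥ x) i)) = ubA.map e *ᵥ (fun i => e (x i)) := by
      funext i
      exact RingHom.map_mulVec (e : OK →+* 𝓞 K) ubA x i
    have h3 : (⇑(e : OK →+* 𝓞 K) ∘ (ubA *ᵥ x)) = ubA.map e *ᵥ (fun i => e (x i)) := h2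
    rw [h3] at h
    exact h.symm
  refine ⟨K, iF, iN, hK, ⟨r, hr⟩, ⟨s, hs⟩, ubA.map e, ?_, ?_, ?_⟩
  · unfold Matrix.IsSymm
    rw [← Matrix.transpose_map, ubA_symm]
  · intro y hy τ
    obtain ⟨i, hi⟩ := he1 τ
    have hy2 : y = fun j => e (e.symm (y j)) := by funext j; simp
    have hx : (fun j => e.symm (y j)) ≠ 0 := by
      intro h
      apply hy
      rw [hy2]
      funext j
      have := congrFun h j
      simp only [Pi.zero_apply] at this
      rw [this, map_zero]; rfl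
    rw [hy2, key, hi]
    exact ubA_pos hx i
  · intro α hα
    have hT : TP (e.symm α) := by
      intro i
      obtain ⟨τ, hτ⟩ := he2 i
      have := hα τ
      rw [← hτ, e.apply_symm_apply]
      exact this
    obtain ⟨t, z, htz⟩ := universal5 hT
    refine ⟨fun j => e ((Fin.cons t z : Fin 5 → OK) j), ?_⟩
    rw [key, ubA_val]
    simp only [Fin.cons_zero, Fin.cons_succ]
    rw [htz, e.apply_symm_apply]

end Pool.Agent.Q5U
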